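import Pool.Agent.V8H22.OSC.Z4

/-!
# The Liouville function under the Riemann hypothesis
-/

set_option autoImplicit false
set_option maxHeartbeats 1000000

open MeasureTheory Complex Set Filter Topology Metric
open scoped NNReal
open H353 (FF FF_bound FF_real_ne FF_conj)
open Pool.Agent.W190 (SF rh_free)
open Pool.Agent.R303.SW (muR laR laR_abs LS_la liou_bound)

namespace Pool.Agent.V8H22.OSC

/-- the real number `ζ(1/2)` -/
noncomputable def zh : ℝ := (riemannZeta (1 / 2)).re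

lemma FF_half : FF (1 / 2) = ((-(zh / 2) : ℝ) : ℂ) := by
  have hne : (1 / 2 : ℂ) ≠ 1 := by norm_num
  have h1 : FF (1 / 2) = (1 / 2 - 1) * riemannZeta (1 / 2) := ZU.J_g2b.FF_ne hne
  have hc : starRingEnd ℂ (1 / 2 : ℂ) = 1 / 2 := by
    have : (1 / 2 : ℂ) = ((1 / 2 : ℝ) : ℂ) := by push_cast; rfl
    rw [this, Complex.conj_ofReal]
  have h2 := FF_conj (1 / 2)
  rw [hc] at h2
  obtain ⟨r, hr⟩ := Complex.conj_eq_iff_real.1 h2.symm
  have h3 : riemannZeta (1 / 2) = ((-2 * r : ℝ) : ℂ) := by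
    rw [hr] at h1
    push_cast
    linear_combination 2 * h1
  have h4 : zh = -2 * r := by
    unfold zh
    rw [h3, Complex.ofReal_re]
  rw [hr, h4]
  congr 1
  ring

lemma zh_ne : zh ≠ 0 := by
  intro h
  have h1 := FF_half
  rw [h] at h1
  have := FF_real_ne (1 / 2) (by norm_num)
  push_cast at this
  rw [h1] at this
  simp at this

/-- the normalised summatory function of the Liouville function, corrected by the constant `1/ζ(1/2)` -/
noncomputable def fL (v : ℝ) : ℝ := fS laR v - (Ici (0:ℝ)).indicator (fun _ => zh⁻¹) v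

lemma fL_meas : Measurable fL :=
  (fS_meas laR).sub (measurable_const.indicator measurableSet_Ici)

lemma fL_neg {v : ℝ} (hv : v < 0) : fL v = 0 := by
  unfold fL
  rw [fS_neg _ hv, indicator_of_notMem (by simpa using hv), sub_zero]

lemma fL_pos {v : ℝ} (hv : 0 ≤ v) : fL v = fS laR v - zh⁻¹ := by
  unfold fL
  rw [indicator_of_mem (show v ∈ Ici (0:ℝ) from hv)]

lemma la_bound (hRH : RiemannHypothesis) (ε : ℝ) (hε : 0 < ε) : ∃ C : ℝ, ∀ x : ℝ, 1 ≤ x →
    |SF laR x| ≤ C * x ^ (1 / 2 + ε) :=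
  liou_bound (σ0 := 1 / 2) le_rfl (rh_free.1 hRH) (1 / 2 + ε) (by linarith)

lemma fL_Gr (hRH : RiemannHypothesis) (ε : ℝ) (hε : 0 < ε) : ∃ C : ℝ, Gr fL C ε := by
  obtain ⟨C, hC⟩ := la_bound hRH ε hε
  have hC0 : 0 ≤ C := by
    have := (abs_nonneg _).trans (hC 1 le_rfl)
    simpa using this
  refine ⟨C + |zh⁻¹|, gr_of (fun v hv => fL_neg hv) (by positivity) fun v hv => ?_⟩
  rw [fL_pos hv]
  have h1 := fS_bound hC hv
  have h2 : 1 ≤ Real.exp (ε * v) := Real.one_le_exp (by positivity)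
  calc |fS laR v - zh⁻¹| ≤ |fS laR v| + |zh⁻¹| := abs_sub _ _
    _ ≤ C * Real.exp (ε * v) + |zh⁻¹| * Real.exp (ε * v) := by
        have := le_mul_of_one_le_right (abs_nonneg zh⁻¹) h2
        linarith
    _ = _ := by ring

/-- the numerator before division by `z` -/
noncomputable def NL (z : ℂ) : ℂ :=
  (z - 1 / 2) * FF (2 * z + 1) / (2 * (z + 1 / 2)) - (zh⁻¹ : ℝ) * FF (z + 1 / 2)

lemma NL_zero : NL 0 = 0 := by
  unfold NL
  have h1 : FF 1 = 1 := ZU.J_g2b.FF_one
  rw [mul_zero, zero_add, zero_add, h1, FF_half]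
  have : (zh:ℂ) ≠ 0 := by exact_mod_cast zh_ne
  push_cast
  field_simp
  ring

lemma NL_diff {z : ℂ} (h : -(1 / 2) < z.re) : DifferentiableAt ℂ NL z := by
  have h0 := half_ne h
  have h1 : DifferentiableAt ℂ (fun z : ℂ => FF (2 * z + 1)) z :=
    (ZU.J_g2b.FF_diff _).comp z (by fun_prop)
  have h2 : DifferentiableAt ℂ (fun z : ℂ => FF (z + 1 / 2)) z :=
    (ZU.J_g2b.FF_diff _).comp z (by fun_prop)
  unfold NL
  refine DifferentiableAt.sub ?_ (h2.const_mul _)
  exact DifferentiableAt.div (DifferentiableAt.mul (by fun_prop) h1) (by fun_prop)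
    (mul_ne_zero two_ne_zero h0)

/-- the numerator for the Liouville function -/
noncomputable def AL (z : ℂ) : ℂ := dslope NL 0 z

lemma AL_eq {z : ℂ} (hz : z ≠ 0) : AL z = NL z / z := by
  unfold AL
  rw [dslope_of_ne _ hz, slope_def_field, NL_zero, sub_zero, sub_zero]

lemma AL_diff {z : ℂ} (h : -(1 / 2) < z.re) : DifferentiableAt ℂ AL z := by
  have hopen : IsOpen {z : ℂ | -(1 / 2) < z.re} := isOpen_lt continuous_const Complex.continuous_re
  have h0 : {z : ℂ | -(1 / 2) < z.re} ∈ 𝓝 (0:ℂ) := hopen.mem_nhds (by simp)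
  have h1 : DifferentiableOn ℂ NL {z : ℂ | -(1 / 2) < z.re} :=
    fun w hw => (NL_diff hw).differentiableWithinAt
  have h2 := (Complex.differentiableOn_dslope h0).2 h1
  exact h2.differentiableAt (hopen.mem_nhds h)

lemma NL_bound {z : ℂ} (h : |z.re| ≤ 1 / 4) :
    ‖NL z‖ ≤ (24 + 5 * |zh⁻¹|) * (3 + |z.im|) ^ 3 := by
  have h0 := (abs_le.1 h)
  have hy := abs_nonneg z.im
  have h1 : 1 / 4 ≤ ‖z + 1 / 2‖ := by
    have h2 := Complex.abs_re_le_norm (z + 1 / 2)
    have e : (z + 1 / 2).re = z.re + 1 / 2 := by simp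
    rw [e] at h2
    have h4 := le_abs_self (z.re + 1 / 2)
    linarith
  have h2 : ‖z - 1 / 2‖ ≤ 3 + |z.im| := by
    refine (norm_sub_le _ _).trans ?_
    have h3 := Complex.norm_le_abs_re_add_abs_im z
    have h4 : ‖(1 / 2 : ℂ)‖ = 1 / 2 := by norm_num
    rw [h4]
    linarith
  have h3 : ‖FF (2 * z + 1)‖ ≤ 12 * (3 + |z.im|) ^ 2 := by
    have e : (2 * z + 1).re = 2 * z.re + 1 := by simp
    have h4 := FF_bound (1 / 2) (by norm_num) (2 * z + 1) (by rw [e]; linarith)
    refine h4.trans ?_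
    have h5 : ‖2 * z + 1‖ ≤ 2 * (1 / 4 + |z.im|) + 1 := by
      refine (norm_add_le _ _).trans ?_
      rw [norm_mul]
      have h3 := Complex.norm_le_abs_re_add_abs_im z
      have h4 : ‖(2 : ℂ)‖ = 2 := by norm_num
      have h6 : ‖(1 : ℂ)‖ = 1 := by norm_num
      rw [h4, h6]
      linarith
    have h6 : (1 + ‖2 * z + 1‖) ^ 2 ≤ (2 * (3 + |z.im|)) ^ 2 :=
      pow_le_pow_left₀ (by positivity) (by linarith) 2
    have h7 : (1:ℝ) + 1 / (1 / 2) = 3 := by norm_num
    rw [h7]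
    linarith
  have h4 := DD_bound h
  unfold DD at h4
  unfold NL
  refine (norm_sub_le _ _).trans ?_
  have h5 : ‖(z - 1 / 2) * FF (2 * z + 1) / (2 * (z + 1 / 2))‖ ≤ 24 * (3 + |z.im|) ^ 3 := by
    have h22 : ‖(2:ℂ)‖ = 2 := by norm_num
    rw [norm_div, norm_mul, norm_mul, h22, div_le_iff₀ (by linarith)]
    calc ‖z - 1 / 2‖ * ‖FF (2 * z + 1)‖ ≤ (3 + |z.im|) * (12 * (3 + |z.im|) ^ 2) :=
          mul_le_mul h2 h3 (norm_nonneg _) (by positivity)
      _ = 24 * (3 + |z.im|) ^ 3 * (2 * (1 / 4)) := by ring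
      _ ≤ 24 * (3 + |z.im|) ^ 3 * (2 * ‖z + 1 / 2‖) := by gcongr
  have h6 : ‖((zh⁻¹ : ℝ) : ℂ) * FF (z + 1 / 2)‖ ≤ |zh⁻¹| * (5 * (3 + |z.im|) ^ 3) := by
    rw [norm_mul, Complex.norm_real, Real.norm_eq_abs]
    refine mul_le_mul_of_nonneg_left (h4.trans ?_) (abs_nonneg _)
    have : (3 + |z.im|) ^ 2 ≤ (3 + |z.im|) ^ 3 := pow_le_pow_right₀ (by linarith) (by norm_num)
    linarith
  calc _ ≤ 24 * (3 + |z.im|) ^ 3 + |zh⁻¹| * (5 * (3 + |z.im|) ^ 3) := add_le_add h5 h6
    _ = _ := by ring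

lemma AL_bound : ∃ K : ℝ, ∃ m : ℕ, ∀ z : ℂ, |z.re| ≤ 1 / 4 → ‖AL z‖ ≤ K * (3 + |z.im|) ^ m := by
  have hcpt : IsCompact (Icc (-(1 / 4) : ℝ) (1 / 4) ×ℂ Icc (-1 : ℝ) 1) :=
    isCompact_Icc.reProdIm isCompact_Icc
  have hcont : ContinuousOn AL (Icc (-(1 / 4) : ℝ) (1 / 4) ×ℂ Icc (-1 : ℝ) 1) := by
    intro z hz
    rw [Complex.mem_reProdIm] at hz
    have := hz.1.1
    exact (AL_diff (by linarith)).continuousAt.continuousWithinAt
  obtain ⟨B, hB⟩ := hcpt.exists_bound_of_continuousOn hcont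
  refine ⟨max B (24 + 5 * |zh⁻¹|), 3, fun z hz => ?_⟩
  have hy := abs_nonneg z.im
  have hp : 1 ≤ (3 + |z.im|) ^ 3 := one_le_pow₀ (by linarith)
  have hmax0 : 0 ≤ max B (24 + 5 * |zh⁻¹|) := by
    refine le_trans ?_ (le_max_right _ _)
    positivity
  rcases le_or_gt |z.im| 1 with h | h
  · have h1 := hB z (by
      rw [Complex.mem_reProdIm]
      exact ⟨abs_le.1 hz, abs_le.1 h⟩)
    calc ‖AL z‖ ≤ B := h1
      _ ≤ max B (24 + 5 * |zh⁻¹|) := le_max_left _ _
      _ ≤ _ := le_mul_of_one_le_right hmax0 hp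
  · have hz0 : z ≠ 0 := by
      rintro rfl
      simp at h
      linarith
    have h1 : 1 ≤ ‖z‖ := h.le.trans (Complex.abs_im_le_norm z)
    rw [AL_eq hz0, norm_div]
    calc ‖NL z‖ / ‖z‖ ≤ ‖NL z‖ := div_le_self (norm_nonneg _) h1
      _ ≤ (24 + 5 * |zh⁻¹|) * (3 + |z.im|) ^ 3 := NL_bound hz
      _ ≤ _ := mul_le_mul_of_nonneg_right (le_max_right _ _) (by positivity)

lemma Lap_one {z : ℂ} (hz : 0 < z.re) : Lap univ ((Ici (0:ℝ)).indicator (fun _ => zh⁻¹)) z =
    ((zh⁻¹ : ℝ) : ℂ) / z := by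
  have hmeas : Measurable ((Ici (0:ℝ)).indicator (fun _ : ℝ => zh⁻¹)) :=
    measurable_const.indicator measurableSet_Ici
  have hb : ∀ t : ℝ, |(Ici (0:ℝ)).indicator (fun _ => zh⁻¹) t| ≤ |zh⁻¹| * Real.exp (0 * t) := by
    intro t
    rw [zero_mul, Real.exp_zero, mul_one]
    by_cases h : t ∈ Ici (0:ℝ)
    · rw [indicator_of_mem h]
    · rw [indicator_of_notMem h, abs_zero]; positivity
  rw [Lap_univ_eq hmeas (fun v hv => indicator_of_notMem (by simpa using hv) _)
    (WI_pos hmeas (a := 0) hz hb)]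
  unfold Lap
  have h1 : ∫ t in Ioi (0:ℝ), (((Ici (0:ℝ)).indicator (fun _ => zh⁻¹) t : ℝ) : ℂ) * cexp (-z * t) =
      ∫ t in Ioi (0:ℝ), ((zh⁻¹ : ℝ) : ℂ) * cexp (-z * t) := by
    refine setIntegral_congr_fun measurableSet_Ioi fun t ht => ?_
    have : t ∈ Ici (0:ℝ) := le_of_lt (mem_Ioi.1 ht)
    rw [indicator_of_mem this]
  rw [h1, integral_const_mul, integral_exp_mul_complex_Ioi (a := -z) (by simpa using hz) 0]
  have hz0 : z ≠ 0 := by
    rintro rfl
    simp at hz
  simp only [ofReal_zero, mul_zero, Complex.exp_zero]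
  field_simp

theorem la_LW (hRH : RiemannHypothesis) {s : ℝ} (hs : s = 1 ∨ s = -1) :
    LW (fun v => s * fL v) := by
  refine zeta_window2 hRH fL fL_meas (fL_Gr hRH) AL (fun z hz => AL_diff (by linarith))
    (fun z hz => AL_diff (by have := (abs_lt.1 hz).1; linarith)) AL_bound
    (fun γ h1 h2 => ?_) (fun z hz => ?_) hs
  · have hγ0 : (γ : ℂ) * I ≠ 0 := by
      refine mul_ne_zero ?_ I_ne_zero
      exact_mod_cast (by linarith : γ ≠ 0)
    rw [AL_eq hγ0]
    refine div_ne_zero ?_ hγ0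
    unfold DD at h2
    unfold NL
    rw [h2, mul_zero, sub_zero]
    refine div_ne_zero (mul_ne_zero (fun h => ?_) (fun h => ?_))
      (mul_ne_zero two_ne_zero (half_ne (by simp)))
    · have := congrArg Complex.re h
      simp at this
    · have := ZU.J_g2b.FF_zero_re h
      simp at this
  · obtain ⟨C, hC⟩ := la_bound hRH (1 / 2) (by norm_num)
    have h1 := Lap_fS (a := laR) (by norm_num) (by norm_num) hC
      (fun s hs => LSeriesSummable_of_bounded_of_one_lt_re (m := 1) (fun n _ => by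
        rw [Complex.norm_real]; exact laR_abs n) hs) hz
    have hre : (z + 1 / 2).re = z.re + 1 / 2 := by simp
    have h2 := LS_la (s := z + 1 / 2) (by rw [hre]; linarith)
    have hne : z + 1 / 2 ≠ 1 := by
      intro h
      have := congrArg Complex.re h
      rw [hre] at this
      simp at this
      linarith
    have hne0 := half_ne (z := z) (by linarith)
    have hz0 : z ≠ 0 := by
      rintro rfl
      simp at hz
      linarith
    have hsplit : Lap univ fL z = Lap univ (fS laR) z - ((zh⁻¹ : ℝ) : ℂ) / z := by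
      rw [← Lap_one (by linarith : 0 < z.re)]
      have i1 : WI univ (fS laR) z.re :=
        WI_univ (WI_pos (fS_meas _) (by linarith) (fS_Gr hC (1 / 2) le_rfl))
          (WI_neg (fS_meas _) (show z.re < z.re + 1 by linarith) (fS_Gr hC (z.re + 1) (by linarith)))
      have i2 : WI univ ((Ici (0:ℝ)).indicator (fun _ => zh⁻¹)) z.re := by
        have hmeas : Measurable ((Ici (0:ℝ)).indicator (fun _ : ℝ => zh⁻¹)) :=
          measurable_const.indicator measurableSet_Ici
        have hg : Gr ((Ici (0:ℝ)).indicator (fun _ => zh⁻¹)) |zh⁻¹| 0 := by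
          refine gr_of (fun v hv => indicator_of_notMem (by simpa using hv) _) (abs_nonneg _)
            fun v hv => ?_
          rw [indicator_of_mem (show v ∈ Ici (0:ℝ) from hv)]
          simp
        exact WI_univ (WI_pos hmeas (by linarith) (hg 0 le_rfl))
          (WI_neg hmeas (show z.re < z.re + 1 by linarith) (hg (z.re + 1) (by linarith)))
      have k1 := kern_int (fS_meas laR) i1
      have k2 := kern_int (measurable_const.indicator measurableSet_Ici) i2
      unfold Lap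
      rw [← integral_sub k1 k2]
      refine integral_congr_ae (Eventually.of_forall fun t => ?_)
      simp only
      unfold fL
      push_cast
      ring
    have h2z : 2 * z + 1 ≠ 1 := by
      intro h
      apply hz0
      have : 2 * z = 0 := by linear_combination h
      simpa using this
    have hF2 : FF (2 * z + 1) = 2 * z * riemannZeta (2 * (z + 1 / 2)) := by
      rw [show FF (2 * z + 1) = (2 * z + 1 - 1) * riemannZeta (2 * z + 1) from ZU.J_g2b.FF_ne h2z]
      rw [show 2 * (z + 1 / 2) = 2 * z + 1 by ring]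
      ring
    rw [AL_eq hz0, hsplit]
    unfold NL DD
    rw [hF2, ← h2, h1,
      show FF (z + 1 / 2) = (z + 1 / 2 - 1) * riemannZeta (z + 1 / 2) from ZU.J_g2b.FF_ne hne]
    have e1 : (z - 1 / 2) * (2 * z * ((z + 1 / 2) * Lap univ (fS laR) z * riemannZeta (z + 1 / 2))) /
        (2 * (z + 1 / 2)) = (z - 1 / 2) * (z * Lap univ (fS laR) z * riemannZeta (z + 1 / 2)) := by
      rw [div_eq_iff (mul_ne_zero two_ne_zero hne0)]
      ring
    rw [e1]
    field_simp
    ring

end Pool.Agent.V8H22.OSC
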