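import Pool.Agent.V8H22.OSC.Sm

/-!
# The abstract setting, and the local bounds coming from the Phragmén–Lindelöf principle
-/

set_option autoImplicit false

open MeasureTheory ProbabilityTheory Complex Set Filter Topology
open scoped NNReal ENNReal

namespace Pool.Agent.V8H22.OSC

/-- A function `f` (vanishing on the negative axis, of growth `exp(τ v / 8)`) whose Laplace transform is `A / D`,
with `D`, `A` holomorphic and of polynomial growth in a strip about the imaginary axis, `D` not too small on the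
lines `Re z = ± τ / 4` and near `0`, and vanishing at `iγ`, where `A` does not vanish. -/
structure Dat where
  f : ℝ → ℝ
  D : ℂ → ℂ
  A : ℂ → ℂ
  τ : ℝ
  δ : ℝ
  γ : ℝ
  K : ℝ
  m : ℕ
  hτ : 0 < τ
  hτ1 : τ ≤ 1 / 4
  hτδ : 4 * τ ≤ δ
  hK : 1 ≤ K
  fm : Measurable f
  fg : Gr f K (τ / 8)
  Dd : ∀ z : ℂ, |z.re| < 2 * τ → DifferentiableAt ℂ D z
  Ad : ∀ z : ℂ, |z.re| < 2 * τ → DifferentiableAt ℂ A z
  Db : ∀ z : ℂ, |z.re| ≤ τ → ‖D z‖ ≤ K * (3 + |z.im|) ^ m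
  Ab : ∀ z : ℂ, |z.re| ≤ τ → ‖A z‖ ≤ K * (3 + |z.im|) ^ m
  Dl : ∀ z : ℂ, |z.re| = τ / 4 → 1 ≤ K * (3 + |z.im|) ^ m * ‖D z‖
  Dbox : ∀ z : ℂ, |z.re| ≤ τ / 4 → |z.im| ≤ δ → 1 ≤ K * ‖D z‖
  Dγ : D (γ * I) = 0
  Aγ : A (γ * I) ≠ 0
  tr : ∀ z : ℂ, τ / 8 < z.re → z.re ≤ τ → D z * Lap univ f z = A z

lemma re_quad (θ : ℝ≥0) (z : ℂ) :
    ((θ:ℂ) * z ^ 2 / 2).re = θ * (z.re ^ 2 - z.im ^ 2) / 2 := by
  have e : (θ:ℂ) * z ^ 2 / 2 = ((θ / 2 : ℝ) : ℂ) * z ^ 2 := by push_cast; ring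
  rw [e, Complex.re_ofReal_mul, sq, Complex.mul_re]
  ring

namespace Dat

variable (d : Dat) (θ : ℝ≥0) (V : ℝ)

/-- the smoothed function, recentred at `V` -/
noncomputable def F (t : ℝ) : ℝ := sm θ d.f (V + t)

/-- the weighted norm -/
noncomputable def J : ℝ := ∫ t, |d.F θ V t| * Real.exp (-d.τ * |t|)

/-- the holomorphic function in the strip -/
noncomputable def H (z : ℂ) : ℂ :=
  cexp (z * V) * d.A z * cexp (θ * z ^ 2 / 2) - d.D z * Lap (Iic 0) (d.F θ V) z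

lemma F_meas : Measurable (d.F θ V) :=
  (sm_meas d.fm).comp (measurable_const.add measurable_id)

lemma F_bd {a : ℝ} (ha : d.τ / 8 ≤ a) (t : ℝ) :
    |d.F θ V t| ≤ (d.K * Real.exp (a * V + θ * a ^ 2 / 2)) * Real.exp (a * t) := by
  refine (sm_bound d.fg ha (V + t)).trans (le_of_eq ?_)
  rw [mul_assoc, ← Real.exp_add]
  ring_nf

lemma WIp {x : ℝ} (hx : d.τ / 8 < x) : WI (Ioi 0) (d.F θ V) x :=
  WI_pos (d.F_meas θ V) hx (d.F_bd θ V le_rfl)

lemma WIn (x : ℝ) : WI (Iic 0) (d.F θ V) x :=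
  WI_neg (d.F_meas θ V) (show x < max (d.τ / 8) (x + 1) from
    lt_of_lt_of_le (by linarith) (le_max_right _ _)) (d.F_bd θ V (le_max_left _ _))

lemma J_int : Integrable (fun t => |d.F θ V t| * Real.exp (-d.τ * |t|)) := by
  rw [← integrableOn_univ, ← Iic_union_Ioi (a := (0:ℝ))]
  refine IntegrableOn.union ?_ ?_
  · refine (d.WIn θ V (-d.τ)).congr_fun (fun t ht => ?_) measurableSet_Iic
    simp only
    rw [abs_of_nonpos (a := t) ht]; ring_nf
  · refine (d.WIp θ V (x := d.τ) (by linarith [d.hτ])).congr_fun (fun t ht => ?_) measurableSet_Ioi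
    simp only
    rw [abs_of_pos (a := t) ht]

lemma J_nonneg : 0 ≤ d.J θ V := integral_nonneg fun t => by positivity

lemma Lp_le {z : ℂ} (hz : z.re = d.τ) : ‖Lap (Ioi 0) (d.F θ V) z‖ ≤ d.J θ V := by
  refine (Lap_norm z).trans ?_
  have e : ∫ t in Ioi 0, |d.F θ V t| * Real.exp (-z.re * t) =
      ∫ t in Ioi 0, |d.F θ V t| * Real.exp (-d.τ * |t|) := by
    refine setIntegral_congr_fun measurableSet_Ioi fun t ht => ?_
    rw [hz, abs_of_pos (a := t) (mem_Ioi.1 ht)]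
  rw [e]
  exact setIntegral_le_integral (d.J_int θ V) (Eventually.of_forall fun t => by
    simp only [Pi.zero_apply]; positivity)

lemma Lm_le {z : ℂ} (hz2 : z.re ≤ d.τ) : ‖Lap (Iic 0) (d.F θ V) z‖ ≤
    ∫ t in Iic 0, |d.F θ V t| * Real.exp (-d.τ * t) := by
  refine (Lap_norm z).trans ?_
  refine setIntegral_mono_on (d.WIn θ V _) (d.WIn θ V _) measurableSet_Iic fun t ht => ?_
  refine mul_le_mul_of_nonneg_left (Real.exp_le_exp.2 ?_) (abs_nonneg _)
  have := mem_Iic.1 ht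
  nlinarith

lemma Lm_le' {z : ℂ} (hz : z.re = -d.τ) : ‖Lap (Iic 0) (d.F θ V) z‖ ≤ d.J θ V := by
  refine (Lap_norm z).trans ?_
  have e : ∫ t in Iic 0, |d.F θ V t| * Real.exp (-z.re * t) =
      ∫ t in Iic 0, |d.F θ V t| * Real.exp (-d.τ * |t|) := by
    refine setIntegral_congr_fun measurableSet_Iic fun t ht => ?_
    rw [hz, abs_of_nonpos (a := t) (mem_Iic.1 ht)]
    ring_nf
  rw [e]
  exact setIntegral_le_integral (d.J_int θ V) (Eventually.of_forall fun t => by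
    simp only [Pi.zero_apply]; positivity)

lemma H_eq {z : ℂ} (h1 : d.τ / 8 < z.re) (h2 : z.re ≤ d.τ) :
    d.H θ V z = d.D z * Lap (Ioi 0) (d.F θ V) z := by
  have hp := d.WIp θ V h1
  have hn := d.WIn θ V z.re
  have h0 := d.WIp 0 0 h1
  have hn0 := d.WIn 0 0 z.re
  have e0 : d.F 0 0 = d.f := by
    funext t
    unfold F
    rw [sm_zero, zero_add]
  rw [e0] at h0 hn0
  have h3 : Lap univ (d.F θ V) z = cexp (z * V) * (cexp (θ * z ^ 2 / 2) * Lap univ d.f z) := by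
    rw [← Lap_sm d.fm (WI_univ h0 hn0), ← Lap_shift]
    rfl
  rw [Lap_split (d.F_meas θ V) hp hn] at h3
  have h4 := d.tr z h1 h2
  unfold H
  rw [← h4]
  linear_combination (-d.D z) * h3

lemma H_diffAt {z : ℂ} (h : |z.re| < 2 * d.τ) : DifferentiableAt ℂ (d.H θ V) z := by
  have h1 : DifferentiableAt ℂ (Lap (Iic 0) (d.F θ V)) z :=
    Lap_diffAt (d.F_meas θ V) (a := z.re - 1) (b := z.re + 1) (fun x _ _ => d.WIn θ V x)
      (by linarith) (by linarith)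
  have h2 := d.Dd z h
  have h3 := d.Ad z h
  unfold H
  fun_prop

lemma gauss_le {z z0 : ℂ} (hz : |z.re| ≤ 1 / 4) (hz0 : |z0.re| ≤ 1 / 4) (m : ℕ) :
    (3 + |z.im|) ^ m * ‖cexp ((z - z0) ^ 2)‖ ≤ m.factorial * Real.exp 3 * (3 + |z0.im|) ^ m := by
  set u := |z.im - z0.im| with hu
  have hu0 : 0 ≤ u := abs_nonneg _
  have h1 : 3 + |z.im| ≤ (3 + |z0.im|) * (1 + u) := by
    have : |z.im| ≤ |z0.im| + u := by
      rw [hu]
      have := abs_sub_abs_le_abs_sub z.im z0.im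
      linarith
    nlinarith [abs_nonneg z0.im]
  have h2 : ‖cexp ((z - z0) ^ 2)‖ ≤ Real.exp (1 / 4 - u ^ 2) := by
    rw [Complex.norm_exp]
    refine Real.exp_le_exp.2 ?_
    have e : ((z - z0) ^ 2).re = (z.re - z0.re) ^ 2 - (z.im - z0.im) ^ 2 := by
      rw [sq, Complex.mul_re, Complex.sub_re, Complex.sub_im]; ring
    rw [e, hu, sq_abs]
    rw [abs_le] at hz hz0
    nlinarith
  have h3 : (1 + u) ^ m ≤ m.factorial * Real.exp (1 + u) := by
    have := Real.pow_div_factorial_le_exp (1 + u) (by linarith) m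
    rw [div_le_iff₀ (by positivity)] at this
    linarith
  calc (3 + |z.im|) ^ m * ‖cexp ((z - z0) ^ 2)‖
      ≤ ((3 + |z0.im|) * (1 + u)) ^ m * Real.exp (1 / 4 - u ^ 2) := by
        gcongr
    _ = (3 + |z0.im|) ^ m * ((1 + u) ^ m * Real.exp (1 / 4 - u ^ 2)) := by rw [mul_pow]; ring
    _ ≤ (3 + |z0.im|) ^ m * ((m.factorial * Real.exp (1 + u)) * Real.exp (1 / 4 - u ^ 2)) := by
        gcongr
    _ = (3 + |z0.im|) ^ m * (m.factorial * Real.exp (1 + u + (1 / 4 - u ^ 2))) := by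
        rw [Real.exp_add (1 + u)]; ring
    _ ≤ (3 + |z0.im|) ^ m * (m.factorial * Real.exp 3) := by
        gcongr
        nlinarith [sq_nonneg (u - 1)]
    _ = _ := by ring

lemma bdry {z : ℂ} (hθ : θ ≤ 1) (hz : |z.re| = d.τ) :
    ‖d.H θ V z‖ ≤ d.K * (3 + |z.im|) ^ d.m * (d.J θ V + Real.exp (1 - d.τ * V)) := by
  have hτ := d.hτ
  have hD := d.Db z hz.le
  have hP : 0 ≤ d.K * (3 + |z.im|) ^ d.m := (norm_nonneg _).trans hD
  have hJ := d.J_nonneg θ V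
  rcases (abs_eq hτ.le).1 hz with h | h
  · rw [d.H_eq θ V (by rw [h]; linarith) h.le, norm_mul]
    calc ‖d.D z‖ * ‖Lap (Ioi 0) (d.F θ V) z‖ ≤ (d.K * (3 + |z.im|) ^ d.m) * d.J θ V :=
          mul_le_mul hD (d.Lp_le θ V h) (norm_nonneg _) hP
      _ ≤ _ := mul_le_mul_of_nonneg_left (by linarith [Real.exp_pos (1 - d.τ * V)]) hP
  · unfold H
    refine (norm_sub_le _ _).trans ?_
    rw [norm_mul, norm_mul, norm_mul]
    have hA := d.Ab z hz.le
    have e1 : ‖cexp (z * V)‖ = Real.exp (-d.τ * V) := by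
      rw [Complex.norm_exp]; simp [h]
    have e2 : ‖cexp (θ * z ^ 2 / 2)‖ ≤ Real.exp 1 := by
      rw [Complex.norm_exp]
      refine Real.exp_le_exp.2 ?_
      rw [re_quad]
      have h5 : (θ:ℝ) ≤ 1 := by exact_mod_cast hθ
      have h6 : (0:ℝ) ≤ θ := θ.2
      have h7 : z.re ^ 2 - z.im ^ 2 ≤ 1 := by
        rw [h]; nlinarith [d.hτ1, sq_nonneg z.im]
      nlinarith
    rw [e1]
    calc Real.exp (-d.τ * V) * ‖d.A z‖ * ‖cexp (θ * z ^ 2 / 2)‖ +
          ‖d.D z‖ * ‖Lap (Iic 0) (d.F θ V) z‖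
        ≤ Real.exp (-d.τ * V) * (d.K * (3 + |z.im|) ^ d.m) * Real.exp 1 +
          (d.K * (3 + |z.im|) ^ d.m) * d.J θ V := by
          refine add_le_add ?_ (mul_le_mul hD (d.Lm_le' θ V h) (norm_nonneg _) hP)
          refine mul_le_mul (mul_le_mul_of_nonneg_left hA (Real.exp_pos _).le) e2 (norm_nonneg _)
            (by positivity)
      _ = _ := by
          rw [sub_eq_add_neg, Real.exp_add]; ring_nf

/-- crude growth bound, to apply the Phragmén–Lindelöf principle -/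
lemma crude (hθ : θ ≤ 1) : ∃ M : ℝ, 0 ≤ M ∧ ∀ z : ℂ, |z.re| ≤ d.τ →
    ‖d.H θ V z‖ ≤ M * (3 + |z.im|) ^ d.m := by
  set B := ∫ t in Iic 0, |d.F θ V t| * Real.exp (-d.τ * t) with hB
  have hB0 : 0 ≤ B := integral_nonneg fun t => by positivity
  have hK := d.hK
  refine ⟨Real.exp (d.τ * |V|) * d.K * Real.exp 1 + d.K * B, by positivity, fun z hz => ?_⟩
  unfold H
  refine (norm_sub_le _ _).trans ?_
  rw [norm_mul, norm_mul, norm_mul]
  have hA := d.Ab z hz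
  have hD := d.Db z hz
  have hL := d.Lm_le θ V (abs_le.1 hz).2
  have e1 : ‖cexp (z * V)‖ ≤ Real.exp (d.τ * |V|) := by
    rw [Complex.norm_exp]
    refine Real.exp_le_exp.2 ?_
    have : (z * (V:ℂ)).re = z.re * V := by simp
    rw [this]
    calc z.re * V ≤ |z.re * V| := le_abs_self _
      _ = |z.re| * |V| := abs_mul _ _
      _ ≤ d.τ * |V| := mul_le_mul_of_nonneg_right hz (abs_nonneg _)
  have e2 : ‖cexp (θ * z ^ 2 / 2)‖ ≤ Real.exp 1 := by
    rw [Complex.norm_exp]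
    refine Real.exp_le_exp.2 ?_
    rw [re_quad]
    have h5 : (θ:ℝ) ≤ 1 := by exact_mod_cast hθ
    have h6 : (0:ℝ) ≤ θ := θ.2
    have h7 : z.re ^ 2 - z.im ^ 2 ≤ 1 := by
      have := abs_le.1 hz
      nlinarith [d.hτ1, sq_nonneg z.im]
    nlinarith
  calc ‖cexp (z * V)‖ * ‖d.A z‖ * ‖cexp (θ * z ^ 2 / 2)‖ + ‖d.D z‖ * ‖Lap (Iic 0) (d.F θ V) z‖
      ≤ Real.exp (d.τ * |V|) * (d.K * (3 + |z.im|) ^ d.m) * Real.exp 1 +
          (d.K * (3 + |z.im|) ^ d.m) * B := by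
        gcongr
    _ = _ := by ring

/-- the Phragmén–Lindelöf bound -/
lemma pl (hθ : θ ≤ 1) {z0 : ℂ} (hz0 : |z0.re| ≤ d.τ) :
    ‖d.H θ V z0‖ ≤ d.K * (d.m.factorial * Real.exp 3) * (3 + |z0.im|) ^ d.m *
      (d.J θ V + Real.exp (1 - d.τ * V)) := by
  have hτ := d.hτ
  have hτ1 := d.hτ1
  have hJ := d.J_nonneg θ V
  have hK := d.hK
  obtain ⟨M, hM0, hM⟩ := d.crude θ V hθ
  set C := d.K * (d.m.factorial * Real.exp 3) * (3 + |z0.im|) ^ d.m *
      (d.J θ V + Real.exp (1 - d.τ * V)) with hC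
  have hb : ∀ z : ℂ, |z.re| = d.τ → ‖d.H θ V z * cexp ((z - z0) ^ 2)‖ ≤ C := by
    intro z hz
    rw [norm_mul]
    calc ‖d.H θ V z‖ * ‖cexp ((z - z0) ^ 2)‖
        ≤ d.K * (3 + |z.im|) ^ d.m * (d.J θ V + Real.exp (1 - d.τ * V)) *
          ‖cexp ((z - z0) ^ 2)‖ := mul_le_mul_of_nonneg_right (d.bdry θ V hθ hz) (norm_nonneg _)
      _ = d.K * (d.J θ V + Real.exp (1 - d.τ * V)) *
          ((3 + |z.im|) ^ d.m * ‖cexp ((z - z0) ^ 2)‖) := by ring
      _ ≤ d.K * (d.J θ V + Real.exp (1 - d.τ * V)) *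
          (d.m.factorial * Real.exp 3 * (3 + |z0.im|) ^ d.m) := by
          refine mul_le_mul_of_nonneg_left
            (gauss_le (by linarith) (by linarith) d.m) (by positivity)
      _ = C := by rw [hC]; ring
  have key := PhragmenLindelof.vertical_strip (a := -d.τ) (b := d.τ) (C := C)
    (f := fun z => d.H θ V z * cexp ((z - z0) ^ 2)) (z := z0) ?_ ?_
    (fun z hz => hb z (by rw [hz, abs_neg, abs_of_pos hτ]))
    (fun z hz => hb z (by rw [hz, abs_of_pos hτ])) (abs_le.1 hz0).1 (abs_le.1 hz0).2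
  · simpa using key
  · refine DifferentiableOn.diffContOnCl fun z hz => ?_
    have hcl : closure (Complex.re ⁻¹' Ioo (-d.τ) d.τ) ⊆ Complex.re ⁻¹' Icc (-d.τ) d.τ := by
      refine closure_minimal (preimage_mono Ioo_subset_Icc_self) (isClosed_Icc.preimage Complex.continuous_re)
    have h1 := hcl hz
    have h2 : |z.re| < 2 * d.τ := by
      rw [mem_preimage, mem_Icc] at h1
      rw [abs_lt]
      constructor <;> linarith [h1.1, h1.2]
    refine ((d.H_diffAt θ V h2).mul ?_).differentiableWithinAt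
    fun_prop
  · refine ⟨0, by
      have : 0 < d.τ - -d.τ := by linarith
      have := Real.pi_pos
      positivity, 0, ?_⟩
    refine Asymptotics.IsBigO.of_bound (M * (d.m.factorial * Real.exp 3 * (3 + |z0.im|) ^ d.m)) ?_
    refine Filter.eventually_inf_principal.2 (Eventually.of_forall fun z hz => ?_)
    have hz' : |z.re| ≤ d.τ := by
      rw [mem_preimage, mem_Ioo] at hz
      rw [abs_le]
      exact ⟨hz.1.le, hz.2.le⟩
    rw [norm_mul]
    calc ‖d.H θ V z‖ * ‖cexp ((z - z0) ^ 2)‖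
        ≤ M * (3 + |z.im|) ^ d.m * ‖cexp ((z - z0) ^ 2)‖ :=
          mul_le_mul_of_nonneg_right (hM z hz') (norm_nonneg _)
      _ = M * ((3 + |z.im|) ^ d.m * ‖cexp ((z - z0) ^ 2)‖) := by ring
      _ ≤ M * (d.m.factorial * Real.exp 3 * (3 + |z0.im|) ^ d.m) := by
          refine mul_le_mul_of_nonneg_left
            (gauss_le (by linarith) (by linarith) d.m) hM0
      _ = _ := by simp

end Dat

end Pool.Agent.V8H22.OSC
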