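import Pool.Agent.V8H22.OSC.C1

/-!
# Lower bound for the weighted norm; the smoothing step
-/

set_option autoImplicit false

open MeasureTheory ProbabilityTheory Complex Set Filter Topology
open scoped NNReal ENNReal

namespace Pool.Agent.V8H22.OSC

namespace Dat

variable (d : Dat)

/-- the weighted norm is bounded below, uniformly in the smoothing parameter -/
lemma base : ∃ c : ℝ, 0 < c ∧ ∃ V1 : ℝ, 1 ≤ V1 ∧ ∀ V, V1 ≤ V → ∀ θ : ℝ≥0, θ ≤ 1 →
    c ≤ d.J θ V ∧ Real.exp (1 - d.τ / 4 * V) ≤ d.J θ V := by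
  have hτ := d.hτ
  have hK := d.hK
  set P := d.K * (d.m.factorial * Real.exp 3) * (3 + |d.γ|) ^ d.m with hP
  have hP0 : 0 < P := by positivity
  set a0 := ‖d.A (d.γ * I)‖ * Real.exp (-d.γ ^ 2 / 2) with ha0
  have ha : 0 < a0 := mul_pos (norm_pos_iff.2 d.Aγ) (Real.exp_pos _)
  set c := a0 / (2 * P) with hc
  have hc0 : 0 < c := by positivity
  refine ⟨c, hc0, max 1 ((1 - Real.log c) * (4 / d.τ)), le_max_left _ _, fun V hV θ hθ => ?_⟩
  have hV1 : 1 ≤ V := (le_max_left _ _).trans hV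
  have hV2 : (1 - Real.log c) * (4 / d.τ) ≤ V := (le_max_right _ _).trans hV
  have hE : Real.exp (1 - d.τ / 4 * V) ≤ c := by
    rw [← Real.le_log_iff_exp_le hc0]
    rw [← le_div_iff₀ (by positivity), div_div_eq_mul_div] at hV2
    linarith
  have hE2 : Real.exp (1 - d.τ * V) ≤ c := by
    refine le_trans (Real.exp_le_exp.2 ?_) hE
    nlinarith
  have h1 := d.pl θ V hθ (z0 := d.γ * I) (by simp [hτ.le])
  have h2 : a0 ≤ ‖d.H θ V (d.γ * I)‖ := by
    unfold H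
    rw [d.Dγ, zero_mul, sub_zero, norm_mul, norm_mul, Complex.norm_exp, Complex.norm_exp, re_quad]
    have e1 : ((d.γ : ℂ) * I * V).re = 0 := by simp
    rw [e1, Real.exp_zero, one_mul, ha0]
    refine mul_le_mul_of_nonneg_left (Real.exp_le_exp.2 ?_) (norm_nonneg _)
    have h5 : (θ:ℝ) ≤ 1 := by exact_mod_cast hθ
    have h6 : (0:ℝ) ≤ θ := θ.2
    have e2 : ((d.γ : ℂ) * I).re = 0 := by simp
    have e3 : ((d.γ : ℂ) * I).im = d.γ := by simp
    rw [e2, e3]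
    nlinarith [sq_nonneg d.γ]
  have e3 : ((d.γ : ℂ) * I).im = d.γ := by simp
  rw [e3] at h1
  have h3 : a0 ≤ P * (d.J θ V + Real.exp (1 - d.τ * V)) := h2.trans h1
  have h4 : a0 = 2 * P * c := by rw [hc]; field_simp
  have h5 : 2 * c ≤ d.J θ V + Real.exp (1 - d.τ * V) := by
    rw [h4] at h3
    have : P * (2 * c) ≤ P * (d.J θ V + Real.exp (1 - d.τ * V)) := by linarith
    exact le_of_mul_le_mul_left this hP0
  exact ⟨by linarith, by linarith⟩

/-- constants -/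
noncomputable def C1 : ℝ := 2 * d.K * (d.m.factorial * Real.exp 3)

noncomputable def C2 : ℝ := d.K * (d.K + d.C1)

lemma C1_nonneg : 0 ≤ d.C1 := by
  have := d.hK
  unfold C1
  positivity

lemma C2_pos : 0 < d.C2 := by
  have := d.hK
  have := d.C1_nonneg
  unfold C2
  positivity

variable {d} {θ : ℝ≥0} {V : ℝ}

lemma Hb (hθ : θ ≤ 1) (hV : 0 ≤ V) (hJ : Real.exp (1 - d.τ / 4 * V) ≤ d.J θ V) {z : ℂ}
    (hz : |z.re| ≤ d.τ) : ‖d.H θ V z‖ ≤ d.C1 * (3 + |z.im|) ^ d.m * d.J θ V := by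
  have hτ := d.hτ
  have hK := d.hK
  have h1 := d.pl θ V hθ hz
  have hE2 : Real.exp (1 - d.τ * V) ≤ d.J θ V := by
    refine le_trans (Real.exp_le_exp.2 ?_) hJ
    nlinarith
  calc ‖d.H θ V z‖ ≤ d.K * (d.m.factorial * Real.exp 3) * (3 + |z.im|) ^ d.m *
      (d.J θ V + Real.exp (1 - d.τ * V)) := h1
    _ ≤ d.K * (d.m.factorial * Real.exp 3) * (3 + |z.im|) ^ d.m *
      (d.J θ V + d.J θ V) := by gcongr
    _ = _ := by unfold C1; ring

lemma Lpb (hθ : θ ≤ 1) (hV : 0 ≤ V) (hJ : Real.exp (1 - d.τ / 4 * V) ≤ d.J θ V) {z : ℂ}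
    (hz : z.re = d.τ / 4) :
    ‖Lap (Ioi 0) (d.F θ V) z‖ ≤ d.C2 * (3 + |z.im|) ^ (2 * d.m) * d.J θ V := by
  have hτ := d.hτ
  have hK := d.hK
  have hC := d.C1_nonneg
  have hJ0 := d.J_nonneg θ V
  have h0 : |z.re| = d.τ / 4 := by rw [hz, abs_of_pos (by linarith)]
  have h1 := Hb hθ hV hJ (z := z) (by linarith)
  rw [d.H_eq θ V (by linarith) (by linarith), norm_mul] at h1
  have h2 := d.Dl z h0
  calc ‖Lap (Ioi 0) (d.F θ V) z‖
      ≤ (d.K * (3 + |z.im|) ^ d.m * ‖d.D z‖) * ‖Lap (Ioi 0) (d.F θ V) z‖ :=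
        le_mul_of_one_le_left (norm_nonneg _) h2
    _ = (d.K * (3 + |z.im|) ^ d.m) * (‖d.D z‖ * ‖Lap (Ioi 0) (d.F θ V) z‖) := by ring
    _ ≤ (d.K * (3 + |z.im|) ^ d.m) * (d.C1 * (3 + |z.im|) ^ d.m * d.J θ V) := by gcongr
    _ = (d.K * d.C1) * (3 + |z.im|) ^ (2 * d.m) * d.J θ V := by rw [two_mul, pow_add]; ring
    _ ≤ d.C2 * (3 + |z.im|) ^ (2 * d.m) * d.J θ V := by
        unfold C2
        gcongr
        nlinarith

lemma Eb (hθ : θ ≤ 1) {z : ℂ} (hz : z.re = -(d.τ / 4)) :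
    ‖cexp (z * V) * d.A z * cexp (θ * z ^ 2 / 2)‖ ≤
      d.K * (3 + |z.im|) ^ d.m * Real.exp (1 - d.τ / 4 * V) := by
  have hτ := d.hτ
  have hK := d.hK
  have hA := d.Ab z (by rw [hz, abs_neg, abs_of_pos (by linarith)]; linarith)
  rw [norm_mul, norm_mul]
  have e1 : ‖cexp (z * V)‖ = Real.exp (-(d.τ / 4) * V) := by
    rw [Complex.norm_exp]; simp [hz]
  have e2 : ‖cexp (θ * z ^ 2 / 2)‖ ≤ Real.exp 1 := by
    rw [Complex.norm_exp]
    refine Real.exp_le_exp.2 ?_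
    rw [re_quad]
    have h5 : (θ:ℝ) ≤ 1 := by exact_mod_cast hθ
    have h6 : (0:ℝ) ≤ θ := θ.2
    have h7 : z.re ^ 2 - z.im ^ 2 ≤ 1 := by
      rw [hz]; nlinarith [d.hτ1, sq_nonneg z.im]
    nlinarith
  rw [e1]
  calc Real.exp (-(d.τ / 4) * V) * ‖d.A z‖ * ‖cexp (θ * z ^ 2 / 2)‖
      ≤ Real.exp (-(d.τ / 4) * V) * (d.K * (3 + |z.im|) ^ d.m) * Real.exp 1 := by gcongr
    _ = _ := by
      rw [sub_eq_add_neg, Real.exp_add]; ring_nf

lemma Lmb (hθ : θ ≤ 1) (hV : 0 ≤ V) (hJ : Real.exp (1 - d.τ / 4 * V) ≤ d.J θ V) {z : ℂ}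
    (hz : z.re = -(d.τ / 4)) :
    ‖Lap (Iic 0) (d.F θ V) z‖ ≤ d.C2 * (3 + |z.im|) ^ (2 * d.m) * d.J θ V := by
  have hτ := d.hτ
  have hK := d.hK
  have hC := d.C1_nonneg
  have hJ0 := d.J_nonneg θ V
  have h0 : |z.re| = d.τ / 4 := by rw [hz, abs_neg, abs_of_pos (by linarith)]
  have h1 := Hb hθ hV hJ (z := z) (by linarith)
  have h2 := d.Dl z h0
  have h3 := Eb (d := d) (V := V) hθ hz
  have h4 : ‖d.D z * Lap (Iic 0) (d.F θ V) z‖ ≤ (d.K + d.C1) * (3 + |z.im|) ^ d.m * d.J θ V := by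
    have e : d.D z * Lap (Iic 0) (d.F θ V) z =
        cexp (z * V) * d.A z * cexp (θ * z ^ 2 / 2) - d.H θ V z := by unfold H; ring
    rw [e]
    refine (norm_sub_le _ _).trans ?_
    calc _ ≤ d.K * (3 + |z.im|) ^ d.m * Real.exp (1 - d.τ / 4 * V) +
          d.C1 * (3 + |z.im|) ^ d.m * d.J θ V := add_le_add h3 h1
      _ ≤ d.K * (3 + |z.im|) ^ d.m * d.J θ V +
          d.C1 * (3 + |z.im|) ^ d.m * d.J θ V := by gcongr
      _ = _ := by ring
  rw [norm_mul] at h4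
  calc ‖Lap (Iic 0) (d.F θ V) z‖
      ≤ (d.K * (3 + |z.im|) ^ d.m * ‖d.D z‖) * ‖Lap (Iic 0) (d.F θ V) z‖ :=
        le_mul_of_one_le_left (norm_nonneg _) h2
    _ = (d.K * (3 + |z.im|) ^ d.m) * (‖d.D z‖ * ‖Lap (Iic 0) (d.F θ V) z‖) := by ring
    _ ≤ (d.K * (3 + |z.im|) ^ d.m) * ((d.K + d.C1) * (3 + |z.im|) ^ d.m * d.J θ V) := by gcongr
    _ = d.C2 * (3 + |z.im|) ^ (2 * d.m) * d.J θ V := by
        unfold C2
        rw [two_mul, pow_add]; ring

end Dat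

/-- Gaussian moments, pointwise -/
lemma gm_pt {s : ℝ} (hs : 0 < s) (hs1 : s ≤ 1) (n : ℕ) (y : ℝ) :
    Real.exp (-s * y ^ 2 / 2) * (3 + |y|) ^ (2 * n) ≤
      ((2 * n).factorial * Real.exp 4 * (1 / s) ^ n) * Real.exp (-(s / 4) * y ^ 2) := by
  set r := √s with hr
  have hr0 : 0 < r := Real.sqrt_pos.2 hs
  have hr2 : r ^ 2 = s := Real.sq_sqrt hs.le
  have hr1 : r ≤ 1 := by nlinarith
  have h1 : (3 + |y|) ^ (2 * n) ≤ (1 / s) ^ n * (3 + r * |y|) ^ (2 * n) := by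
    have e : (1 / s) ^ n = (1 / r) ^ (2 * n) := by rw [pow_mul, div_pow 1 r 2, hr2, one_pow]
    rw [e, ← mul_pow]
    refine pow_le_pow_left₀ (by positivity) ?_ _
    rw [mul_add, one_div, ← mul_assoc, inv_mul_cancel₀ hr0.ne', one_mul]
    have : 1 ≤ r⁻¹ := (one_le_inv₀ hr0).2 hr1
    nlinarith
  have h2 : (3 + r * |y|) ^ (2 * n) ≤ (2 * n).factorial * Real.exp (3 + r * |y|) := by
    have := Real.pow_div_factorial_le_exp (3 + r * |y|) (by positivity) (2 * n)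
    rw [div_le_iff₀ (by positivity)] at this
    linarith
  have h3 : Real.exp (-s * y ^ 2 / 2) * Real.exp (3 + r * |y|) ≤
      Real.exp 4 * Real.exp (-(s / 4) * y ^ 2) := by
    rw [← Real.exp_add, ← Real.exp_add]
    refine Real.exp_le_exp.2 ?_
    have : (r * |y|) ^ 2 = s * y ^ 2 := by rw [mul_pow, sq_abs, hr2]
    nlinarith [sq_nonneg (r * |y| / 2 - 1)]
  calc Real.exp (-s * y ^ 2 / 2) * (3 + |y|) ^ (2 * n)
      ≤ Real.exp (-s * y ^ 2 / 2) * ((1 / s) ^ n * ((2 * n).factorial * Real.exp (3 + r * |y|))) := by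
        gcongr
        exact h1.trans (mul_le_mul_of_nonneg_left h2 (by positivity))
    _ = ((1 / s) ^ n * (2 * n).factorial) * (Real.exp (-s * y ^ 2 / 2) * Real.exp (3 + r * |y|)) := by
        ring
    _ ≤ ((1 / s) ^ n * (2 * n).factorial) * (Real.exp 4 * Real.exp (-(s / 4) * y ^ 2)) := by
        gcongr
    _ = _ := by ring

lemma gm_int {s : ℝ} (hs : 0 < s) (hs1 : s ≤ 1) (n : ℕ) :
    Integrable (fun y : ℝ => Real.exp (-s * y ^ 2 / 2) * (3 + |y|) ^ (2 * n)) := by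
  refine ((integrable_exp_neg_mul_sq (b := s / 4) (by linarith)).const_mul
    ((2 * n).factorial * Real.exp 4 * (1 / s) ^ n)).mono' (by fun_prop)
    (Eventually.of_forall fun y => ?_)
  rw [Real.norm_eq_abs, abs_of_nonneg (by positivity)]
  exact gm_pt hs hs1 n y

lemma gm {s : ℝ} (hs : 0 < s) (hs1 : s ≤ 1) (n : ℕ) :
    ∫ y : ℝ, Real.exp (-s * y ^ 2 / 2) * (3 + |y|) ^ (2 * n) ≤
      4 * ((2 * n).factorial * Real.exp 4) * (1 / s) ^ (n + 1) := by
  calc ∫ y : ℝ, Real.exp (-s * y ^ 2 / 2) * (3 + |y|) ^ (2 * n)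
      ≤ ∫ y : ℝ, ((2 * n).factorial * Real.exp 4 * (1 / s) ^ n) * Real.exp (-(s / 4) * y ^ 2) :=
        integral_mono (gm_int hs hs1 n)
          ((integrable_exp_neg_mul_sq (b := s / 4) (by linarith)).const_mul _) fun y => gm_pt hs hs1 n y
    _ = ((2 * n).factorial * Real.exp 4 * (1 / s) ^ n) * √(Real.pi / (s / 4)) := by
        rw [integral_const_mul, integral_gaussian]
    _ ≤ ((2 * n).factorial * Real.exp 4 * (1 / s) ^ n) * (4 * (1 / s)) := by
        gcongr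
        rw [Real.sqrt_le_left (by positivity)]
        have hpi := Real.pi_lt_four
        rw [mul_pow, div_pow, one_pow, ← sub_nonneg]
        have e : 4 ^ 2 * (1 / s ^ 2) - Real.pi / (s / 4) = 4 * (4 - Real.pi * s) / s ^ 2 := by
          field_simp
        rw [e]
        have : Real.pi * s ≤ 4 := by nlinarith [Real.pi_pos]
        have : 0 ≤ 4 - Real.pi * s := by linarith
        positivity
    _ = _ := by rw [pow_succ]; ring

/-- representation of a convolution with a Gaussian density -/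
lemma rep_bound {S : Set ℝ} {F : ℝ → ℝ} (hF : Measurable F) {x : ℝ} (h : WI S F x) {s : ℝ≥0}
    (hs : s ≠ 0) (hs1 : s ≤ 1) (hx : |x| ≤ 1) {B : ℝ} {n : ℕ} (t : ℝ)
    (hB : ∀ y : ℝ, ‖Lap S F (x + y * I)‖ ≤ B * (3 + |y|) ^ (2 * n)) :
    |∫ w in S, F w * gd s (t - w)| ≤
      (2 * n).factorial * Real.exp 5 * B * (1 / (s:ℝ)) ^ (n + 1) * Real.exp (x * t) := by
  have hs0 : (0:ℝ) < s := by positivity
  have hs1' : (s:ℝ) ≤ 1 := by exact_mod_cast hs1
  have hB0 : 0 ≤ B := by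
    have := (norm_nonneg _).trans (hB 0)
    simp at this
    by_contra hneg
    push Not at hneg
    have h3 : B * 3 ^ (2 * n) < 0 := mul_neg_of_neg_of_pos hneg (by positivity)
    linarith
  set k : ℝ → ℂ := fun y => cexp (s * ((x:ℂ) + y * I) ^ 2 / 2 + ((x:ℂ) + y * I) * t) with hk
  have hki : Integrable k := rep_int hs x t
  obtain ⟨h1, h2⟩ := Lap_swap hF h hki
  have h3 : ∀ w : ℝ, ((F w : ℝ) : ℂ) * (∫ y : ℝ, k y * cexp (-(x + y * I) * w)) =
      (2 * Real.pi : ℝ) * ((F w * gd s (t - w) : ℝ) : ℂ) := by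
    intro w
    have h4 := gd_rep hs x (t - w)
    have h5 : ∀ y : ℝ, k y * cexp (-(x + y * I) * w) =
        cexp (s * ((x:ℂ) + y * I) ^ 2 / 2 + ((x:ℂ) + y * I) * ((t - w : ℝ) : ℂ)) := by
      intro y
      rw [hk, ← Complex.exp_add]
      congr 1
      push_cast
      ring
    simp_rw [h5]
    push_cast at h4 ⊢
    rw [h4]
    have : (Real.pi : ℂ) ≠ 0 := by exact_mod_cast Real.pi_ne_zero
    set Q := ∫ y : ℝ, cexp (s * ((x:ℂ) + y * I) ^ 2 / 2 + ((x:ℂ) + y * I) * ((t:ℂ) - w)) with hQ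
    clear_value Q
    field_simp
  simp_rw [h3] at h2
  rw [integral_const_mul, integral_complex_ofReal] at h2
  have h6 : ‖∫ y : ℝ, k y * Lap S F (x + y * I)‖ ≤
      Real.exp (1 + x * t) * B * (4 * ((2 * n).factorial * Real.exp 4) * (1 / (s:ℝ)) ^ (n + 1)) := by
    calc ‖∫ y : ℝ, k y * Lap S F (x + y * I)‖
        ≤ ∫ y : ℝ, (Real.exp (1 + x * t) * B) * (Real.exp (-s * y ^ 2 / 2) * (3 + |y|) ^ (2 * n)) := by
          refine norm_integral_le_of_norm_le ((gm_int hs0 hs1' n).const_mul _)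
            (Eventually.of_forall fun y => ?_)
          rw [norm_mul]
          have e1 : ‖k y‖ ≤ Real.exp (1 + x * t) * Real.exp (-s * y ^ 2 / 2) := by
            rw [hk]
            simp only
            rw [Complex.norm_exp, ← Real.exp_add]
            refine Real.exp_le_exp.2 ?_
            rw [Complex.add_re, re_quad]
            have e2 : (((x:ℂ) + y * I) * t).re = x * t := by simp
            have e3 : ((x:ℂ) + y * I).re = x := by simp
            have e4 : ((x:ℂ) + y * I).im = y := by simp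
            rw [e2, e3, e4]
            have hx2 : x ^ 2 ≤ 1 := by rw [← sq_abs]; nlinarith [abs_nonneg x]
            nlinarith
          calc ‖k y‖ * ‖Lap S F (x + y * I)‖
              ≤ (Real.exp (1 + x * t) * Real.exp (-s * y ^ 2 / 2)) * (B * (3 + |y|) ^ (2 * n)) :=
                mul_le_mul e1 (hB y) (norm_nonneg _) (by positivity)
            _ = _ := by ring
      _ = (Real.exp (1 + x * t) * B) * ∫ y : ℝ, Real.exp (-s * y ^ 2 / 2) * (3 + |y|) ^ (2 * n) := by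
          rw [integral_const_mul]
      _ ≤ _ := mul_le_mul_of_nonneg_left (gm hs0 hs1' n) (by positivity)
  rw [← h2, norm_mul, Complex.norm_real, Complex.norm_real, Real.norm_eq_abs, Real.norm_eq_abs,
    abs_of_pos (by positivity)] at h6
  have h7 : (4:ℝ) ≤ 2 * Real.pi := by linarith [Real.pi_gt_three]
  have h8 : 4 * |∫ w in S, F w * gd s (t - w)| ≤ Real.exp (1 + x * t) * B *
      (4 * ((2 * n).factorial * Real.exp 4) * (1 / (s:ℝ)) ^ (n + 1)) :=
    (mul_le_mul_of_nonneg_right h7 (abs_nonneg _)).trans h6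
  have h9 : Real.exp 5 = Real.exp 4 * Real.exp 1 := by rw [← Real.exp_add]; norm_num
  rw [Real.exp_add] at h8
  rw [h9]
  nlinarith

end Pool.Agent.V8H22.OSC
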