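import Pool.Agent.V8H22.OSC.C2

/-!
# The smoothing step and the pigeonhole argument
-/

set_option autoImplicit false

open MeasureTheory ProbabilityTheory Complex Set Filter Topology
open scoped NNReal ENNReal

namespace Pool.Agent.V8H22.OSC

lemma exp_abs_int {b : ℝ} (hb : 0 < b) : Integrable (fun t : ℝ => Real.exp (-b * |t|)) := by
  rw [← integrableOn_univ, ← Iic_union_Ioi (a := (0:ℝ))]
  refine IntegrableOn.union ?_ ?_
  · refine (exp_integrableOn_Iic hb).congr_fun (fun t ht => ?_) measurableSet_Iic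
    simp only
    rw [abs_of_nonpos (a := t) ht]; ring_nf
  · refine (exp_neg_integrableOn_Ioi 0 hb).congr_fun (fun t ht => ?_) measurableSet_Ioi
    simp only
    rw [abs_of_pos (a := t) ht]

lemma exp_abs_integral {b : ℝ} (hb : 0 < b) : ∫ t : ℝ, Real.exp (-b * |t|) = 2 / b := by
  have h := integral_comp_abs (f := fun t => Real.exp (-b * t))
  rw [h, integral_exp_mul_Ioi (by linarith)]
  simp
  ring

/-- exponential majorant of the Gaussian density -/
lemma gd_le {s : ℝ≥0} (hs : s ≠ 0) (x σ : ℝ) :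
    gd s σ ≤ (√(2 * Real.pi * s))⁻¹ * Real.exp (s * x ^ 2 / 2 + x * σ) := by
  have hs0 : (0:ℝ) < s := by positivity
  rw [gd_eq]
  refine mul_le_mul_of_nonneg_left (Real.exp_le_exp.2 ?_) (by positivity)
  rw [div_le_iff₀ (by positivity)]
  nlinarith [sq_nonneg (σ + s * x)]

lemma gd_small {s : ℝ≥0} (hs : s ≠ 0) (hs1 : s ≤ 1) {τ σ w : ℝ} (hτ : τ ≤ 1 / 4)
    (h1 : 1 ≤ σ) (hw : |w| ≤ σ) : gd s σ ≤ (1 / (s:ℝ)) * Real.exp (-τ * |w|) := by
  have hs0 : (0:ℝ) < s := by positivity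
  have hs1' : (s:ℝ) ≤ 1 := by exact_mod_cast hs1
  rw [gd_eq]
  have e1 : (√(2 * Real.pi * s))⁻¹ ≤ 1 / s := by
    rw [← one_div]
    refine one_div_le_one_div_of_le hs0 (Real.le_sqrt_of_sq_le ?_)
    nlinarith [Real.pi_gt_three]
  refine mul_le_mul e1 (Real.exp_le_exp.2 ?_) (Real.exp_pos _).le (by positivity)
  rw [div_le_iff₀ (by positivity)]
  have h2 : τ * |w| * (2 * s) ≤ σ := by
    calc τ * |w| * (2 * s) ≤ 1 / 4 * σ * (2 * 1) := by gcongr
      _ ≤ σ := by linarith
  nlinarith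

namespace Dat

variable (d : Dat)

noncomputable def C3 : ℝ := (2 * d.m).factorial * Real.exp 5 * d.C2 + 1

lemma C3_pos : 0 < d.C3 := by
  have := d.C2_pos
  unfold C3
  positivity

variable {d} {θ s : ℝ≥0} {V : ℝ}

lemma conv_int {S : Set ℝ} {x : ℝ} (h : WI S (d.F θ V) x) (hs : s ≠ 0) (t : ℝ) :
    IntegrableOn (fun w => d.F θ V w * gd s (t - w)) S := by
  have h1 : IntegrableOn (fun w => ((√(2 * Real.pi * s))⁻¹ * Real.exp (s * x ^ 2 / 2 + x * t)) *
      (|d.F θ V w| * Real.exp (-x * w))) S := Integrable.const_mul h _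
  refine Integrable.mono' h1 ?_ (Eventually.of_forall fun w => ?_)
  · exact ((d.F_meas θ V).mul ((gd_meas s).comp (by fun_prop))).aestronglyMeasurable
  · rw [Real.norm_eq_abs, abs_mul, abs_of_nonneg (gd_nonneg s _)]
    calc |d.F θ V w| * gd s (t - w)
        ≤ |d.F θ V w| * ((√(2 * Real.pi * s))⁻¹ * Real.exp (s * x ^ 2 / 2 + x * (t - w))) :=
          mul_le_mul_of_nonneg_left (gd_le hs x _) (abs_nonneg _)
      _ = _ := by
          rw [show (s:ℝ) * x ^ 2 / 2 + x * (t - w) = (s * x ^ 2 / 2 + x * t) + -x * w by ring,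
            Real.exp_add (s * x ^ 2 / 2 + x * t)]
          ring

lemma conv_eq (hs : s ≠ 0) (t : ℝ) : d.F (θ + s) V t =
    (∫ w in Iic 0, d.F θ V w * gd s (t - w)) + ∫ w in Ioi 0, d.F θ V w * gd s (t - w) := by
  have hτ := d.hτ
  have h1 := sm_add (θ := θ) (s := s) d.fm d.fg (V + t)
  rw [gs_integral hs] at h1
  have h2 : d.F (θ + s) V t = ∫ w, d.F θ V w * gd s (t - w) := by
    unfold F
    rw [h1, ← integral_add_left_eq_self (μ := volume) (fun w => sm θ d.f (V + w) * gd s (t - w)) t]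
    refine integral_congr_ae (Eventually.of_forall fun u => ?_)
    simp only [smul_eq_mul]
    rw [show t - (t + u) = -u by ring, gd_neg, add_assoc, mul_comm]
  rw [h2]
  exact (intervalIntegral.integral_Iic_add_Ioi (conv_int (d.WIn θ V 0) hs t)
    (conv_int (d.WIp θ V (x := d.τ / 4) (by linarith)) hs t)).symm

/-- the trivial bound for the part far away -/
lemma far {S : Set ℝ} (hS : MeasurableSet S) (hs : s ≠ 0) (hs1 : s ≤ 1) (t : ℝ)
    (h : ∀ w ∈ S, 1 ≤ |t - w| ∧ |w| ≤ |t - w|) :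
    |∫ w in S, d.F θ V w * gd s (t - w)| ≤ (1 / (s:ℝ)) * d.J θ V := by
  have hτ := d.hτ
  have hτ1 := d.hτ1
  rw [← Real.norm_eq_abs]
  have h1 : ‖∫ w in S, d.F θ V w * gd s (t - w)‖ ≤
      ∫ w in S, (1 / (s:ℝ)) * (|d.F θ V w| * Real.exp (-d.τ * |w|)) := by
    refine norm_integral_le_of_norm_le ((d.J_int θ V).integrableOn.const_mul _) ?_
    refine (ae_restrict_iff' hS).2 (Eventually.of_forall fun w hw => ?_)
    obtain ⟨h3, h4⟩ := h w hw
    have e : gd s (t - w) = gd s |t - w| := by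
      rcases abs_cases (t - w) with ⟨h, _⟩ | ⟨h, _⟩
      · rw [h]
      · rw [h, gd_neg]
    rw [norm_mul, Real.norm_eq_abs, Real.norm_eq_abs, abs_of_nonneg (gd_nonneg s _), e]
    calc |d.F θ V w| * gd s |t - w| ≤ |d.F θ V w| * ((1 / (s:ℝ)) * Real.exp (-d.τ * |w|)) :=
          mul_le_mul_of_nonneg_left (gd_small hs hs1 hτ1 h3 h4) (abs_nonneg _)
      _ = _ := by ring
  refine h1.trans ?_
  rw [integral_const_mul]
  refine mul_le_mul_of_nonneg_left ?_ (by positivity)
  exact setIntegral_le_integral (d.J_int θ V) (Eventually.of_forall fun t => by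
    simp only [Pi.zero_apply]; positivity)

/-- the smoothing step, pointwise -/
lemma step (hθ : θ ≤ 1) (hV : 0 ≤ V) (hJ : Real.exp (1 - d.τ / 4 * V) ≤ d.J θ V) (hs : s ≠ 0)
    (hs1 : s ≤ 1) {t : ℝ} (ht : 1 ≤ |t|) :
    |d.F (θ + s) V t| ≤ d.C3 * (1 / (s:ℝ)) ^ (d.m + 1) * d.J θ V * Real.exp (d.τ / 4 * |t|) := by
  have hτ := d.hτ
  have hτ1 := d.hτ1
  have hs0 : (0:ℝ) < s := by positivity
  have hs1' : (s:ℝ) ≤ 1 := by exact_mod_cast hs1
  have hJ0 := d.J_nonneg θ V
  have hC2 := d.C2_pos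
  have e1 : 1 / (s:ℝ) ≤ (1 / (s:ℝ)) ^ (d.m + 1) :=
    le_self_pow₀ (by rw [one_div]; exact (one_le_inv₀ hs0).2 hs1') (by omega)
  have e2 : 1 ≤ Real.exp (d.τ / 4 * |t|) := Real.one_le_exp (by positivity)
  have hfar : (1 / (s:ℝ)) * d.J θ V ≤
      (1 / (s:ℝ)) ^ (d.m + 1) * d.J θ V * Real.exp (d.τ / 4 * |t|) := by
    calc (1 / (s:ℝ)) * d.J θ V ≤ (1 / (s:ℝ)) ^ (d.m + 1) * d.J θ V := by gcongr
      _ ≤ _ := le_mul_of_one_le_right (by positivity) e2
  rw [conv_eq hs t]
  refine (abs_add_le _ _).trans ?_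
  rcases le_abs.1 ht with h | h
  · have hf := far (d := d) (θ := θ) (V := V) (S := Iic 0) measurableSet_Iic hs hs1 t (fun w hw => by
      have := mem_Iic.1 hw
      rw [abs_of_pos (a := t - w) (by linarith), abs_of_nonpos (a := w) this]
      constructor <;> linarith)
    have hr := rep_bound (d.F_meas θ V) (x := d.τ / 4) (d.WIp θ V (by linarith)) hs hs1
      (by rw [abs_of_pos (by linarith)]; linarith) (B := d.C2 * d.J θ V) (n := d.m) t (fun y => by
        have := Lpb (d := d) (θ := θ) (V := V) hθ hV hJ (z := ((d.τ / 4 : ℝ) : ℂ) + y * I) (by simp)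
        simp only [add_im, ofReal_im, mul_im, ofReal_re, I_im, mul_one, I_re, mul_zero, add_zero,
          zero_add] at this
        refine this.trans (le_of_eq (by ring)))
    have e3 : Real.exp (d.τ / 4 * t) = Real.exp (d.τ / 4 * |t|) := by rw [abs_of_pos (by linarith)]
    rw [e3] at hr
    calc _ ≤ (1 / (s:ℝ)) * d.J θ V + (2 * d.m).factorial * Real.exp 5 * (d.C2 * d.J θ V) *
          (1 / (s:ℝ)) ^ (d.m + 1) * Real.exp (d.τ / 4 * |t|) := add_le_add hf hr
      _ ≤ (1 / (s:ℝ)) ^ (d.m + 1) * d.J θ V * Real.exp (d.τ / 4 * |t|) +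
          (2 * d.m).factorial * Real.exp 5 * (d.C2 * d.J θ V) *
          (1 / (s:ℝ)) ^ (d.m + 1) * Real.exp (d.τ / 4 * |t|) := by linarith
      _ = _ := by unfold C3; ring
  · have hf := far (d := d) (θ := θ) (V := V) (S := Ioi 0) measurableSet_Ioi hs hs1 t (fun w hw => by
      have := mem_Ioi.1 hw
      rw [abs_of_neg (a := t - w) (by linarith), abs_of_pos (a := w) this]
      constructor <;> linarith)
    have hr := rep_bound (d.F_meas θ V) (x := -(d.τ / 4)) (d.WIn θ V _) hs hs1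
      (by rw [abs_neg, abs_of_pos (by linarith)]; linarith) (B := d.C2 * d.J θ V) (n := d.m) t
      (fun y => by
        have := Lmb (d := d) (θ := θ) (V := V) hθ hV hJ (z := ((-(d.τ / 4) : ℝ) : ℂ) + y * I)
          (by simp)
        simp only [add_im, ofReal_im, mul_im, ofReal_re, I_im, mul_one, I_re, mul_zero, add_zero,
          zero_add] at this
        refine this.trans (le_of_eq (by ring)))
    have e3 : Real.exp (-(d.τ / 4) * t) = Real.exp (d.τ / 4 * |t|) := by
      rw [abs_of_neg (by linarith)]; ring_nf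
    rw [e3] at hr
    calc _ ≤ (2 * d.m).factorial * Real.exp 5 * (d.C2 * d.J θ V) *
          (1 / (s:ℝ)) ^ (d.m + 1) * Real.exp (d.τ / 4 * |t|) + (1 / (s:ℝ)) * d.J θ V :=
            add_le_add hr hf
      _ ≤ (2 * d.m).factorial * Real.exp 5 * (d.C2 * d.J θ V) *
          (1 / (s:ℝ)) ^ (d.m + 1) * Real.exp (d.τ / 4 * |t|) +
          (1 / (s:ℝ)) ^ (d.m + 1) * d.J θ V * Real.exp (d.τ / 4 * |t|) := by linarith
      _ = _ := by unfold C3; ring

variable (d θ V)

/-- the part of the weighted norm outside `[-R, R]` -/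
noncomputable def T (R : ℝ) : ℝ := ∫ t in {t : ℝ | R < |t|}, |d.F θ V t| * Real.exp (-d.τ * |t|)

variable {d θ V}

lemma meas_out (R : ℝ) : MeasurableSet {t : ℝ | R < |t|} :=
  measurableSet_lt measurable_const measurable_norm

/-- the smoothing step for the tails -/
lemma tail_step (hθ : θ ≤ 1) (hV : 0 ≤ V) (hJ : Real.exp (1 - d.τ / 4 * V) ≤ d.J θ V) (hs : s ≠ 0)
    (hs1 : s ≤ 1) {R : ℝ} (hR : 1 ≤ R) :
    d.T (θ + s) V R ≤ (d.C3 * (8 / d.τ)) * (1 / (s:ℝ)) ^ (d.m + 1) * Real.exp (-d.τ / 2 * R) *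
      d.J θ V := by
  have hτ := d.hτ
  have hJ0 := d.J_nonneg θ V
  have hC3 := d.C3_pos
  unfold T
  have hi : Integrable (fun t : ℝ => (d.C3 * (1 / (s:ℝ)) ^ (d.m + 1) * d.J θ V *
      Real.exp (-d.τ / 2 * R)) * Real.exp (-(d.τ / 4) * |t|)) :=
    (exp_abs_int (by linarith)).const_mul _
  calc ∫ t in {t : ℝ | R < |t|}, |d.F (θ + s) V t| * Real.exp (-d.τ * |t|)
      ≤ ∫ t in {t : ℝ | R < |t|}, (d.C3 * (1 / (s:ℝ)) ^ (d.m + 1) * d.J θ V *
        Real.exp (-d.τ / 2 * R)) * Real.exp (-(d.τ / 4) * |t|) := by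
        refine setIntegral_mono_on (d.J_int _ _).integrableOn hi.integrableOn (meas_out R)
          fun t ht => ?_
        have ht' : R < |t| := ht
        have h1 := step (d := d) (θ := θ) (V := V) (s := s) hθ hV hJ hs hs1 (t := t) (by linarith)
        calc |d.F (θ + s) V t| * Real.exp (-d.τ * |t|)
            ≤ (d.C3 * (1 / (s:ℝ)) ^ (d.m + 1) * d.J θ V * Real.exp (d.τ / 4 * |t|)) *
              Real.exp (-d.τ * |t|) := mul_le_mul_of_nonneg_right h1 (Real.exp_pos _).le
          _ = (d.C3 * (1 / (s:ℝ)) ^ (d.m + 1) * d.J θ V) *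
              Real.exp (d.τ / 4 * |t| + -d.τ * |t|) := by rw [Real.exp_add]; ring
          _ ≤ (d.C3 * (1 / (s:ℝ)) ^ (d.m + 1) * d.J θ V) *
              Real.exp (-d.τ / 2 * R + -(d.τ / 4) * |t|) :=
              mul_le_mul_of_nonneg_left (Real.exp_le_exp.2 (by nlinarith)) (by positivity)
          _ = _ := by rw [Real.exp_add]; ring
    _ ≤ ∫ t : ℝ, (d.C3 * (1 / (s:ℝ)) ^ (d.m + 1) * d.J θ V *
        Real.exp (-d.τ / 2 * R)) * Real.exp (-(d.τ / 4) * |t|) :=
        setIntegral_le_integral hi (Eventually.of_forall fun t => by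
          simp only [Pi.zero_apply]; positivity)
    _ = _ := by
        rw [integral_const_mul, exp_abs_integral (by linarith)]
        field_simp
        ring

/-- trivial bound for the unsmoothed norm -/
lemma J_zero_le : d.J 0 V ≤ (4 * d.K / d.τ) * Real.exp (d.τ / 8 * V) := by
  have hτ := d.hτ
  have hK := d.hK
  unfold J
  have hi : Integrable (fun t : ℝ => (d.K * Real.exp (d.τ / 8 * V)) *
      Real.exp (-(d.τ / 2) * |t|)) := (exp_abs_int (by linarith)).const_mul _
  calc ∫ t, |d.F 0 V t| * Real.exp (-d.τ * |t|)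
      ≤ ∫ t, (d.K * Real.exp (d.τ / 8 * V)) * Real.exp (-(d.τ / 2) * |t|) := by
        refine integral_mono (d.J_int 0 V) hi fun t => ?_
        have h1 := d.F_bd 0 V (le_refl (d.τ / 8)) t
        simp only [NNReal.coe_zero, zero_mul, zero_div, add_zero] at h1
        calc |d.F 0 V t| * Real.exp (-d.τ * |t|)
            ≤ (d.K * Real.exp (d.τ / 8 * V) * Real.exp (d.τ / 8 * t)) * Real.exp (-d.τ * |t|) :=
              mul_le_mul_of_nonneg_right h1 (Real.exp_pos _).le
          _ = (d.K * Real.exp (d.τ / 8 * V)) * Real.exp (d.τ / 8 * t + -d.τ * |t|) := by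
              rw [Real.exp_add]; ring
          _ ≤ _ := by
              gcongr
              have := le_abs_self t
              nlinarith [abs_nonneg t]
    _ = _ := by
        rw [integral_const_mul, exp_abs_integral (by linarith)]
        field_simp
        ring

end Dat

end Pool.Agent.V8H22.OSC
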