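import Pool.Agent.V8H22.OSC.C3

/-!
# The pigeonhole argument
-/

set_option autoImplicit false

open MeasureTheory ProbabilityTheory Complex Set Filter Topology
open scoped NNReal ENNReal

namespace Pool.Agent.V8H22.OSC

namespace Dat

lemma exp_log_pow {V : ℝ} (hV : 0 < V) (n : ℕ) :
    Real.exp (-(n * Real.log V)) = (1 / V) ^ n := by
  rw [Real.exp_neg, Real.exp_nat_mul, Real.exp_log hV, one_div, inv_pow]

/-- For some smoothing parameter `θ ≤ 1/(8V)` the part of the weighted norm outside `[-R₀ log V, R₀ log V]` is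
negligible. -/
theorem pigeon (d : Dat) (B : ℕ) : ∃ R0 : ℝ, 0 < R0 ∧ ∃ V2 : ℝ, ∀ V, V2 ≤ V → ∃ θ : ℝ≥0,
    (θ : ℝ) ≤ 1 / (8 * V) ∧ d.T θ V (R0 * Real.log V) ≤ (1 / V) ^ B * d.J θ V := by
  have hτ := d.hτ
  have hτ1 := d.hτ1
  have hK := d.hK
  have hC3 := d.C3_pos
  obtain ⟨c, hc, V1, hV1, hb⟩ := d.base
  set p : ℝ := (d.C3 * (8 / d.τ)) * 16 ^ (d.m + 1) with hp
  have hp0 : 0 < p := by positivity
  set R0 : ℝ := 2 * ((B + 2 * d.m + 3 : ℕ) : ℝ) / d.τ with hR0
  have hR0p : 0 < R0 := by positivity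
  refine ⟨R0, hR0p, ?_⟩
  have ev1 : ∀ᶠ V : ℝ in atTop, 1 ≤ R0 * Real.log V :=
    (Real.tendsto_log_atTop.const_mul_atTop hR0p).eventually_ge_atTop 1
  have ev2 : ∀ᶠ V : ℝ in atTop, (4 * d.K / d.τ) * Real.exp (-(V / 2)) < c := by
    have h1 : Tendsto (fun V : ℝ => (4 * d.K / d.τ) * Real.exp (-(V / 2))) atTop
        (𝓝 ((4 * d.K / d.τ) * 0)) := by
      refine Tendsto.const_mul _ (Real.tendsto_exp_neg_atTop_nhds_zero.comp ?_)
      exact tendsto_id.atTop_div_const (by norm_num)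
    rw [mul_zero] at h1
    exact h1.eventually (gt_mem_nhds hc)
  obtain ⟨V2, hV2⟩ := eventually_atTop.1 (ev1.and (ev2.and ((eventually_ge_atTop V1).and
    (eventually_ge_atTop (p * Real.exp 1)))))
  refine ⟨V2, fun V hV => ?_⟩
  obtain ⟨g1, g2, g3, g4⟩ := hV2 V hV
  have hV1' : 1 ≤ V := hV1.trans g3
  have hV0 : 0 < V := by linarith
  by_contra hcon
  push Not at hcon
  set N : ℕ := ⌊V⌋₊ + 1 with hN
  have hN0 : (0:ℝ) < N := by rw [hN]; positivity
  have hN1 : V ≤ N := by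
    rw [hN]; push_cast; exact (Nat.lt_floor_add_one V).le
  have hN2 : (N:ℝ) ≤ 2 * V := by
    rw [hN]; push_cast; have := Nat.floor_le hV0.le; linarith
  set s : ℝ≥0 := ⟨1 / (8 * V * N), by positivity⟩ with hs
  have hsr : (s:ℝ) = 1 / (8 * V * N) := rfl
  have hs0 : (0:ℝ) < s := by rw [hsr]; positivity
  have hsne : s ≠ 0 := by
    intro h
    rw [h] at hs0
    simp at hs0
  have hs1 : s ≤ 1 := by
    have : (s:ℝ) ≤ 1 := by
      rw [hsr, div_le_one (by positivity)]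
      nlinarith
    exact_mod_cast this
  have hinv : 1 / (s:ℝ) ≤ 16 * V ^ 2 := by
    rw [hsr, one_div_one_div]
    nlinarith
  have hsmall : ∀ j : ℕ, j ≤ N → (((j : ℝ≥0) * s : ℝ≥0) : ℝ) ≤ 1 / (8 * V) := by
    intro j hj
    have h1 : (j:ℝ) ≤ N := by exact_mod_cast hj
    push_cast
    rw [hsr]
    calc (j:ℝ) * (1 / (8 * V * N)) ≤ N * (1 / (8 * V * N)) := by gcongr
      _ = 1 / (8 * V) := by field_simp
  have hsmall1 : ∀ j : ℕ, j ≤ N → ((j : ℝ≥0) * s : ℝ≥0) ≤ 1 := by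
    intro j hj
    have h1 := hsmall j hj
    have h2 : 1 / (8 * V) ≤ 1 := by
      rw [div_le_one (by positivity)]; linarith
    have h3 : (((j : ℝ≥0) * s : ℝ≥0) : ℝ) ≤ 1 := h1.trans h2
    exact_mod_cast h3
  have key : ∀ j : ℕ, j ≤ N → d.J ((j : ℝ≥0) * s) V ≤ Real.exp (-(j:ℝ)) * d.J 0 V := by
    intro j
    induction j with
    | zero => intro _; simp
    | succ j ih =>
      intro hj
      have hj' : j ≤ N := by omega
      have h1 := ih hj'
      have hθ := hsmall1 j hj'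
      obtain ⟨hb1, hb2⟩ := hb V g3 _ hθ
      have e : ((j : ℝ≥0) * s + s : ℝ≥0) = ((j + 1 : ℕ) : ℝ≥0) * s := by push_cast; ring
      have h2 := tail_step (d := d) (θ := (j : ℝ≥0) * s) (V := V) (s := s) hθ hV0.le hb2 hsne hs1 g1
      rw [e] at h2
      have h3 := hcon (((j + 1 : ℕ) : ℝ≥0) * s) (hsmall (j + 1) hj)
      have hJ0 := d.J_nonneg ((j : ℝ≥0) * s) V
      have e3 : Real.exp (-d.τ / 2 * (R0 * Real.log V)) = (1 / V) ^ (B + 2 * d.m + 3) := by
        rw [← exp_log_pow hV0, hR0]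
        congr 1
        field_simp
      rw [e3] at h2
      have h4 : (1 / V) ^ B * d.J (((j + 1 : ℕ) : ℝ≥0) * s) V ≤
          (1 / V) ^ B * (Real.exp (-1) * d.J ((j : ℝ≥0) * s) V) := by
        refine h3.le.trans (h2.trans ?_)
        calc (d.C3 * (8 / d.τ)) * (1 / (s:ℝ)) ^ (d.m + 1) * (1 / V) ^ (B + 2 * d.m + 3) *
              d.J ((j : ℝ≥0) * s) V
            ≤ (d.C3 * (8 / d.τ)) * (16 * V ^ 2) ^ (d.m + 1) * (1 / V) ^ (B + 2 * d.m + 3) *
              d.J ((j : ℝ≥0) * s) V := by gcongr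
          _ = (1 / V) ^ B * ((p * (1 / V)) * d.J ((j : ℝ≥0) * s) V) := by
              rw [mul_pow, hp, show B + 2 * d.m + 3 = B + (2 * (d.m + 1)) + 1 by ring, pow_add, pow_add,
                ← pow_mul V 2]
              have : V ^ (2 * (d.m + 1)) * (1 / V) ^ (2 * (d.m + 1)) = 1 := by
                rw [← mul_pow, mul_one_div_cancel hV0.ne', one_pow]
              linear_combination (d.C3 * (8 / d.τ) * 16 ^ (d.m + 1) * (1 / V) ^ B * (1 / V) ^ 1 *
                d.J ((j : ℝ≥0) * s) V) * this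
          _ ≤ (1 / V) ^ B * (Real.exp (-1) * d.J ((j : ℝ≥0) * s) V) := by
              gcongr
              rw [mul_one_div, div_le_iff₀ hV0, Real.exp_neg, inv_mul_eq_div,
                le_div_iff₀ (Real.exp_pos _)]
              exact g4
      have h5 : d.J (((j + 1 : ℕ) : ℝ≥0) * s) V ≤ Real.exp (-1) * d.J ((j : ℝ≥0) * s) V :=
        le_of_mul_le_mul_left h4 (by positivity)
      calc d.J (((j + 1 : ℕ) : ℝ≥0) * s) V ≤ Real.exp (-1) * d.J ((j : ℝ≥0) * s) V := h5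
        _ ≤ Real.exp (-1) * (Real.exp (-(j:ℝ)) * d.J 0 V) := by gcongr
        _ = _ := by
          rw [← mul_assoc, ← Real.exp_add]
          push_cast
          ring_nf
  have hfin := key N le_rfl
  have hθN := hsmall1 N le_rfl
  have hlow := (hb V g3 _ hθN).1
  have h0 := J_zero_le (d := d) (V := V)
  have : d.J ((N : ℝ≥0) * s) V < c := by
    calc d.J ((N : ℝ≥0) * s) V ≤ Real.exp (-(N:ℝ)) * d.J 0 V := hfin
      _ ≤ Real.exp (-V) * ((4 * d.K / d.τ) * Real.exp (d.τ / 8 * V)) := by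
          refine mul_le_mul (Real.exp_le_exp.2 (by linarith)) h0 (d.J_nonneg _ _) (Real.exp_pos _).le
      _ = (4 * d.K / d.τ) * Real.exp (-V + d.τ / 8 * V) := by rw [Real.exp_add]; ring
      _ ≤ (4 * d.K / d.τ) * Real.exp (-(V / 2)) := by
          refine mul_le_mul_of_nonneg_left (Real.exp_le_exp.2 (by nlinarith)) (by positivity)
      _ < c := g2
  linarith

end Dat

end Pool.Agent.V8H22.OSC
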