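import Pool.Agent.V8H22.OSC.C4

/-!
# The positive test function `w = exp(-τ|·|) * gaussian`
-/

set_option autoImplicit false

open MeasureTheory ProbabilityTheory Complex Set Filter Topology
open scoped NNReal ENNReal

namespace Pool.Agent.V8H22.OSC

/-- `exp(-τ|t|)` -/
noncomputable def ek (τ : ℝ) (t : ℝ) : ℝ := Real.exp (-τ * |t|)

lemma ek_meas (τ : ℝ) : Measurable (ek τ) := by unfold ek; fun_prop

/-- its Laplace transform -/
noncomputable def P (τ : ℝ) (z : ℂ) : ℂ := Lap univ (ek τ) z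

lemma ek_le (τ x t : ℝ) : |ek τ t| * Real.exp (-x * t) ≤ Real.exp (-(τ - |x|) * |t|) := by
  unfold ek
  rw [abs_of_pos (Real.exp_pos _), ← Real.exp_add]
  refine Real.exp_le_exp.2 ?_
  have : -x * t ≤ |x| * |t| := by
    calc -x * t ≤ |-x * t| := le_abs_self _
      _ = |x| * |t| := by rw [abs_mul, abs_neg]
  linarith

lemma ek_WI {τ x : ℝ} (hx : |x| < τ) : WI univ (ek τ) x := by
  unfold WI
  rw [integrableOn_univ]
  refine (exp_abs_int (b := τ - |x|) (by linarith)).mono' ?_ (Eventually.of_forall fun t => ?_)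
  · exact ((ek_meas τ).abs.mul (by fun_prop)).aestronglyMeasurable
  · rw [Real.norm_eq_abs, abs_of_nonneg (by positivity)]
    exact ek_le τ x t

lemma P_norm {τ : ℝ} {z : ℂ} (hz : |z.re| < τ) : ‖P τ z‖ ≤ 2 / (τ - |z.re|) := by
  refine (Lap_norm z).trans ?_
  rw [setIntegral_univ, ← exp_abs_integral (b := τ - |z.re|) (by linarith)]
  refine integral_mono ?_ (exp_abs_int (by linarith)) fun t => ek_le τ z.re t
  have := ek_WI hz
  unfold WI at this
  rwa [integrableOn_univ] at this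

lemma P_diffAt {τ : ℝ} {z : ℂ} (hz : |z.re| < τ) : DifferentiableAt ℂ (P τ) z :=
  Lap_diffAt (ek_meas τ) (a := -τ) (b := τ) (fun _ h1 h2 => ek_WI (abs_lt.2 ⟨h1, h2⟩))
    (abs_lt.1 hz).1 (abs_lt.1 hz).2

/-- the Laplace transform of the test function -/
noncomputable def q (τ : ℝ) (r : ℝ≥0) (z : ℂ) : ℂ := cexp (r * z ^ 2 / 2) * P τ z

lemma q_diffAt {τ : ℝ} {r : ℝ≥0} {z : ℂ} (hz : |z.re| < τ) : DifferentiableAt ℂ (q τ r) z := by
  have := P_diffAt hz
  unfold q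
  fun_prop

lemma q_norm {τ : ℝ} {r : ℝ≥0} {z : ℂ} (hz : |z.re| ≤ τ / 4) (hτ : 0 < τ) :
    ‖q τ r z‖ ≤ Real.exp (r * (z.re ^ 2 - z.im ^ 2) / 2) * (4 / τ) := by
  unfold q
  rw [norm_mul, Complex.norm_exp, re_quad]
  refine mul_le_mul_of_nonneg_left ((P_norm (by linarith)).trans ?_) (Real.exp_pos _).le
  rw [div_le_div_iff₀ (by linarith) hτ]
  nlinarith

/-- the test function -/
noncomputable def w (τ : ℝ) (r : ℝ≥0) (t : ℝ) : ℝ := ∫ s, ek τ (t - s) ∂gs r

lemma w_meas (τ : ℝ) (r : ℝ≥0) : Measurable (w τ r) := by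
  have h : StronglyMeasurable (fun p : ℝ × ℝ => ek τ (p.1 - p.2)) :=
    ((ek_meas τ).comp (measurable_fst.sub measurable_snd)).stronglyMeasurable
  exact (h.integral_prod_right (ν := gs r)).measurable

lemma ek_le_one {τ : ℝ} (hτ : 0 < τ) (t : ℝ) : ek τ t ≤ 1 := by
  unfold ek
  rw [← Real.exp_zero]
  refine Real.exp_le_exp.2 ?_
  have := abs_nonneg t
  nlinarith

lemma ek_shift_int {τ : ℝ} (hτ : 0 < τ) (r : ℝ≥0) (t : ℝ) :
    Integrable (fun s => ek τ (t - s)) (gs r) := by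
  refine (integrable_const (1:ℝ)).mono' ((ek_meas τ).comp (by fun_prop)).aestronglyMeasurable
    (Eventually.of_forall fun s => ?_)
  rw [Real.norm_eq_abs, abs_of_pos (show 0 < ek τ (t - s) from Real.exp_pos _)]
  exact ek_le_one hτ _

lemma w_nonneg (τ : ℝ) (r : ℝ≥0) (t : ℝ) : 0 ≤ w τ r t :=
  integral_nonneg fun _ => (Real.exp_pos _).le

lemma w_le {τ : ℝ} (hτ : 0 < τ) (r : ℝ≥0) (t : ℝ) :
    w τ r t ≤ 2 * Real.exp (r * τ ^ 2 / 2) * Real.exp (-τ * |t|) := by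
  unfold w
  calc ∫ s, ek τ (t - s) ∂gs r ≤ ∫ s, Real.exp (-τ * |t|) * Real.exp (τ * |s|) ∂gs r := by
        refine integral_mono (ek_shift_int hτ r t) ((gs_exp_abs_int r τ).const_mul _) fun s => ?_
        simp only
        unfold ek
        rw [← Real.exp_add]
        refine Real.exp_le_exp.2 ?_
        have := abs_sub_abs_le_abs_sub t s
        nlinarith
    _ = Real.exp (-τ * |t|) * ∫ s, Real.exp (τ * |s|) ∂gs r := integral_const_mul _ _
    _ ≤ Real.exp (-τ * |t|) * (2 * Real.exp (r * τ ^ 2 / 2)) :=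
        mul_le_mul_of_nonneg_left (gs_exp_abs r τ) (Real.exp_pos _).le
    _ = _ := by ring

lemma w_ge {τ : ℝ} (hτ : 0 < τ) (r : ℝ≥0) (t : ℝ) :
    Real.exp (-τ * |t|) ≤ 2 * Real.exp (r * τ ^ 2 / 2) * w τ r t := by
  have h1 : Real.exp (-τ * |t|) * ∫ s, Real.exp (-τ * |s|) ∂gs r ≤ w τ r t := by
    unfold w
    rw [← integral_const_mul]
    refine integral_mono ((gs_exp_abs_int r (-τ)).const_mul _) (ek_shift_int hτ r t) fun s => ?_
    simp only
    unfold ek
    rw [← Real.exp_add]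
    refine Real.exp_le_exp.2 ?_
    have := abs_sub t s
    nlinarith
  have h2 := gs_exp_neg_abs r τ
  calc Real.exp (-τ * |t|) ≤ Real.exp (-τ * |t|) *
        (2 * Real.exp (r * τ ^ 2 / 2) * ∫ s, Real.exp (-τ * |s|) ∂gs r) :=
        le_mul_of_one_le_right (Real.exp_pos _).le h2
    _ = 2 * Real.exp (r * τ ^ 2 / 2) * (Real.exp (-τ * |t|) * ∫ s, Real.exp (-τ * |s|) ∂gs r) := by
        ring
    _ ≤ _ := mul_le_mul_of_nonneg_left h1 (by positivity)

lemma w_int {τ : ℝ} (hτ : 0 < τ) (r : ℝ≥0) : Integrable (w τ r) := by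
  refine ((exp_abs_int hτ).const_mul (2 * Real.exp (r * τ ^ 2 / 2))).mono'
    (w_meas τ r).aestronglyMeasurable (Eventually.of_forall fun t => ?_)
  rw [Real.norm_eq_abs, abs_of_nonneg (w_nonneg τ r t)]
  exact w_le hτ r t

lemma w_integral {τ : ℝ} (hτ : 0 < τ) (r : ℝ≥0) : ∫ t, w τ r t = 2 / τ := by
  have hint : Integrable (fun p : ℝ × ℝ => ek τ (p.1 - p.2)) (volume.prod (gs r)) := by
    have h1 : Integrable (fun p : ℝ × ℝ => Real.exp (-τ * |p.1|) * Real.exp (τ * |p.2|))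
        (volume.prod (gs r)) := (exp_abs_int hτ).mul_prod (gs_exp_abs_int r τ)
    refine h1.mono' ((ek_meas τ).comp (by fun_prop)).aestronglyMeasurable
      (Eventually.of_forall fun p => ?_)
    unfold ek
    rw [Real.norm_eq_abs, abs_of_pos (Real.exp_pos _), ← Real.exp_add]
    refine Real.exp_le_exp.2 ?_
    have := abs_sub_abs_le_abs_sub p.1 p.2
    nlinarith
  have h2 := integral_integral_swap (f := fun (t s : ℝ) => ek τ (t - s)) hint
  unfold w
  rw [h2]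
  have h3 : ∀ s : ℝ, ∫ t, ek τ (t - s) = 2 / τ := by
    intro s
    rw [integral_sub_right_eq_self (μ := volume) (ek τ) s]
    exact exp_abs_integral hτ
  simp_rw [h3]
  simp

lemma line_re (x y : ℝ) : ((x:ℂ) + y * I).re = x := by simp
lemma line_im (x y : ℝ) : ((x:ℂ) + y * I).im = y := by simp

lemma q_line_cont {τ : ℝ} {r : ℝ≥0} {x : ℝ} (hx : |x| < τ) :
    Continuous (fun y : ℝ => q τ r (x + y * I)) := by
  rw [continuous_iff_continuousAt]
  intro y
  have h1 : ContinuousAt (q τ r) ((x:ℂ) + y * I) :=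
    (q_diffAt (by rw [line_re]; exact hx)).continuousAt
  exact ContinuousAt.comp (f := fun y : ℝ => (x:ℂ) + y * I) h1 (by fun_prop)

lemma q_int {τ : ℝ} (hτ : 0 < τ) {r : ℝ≥0} (hr : r ≠ 0) {x : ℝ} (hx : |x| ≤ τ / 4) :
    Integrable (fun y : ℝ => q τ r (x + y * I)) := by
  have hr0 : (0:ℝ) < r := by positivity
  refine ((integrable_exp_neg_mul_sq (b := r / 2) (by linarith)).const_mul
    (Real.exp (r * x ^ 2 / 2) * (4 / τ))).mono' (q_line_cont (by linarith)).aestronglyMeasurable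
    (Eventually.of_forall fun y => ?_)
  have h1 := q_norm (r := r) (z := (x:ℂ) + y * I) (by rw [line_re]; exact hx) hτ
  rw [line_re, line_im] at h1
  refine h1.trans (le_of_eq ?_)
  rw [show (r:ℝ) * (x ^ 2 - y ^ 2) / 2 = r * x ^ 2 / 2 + -(r / 2) * y ^ 2 by ring, Real.exp_add]
  ring

lemma w_rep {τ : ℝ} (hτ : 0 < τ) {r : ℝ≥0} (hr : r ≠ 0) {x : ℝ} (hx : |x| ≤ τ / 4) (t : ℝ) :
    ((2 * Real.pi : ℝ) : ℂ) * ((w τ r t : ℝ) : ℂ) =
      ∫ y : ℝ, q τ r (x + y * I) * cexp (-(x + y * I) * t) := by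
  have h1 : w τ r t = ∫ p : ℝ, ek τ p * gd r (t + p) := by
    unfold w
    rw [gs_integral hr, ← integral_add_left_eq_self (μ := volume) _ t]
    refine integral_congr_ae (Eventually.of_forall fun p => ?_)
    simp only [smul_eq_mul]
    rw [show t - (t + p) = -p by ring]
    unfold ek
    rw [abs_neg, mul_comm]
  set k : ℝ → ℂ := fun y => cexp (r * ((x:ℂ) + y * I) ^ 2 / 2 + ((x:ℂ) + y * I) * ((-t : ℝ) : ℂ))
    with hk
  have hki : Integrable k := rep_int hr x (-t)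
  obtain ⟨_, h2⟩ := Lap_swap (ek_meas τ) (ek_WI (τ := τ) (x := x) (by linarith)) hki
  have h3 : ∀ p : ℝ, ((ek τ p : ℝ) : ℂ) * (∫ y : ℝ, k y * cexp (-(x + y * I) * p)) =
      (2 * Real.pi : ℝ) * ((ek τ p * gd r (t + p) : ℝ) : ℂ) := by
    intro p
    have h4 := gd_rep hr x (-t - p)
    rw [show -t - p = -(t + p) by ring, gd_neg] at h4
    have h5 : ∀ y : ℝ, k y * cexp (-(x + y * I) * p) =
        cexp (r * ((x:ℂ) + y * I) ^ 2 / 2 + ((x:ℂ) + y * I) * ((-(t + p) : ℝ) : ℂ)) := by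
      intro y
      rw [hk, ← Complex.exp_add]
      congr 1
      push_cast
      ring
    simp_rw [h5]
    push_cast at h4 ⊢
    rw [h4]
    have : (Real.pi : ℂ) ≠ 0 := by exact_mod_cast Real.pi_ne_zero
    set Q := ∫ y : ℝ, cexp (r * ((x:ℂ) + y * I) ^ 2 / 2 + ((x:ℂ) + y * I) * (-((t:ℂ) + p))) with hQ
    clear_value Q
    field_simp
  simp_rw [h3] at h2
  rw [integral_const_mul, integral_complex_ofReal, setIntegral_univ, ← h1] at h2
  rw [h2]
  refine integral_congr_ae (Eventually.of_forall fun y => ?_)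
  simp only [hk, q]
  rw [Complex.exp_add]
  have : cexp (((x:ℂ) + y * I) * ((-t : ℝ) : ℂ)) = cexp (-(x + y * I) * t) := by
    congr 1; push_cast; ring
  rw [this]
  unfold P
  ring

/-- pairing with the test function -/
lemma w_pair {τ : ℝ} (hτ : 0 < τ) {r : ℝ≥0} (hr : r ≠ 0) {x : ℝ} (hx : |x| ≤ τ / 4) {S : Set ℝ}
    {F : ℝ → ℝ} (hF : Measurable F) (h : WI S F x) :
    Integrable (fun y : ℝ => q τ r (x + y * I) * Lap S F (x + y * I)) ∧
    ((2 * Real.pi : ℝ) : ℂ) * ((∫ t in S, F t * w τ r t : ℝ) : ℂ) =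
      ∫ y : ℝ, q τ r (x + y * I) * Lap S F (x + y * I) := by
  obtain ⟨h1, h2⟩ := Lap_swap hF h (q_int hτ hr hx)
  refine ⟨h1, ?_⟩
  rw [← h2, ← integral_complex_ofReal, ← integral_const_mul]
  refine integral_congr_ae (Eventually.of_forall fun t => ?_)
  simp only
  rw [← w_rep hτ hr hx t]
  push_cast
  ring

end Pool.Agent.V8H22.OSC
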