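import Pool.Agent.V8H22.OSC.C5

/-!
# The smoothed function is nearly orthogonal to the test function
-/

set_option autoImplicit false

open MeasureTheory ProbabilityTheory Complex Set Filter Topology
open scoped NNReal ENNReal

namespace Pool.Agent.V8H22.OSC

namespace Dat

variable {d : Dat} {θ r : ℝ≥0} {V : ℝ}

/-- the function to which Cauchy's theorem is applied -/
noncomputable def Ps (d : Dat) (θ r : ℝ≥0) (V : ℝ) (z : ℂ) : ℂ := q d.τ r z * d.H θ V z / d.D z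

lemma D_ne {z : ℂ} (h1 : |z.re| ≤ d.τ / 4) (h2 : |z.im| ≤ d.δ) : d.D z ≠ 0 := by
  intro h
  have := d.Dbox z h1 h2
  rw [h, norm_zero, mul_zero] at this
  linarith

lemma Ps_diffAt {z : ℂ} (h1 : |z.re| ≤ d.τ / 4) (h2 : |z.im| ≤ d.δ) :
    DifferentiableAt ℂ (d.Ps θ r V) z := by
  have hτ := d.hτ
  have h3 : |z.re| < 2 * d.τ := by linarith
  exact ((q_diffAt (by linarith)).mul (d.H_diffAt θ V h3)).div (d.Dd z h3) (D_ne h1 h2)

lemma Ps_norm (hθ : θ ≤ 1) (hV : 0 ≤ V) (hJ : Real.exp (1 - d.τ / 4 * V) ≤ d.J θ V) {z : ℂ}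
    (h1 : |z.re| ≤ d.τ / 4) (h2 : |z.im| = d.δ) :
    ‖d.Ps θ r V z‖ ≤ (4 / d.τ) * (d.C1 * (3 + d.δ) ^ d.m * d.K) *
      (Real.exp (-(r * d.δ ^ 2 / 8)) * d.J θ V) := by
  have hτ := d.hτ
  have hδ := d.hτδ
  have hK := d.hK
  have hJ0 := d.J_nonneg θ V
  have hC1 := d.C1_nonneg
  have hH := Hb (d := d) hθ hV hJ (z := z) (by linarith)
  have hq := q_norm (r := r) h1 hτ
  have hD := d.Dbox z h1 h2.le
  have hDp : 0 < ‖d.D z‖ := norm_pos_iff.2 (D_ne h1 h2.le)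
  have hr : (0:ℝ) ≤ r := r.2
  have e1 : Real.exp (r * (z.re ^ 2 - z.im ^ 2) / 2) ≤ Real.exp (-(r * d.δ ^ 2 / 8)) := by
    refine Real.exp_le_exp.2 ?_
    have h3 : z.re ^ 2 ≤ (d.δ / 16) ^ 2 := by
      rw [← sq_abs]
      exact pow_le_pow_left₀ (abs_nonneg _) (by linarith) 2
    have h4 : z.im ^ 2 = d.δ ^ 2 := by rw [← sq_abs, h2]
    rw [h4]
    have : z.re ^ 2 - d.δ ^ 2 ≤ -(d.δ ^ 2 / 4) := by nlinarith [sq_nonneg d.δ]
    nlinarith
  unfold Ps
  rw [norm_div, norm_mul, div_le_iff₀ hDp]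
  rw [h2] at hH
  calc ‖q d.τ r z‖ * ‖d.H θ V z‖
      ≤ (Real.exp (-(r * d.δ ^ 2 / 8)) * (4 / d.τ)) * (d.C1 * (3 + d.δ) ^ d.m * d.J θ V) := by
        refine mul_le_mul (hq.trans ?_) hH (norm_nonneg _) (by positivity)
        exact mul_le_mul_of_nonneg_right e1 (by positivity)
    _ ≤ (Real.exp (-(r * d.δ ^ 2 / 8)) * (4 / d.τ)) * (d.C1 * (3 + d.δ) ^ d.m * d.J θ V) *
        (d.K * ‖d.D z‖) := by
        have hδ0 : 0 ≤ d.δ := by linarith
        exact le_mul_of_one_le_right (by positivity) hD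
    _ = _ := by ring

lemma ez_norm (hθ : θ ≤ 1) {y : ℝ} (hy : |y| ≤ d.δ)
    (hE : Real.exp (r * (d.τ / 4) ^ 2 / 2) * Real.exp (1 - d.τ / 4 * V) ≤
      Real.exp (-(r * d.δ ^ 2 / 8)) * d.J θ V) :
    ‖q d.τ r (((-(d.τ / 4) : ℝ) : ℂ) + y * I) *
      (cexp ((((-(d.τ / 4) : ℝ) : ℂ) + y * I) * V) * d.A (((-(d.τ / 4) : ℝ) : ℂ) + y * I) *
        cexp (θ * (((-(d.τ / 4) : ℝ) : ℂ) + y * I) ^ 2 / 2)) /
      d.D (((-(d.τ / 4) : ℝ) : ℂ) + y * I)‖ ≤
      (4 / d.τ) * (d.K * (3 + d.δ) ^ d.m * d.K) *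
      (Real.exp (-(r * d.δ ^ 2 / 8)) * d.J θ V) := by
  have hτ := d.hτ
  have hδ := d.hτδ
  have hδ0 : 0 ≤ d.δ := by linarith
  have hK := d.hK
  have hJ0 := d.J_nonneg θ V
  have hr : (0:ℝ) ≤ r := r.2
  set z : ℂ := ((-(d.τ / 4) : ℝ) : ℂ) + y * I with hz
  have hre : z.re = -(d.τ / 4) := line_re _ _
  have him : z.im = y := line_im _ _
  have h1 : |z.re| ≤ d.τ / 4 := by rw [hre, abs_neg, abs_of_pos (by linarith)]
  have h2 : |z.im| ≤ d.δ := by rw [him]; exact hy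
  have hEb := Eb (d := d) (V := V) hθ hre
  have hq := q_norm (r := r) h1 hτ
  have hD := d.Dbox z h1 h2
  have hDp : 0 < ‖d.D z‖ := norm_pos_iff.2 (D_ne h1 h2)
  have e1 : Real.exp (r * (z.re ^ 2 - z.im ^ 2) / 2) ≤ Real.exp (r * (d.τ / 4) ^ 2 / 2) := by
    refine Real.exp_le_exp.2 ?_
    rw [hre]
    nlinarith [sq_nonneg z.im, mul_nonneg hr (sq_nonneg z.im)]
  have e2 : (3 + |z.im|) ^ d.m ≤ (3 + d.δ) ^ d.m :=
    pow_le_pow_left₀ (by positivity) (by linarith) _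
  rw [norm_div, norm_mul, div_le_iff₀ hDp]
  calc ‖q d.τ r z‖ * ‖cexp (z * V) * d.A z * cexp (θ * z ^ 2 / 2)‖
      ≤ (Real.exp (r * (d.τ / 4) ^ 2 / 2) * (4 / d.τ)) *
          (d.K * (3 + d.δ) ^ d.m * Real.exp (1 - d.τ / 4 * V)) := by
        refine mul_le_mul (hq.trans ?_) (hEb.trans ?_) (norm_nonneg _) (by positivity)
        · exact mul_le_mul_of_nonneg_right e1 (by positivity)
        · gcongr
    _ = (4 / d.τ) * (d.K * (3 + d.δ) ^ d.m) *
          (Real.exp (r * (d.τ / 4) ^ 2 / 2) * Real.exp (1 - d.τ / 4 * V)) := by ring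
    _ ≤ (4 / d.τ) * (d.K * (3 + d.δ) ^ d.m) * (Real.exp (-(r * d.δ ^ 2 / 8)) * d.J θ V) := by
        gcongr
    _ ≤ (4 / d.τ) * (d.K * (3 + d.δ) ^ d.m) * (Real.exp (-(r * d.δ ^ 2 / 8)) * d.J θ V) *
        (d.K * ‖d.D z‖) := le_mul_of_one_le_right (by positivity) hD
    _ = _ := by ring

/-- high frequencies -/
lemma outer_pt (hr : 2 ≤ r) {x y : ℝ} (hx : |x| = d.τ / 4) (hy : d.δ ≤ |y|) {L : ℂ}
    (hL : ‖L‖ ≤ d.C2 * (3 + |y|) ^ (2 * d.m) * d.J θ V) :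
    ‖q d.τ r (x + y * I) * L‖ ≤ ((4 / d.τ) * d.C2 * (Real.exp (-(r * d.δ ^ 2 / 8)) * d.J θ V)) *
      (Real.exp (-1 * y ^ 2 / 2) * (3 + |y|) ^ (2 * d.m)) := by
  have hτ := d.hτ
  have hδ := d.hτδ
  have hJ0 := d.J_nonneg θ V
  have hC2 := d.C2_pos
  have hr' : (2:ℝ) ≤ r := by exact_mod_cast hr
  have hq := q_norm (r := r) (z := (x:ℂ) + y * I) (by rw [line_re]; exact hx.le) hτ
  rw [line_re, line_im] at hq
  have e1 : Real.exp (r * (x ^ 2 - y ^ 2) / 2) ≤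
      Real.exp (-(r * d.δ ^ 2 / 8)) * Real.exp (-1 * y ^ 2 / 2) := by
    rw [← Real.exp_add]
    refine Real.exp_le_exp.2 ?_
    have h3 : x ^ 2 ≤ (d.δ / 16) ^ 2 := by
      rw [← sq_abs]
      exact pow_le_pow_left₀ (abs_nonneg _) (by linarith) 2
    have h4 : d.δ ^ 2 ≤ y ^ 2 := by
      rw [← sq_abs y]
      exact pow_le_pow_left₀ (by linarith) hy 2
    have h5 : 0 ≤ y ^ 2 / 4 - x ^ 2 / 2 - d.δ ^ 2 / 8 := by nlinarith
    have h6 : 0 ≤ (r:ℝ) * (y ^ 2 / 4 - x ^ 2 / 2 - d.δ ^ 2 / 8) := mul_nonneg (by linarith) h5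
    nlinarith [mul_nonneg (sub_nonneg.2 hr') (sq_nonneg y)]
  rw [norm_mul]
  calc ‖q d.τ r (x + y * I)‖ * ‖L‖
      ≤ ((Real.exp (-(r * d.δ ^ 2 / 8)) * Real.exp (-1 * y ^ 2 / 2)) * (4 / d.τ)) *
        (d.C2 * (3 + |y|) ^ (2 * d.m) * d.J θ V) := by
        refine mul_le_mul (hq.trans ?_) hL (norm_nonneg _) (by positivity)
        exact mul_le_mul_of_nonneg_right e1 (by positivity)
    _ = _ := by ring

/-- constant in the bound for the pairing -/
noncomputable def C5 (d : Dat) : ℝ :=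
  (8 / d.τ) * d.C2 * (4 * ((2 * d.m).factorial * Real.exp 4)) +
    (2 * d.τ) * ((4 / d.τ) * (d.C1 * (3 + d.δ) ^ d.m * d.K)) +
    (2 * d.δ) * ((4 / d.τ) * (d.K * (3 + d.δ) ^ d.m * d.K))

lemma pair_small (hr : 2 ≤ r) (hθ : θ ≤ 1) (hV : 0 ≤ V)
    (hJ : Real.exp (1 - d.τ / 4 * V) ≤ d.J θ V)
    (hE : Real.exp (r * (d.τ / 4) ^ 2 / 2) * Real.exp (1 - d.τ / 4 * V) ≤
      Real.exp (-(r * d.δ ^ 2 / 8)) * d.J θ V) :
    |∫ t, d.F θ V t * w d.τ r t| ≤ d.C5 * (Real.exp (-(r * d.δ ^ 2 / 8)) * d.J θ V) := by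
  have hτ := d.hτ
  have hδ := d.hτδ
  have hδ0 : 0 ≤ d.δ := by linarith
  have hK := d.hK
  have hJ0 := d.J_nonneg θ V
  have hC2 := d.C2_pos
  have hr0 : r ≠ 0 := by
    intro h
    rw [h] at hr
    norm_num at hr
  set x : ℝ := d.τ / 4 with hx
  have hx0 : 0 < x := by rw [hx]; linarith
  set ε : ℝ := Real.exp (-(r * d.δ ^ 2 / 8)) * d.J θ V with hε
  have hε0 : 0 ≤ ε := by positivity
  obtain ⟨ip, hp⟩ := w_pair hτ hr0 (x := x) (by rw [abs_of_pos hx0]) (d.F_meas θ V)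
    (d.WIp θ V (x := x) (by rw [hx]; linarith))
  obtain ⟨im, hm⟩ := w_pair hτ hr0 (x := -x) (by rw [abs_neg, abs_of_pos hx0]) (d.F_meas θ V)
    (d.WIn θ V (-x))
  set ap : ℝ → ℂ := fun y => q d.τ r ((x:ℂ) + y * I) * Lap (Ioi 0) (d.F θ V) ((x:ℂ) + y * I) with hap
  set am : ℝ → ℂ := fun y => q d.τ r (((-x : ℝ) : ℂ) + y * I) *
    Lap (Iic 0) (d.F θ V) (((-x : ℝ) : ℂ) + y * I) with ham
  -- integrability of `F w`
  have hFw : Integrable (fun t => d.F θ V t * w d.τ r t) := by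
    refine ((d.J_int θ V).const_mul (2 * Real.exp (r * d.τ ^ 2 / 2))).mono'
      ((d.F_meas θ V).mul (w_meas _ _)).aestronglyMeasurable (Eventually.of_forall fun t => ?_)
    rw [Real.norm_eq_abs, abs_mul, abs_of_nonneg (w_nonneg _ _ t)]
    calc |d.F θ V t| * w d.τ r t ≤
        |d.F θ V t| * (2 * Real.exp (r * d.τ ^ 2 / 2) * Real.exp (-d.τ * |t|)) :=
          mul_le_mul_of_nonneg_left (w_le hτ r t) (abs_nonneg _)
      _ = _ := by ring
  have hsplit : ((2 * Real.pi : ℝ) : ℂ) * ((∫ t, d.F θ V t * w d.τ r t : ℝ) : ℂ) =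
      ∫ y, (ap y + am y) := by
    rw [integral_add ip im, ← hp, ← hm, ← mul_add]
    congr 1
    rw [← intervalIntegral.integral_Iic_add_Ioi (f := fun t => d.F θ V t * w d.τ r t) (b := 0)
      hFw.integrableOn hFw.integrableOn]
    push_cast
    ring
  have hmeas : MeasurableSet (Ioc (-d.δ) d.δ) := measurableSet_Ioc
  have hio := integral_add_compl (μ := volume) hmeas (ip.add im)
  -- outer part
  have hout : ‖∫ y in (Ioc (-d.δ) d.δ)ᶜ, (ap y + am y)‖ ≤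
      (8 / d.τ) * d.C2 * (4 * ((2 * d.m).factorial * Real.exp 4)) * ε := by
    have hgi : Integrable (fun y : ℝ => (2 * ((4 / d.τ) * d.C2 * ε)) *
        (Real.exp (-1 * y ^ 2 / 2) * (3 + |y|) ^ (2 * d.m))) :=
      (gm_int (s := 1) one_pos le_rfl d.m).const_mul _
    calc ‖∫ y in (Ioc (-d.δ) d.δ)ᶜ, (ap y + am y)‖
        ≤ ∫ y in (Ioc (-d.δ) d.δ)ᶜ, (2 * ((4 / d.τ) * d.C2 * ε)) *
          (Real.exp (-1 * y ^ 2 / 2) * (3 + |y|) ^ (2 * d.m)) := by
          refine norm_integral_le_of_norm_le hgi.integrableOn ?_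
          refine (ae_restrict_iff' hmeas.compl).2 (Eventually.of_forall fun y hy => ?_)
          have hy' : d.δ ≤ |y| := by
            rw [mem_compl_iff, mem_Ioc, not_and_or] at hy
            rcases hy with h | h
            · push Not at h
              rw [le_abs]; right; linarith
            · push Not at h
              rw [le_abs]; left; exact h.le
          have b1 := outer_pt (d := d) (θ := θ) (V := V) hr (x := x) (by rw [abs_of_pos hx0]) hy'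
            (L := Lap (Ioi 0) (d.F θ V) ((x:ℂ) + y * I)) (by
              have := Lpb (d := d) hθ hV hJ (z := (x:ℂ) + y * I) (line_re _ _)
              rwa [line_im] at this)
          have b2 := outer_pt (d := d) (θ := θ) (V := V) hr (x := -x)
            (by rw [abs_neg, abs_of_pos hx0]) hy'
            (L := Lap (Iic 0) (d.F θ V) (((-x : ℝ) : ℂ) + y * I)) (by
              have := Lmb (d := d) hθ hV hJ (z := ((-x : ℝ) : ℂ) + y * I) (line_re _ _)
              rwa [line_im] at this)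
          calc ‖ap y + am y‖ ≤ ‖ap y‖ + ‖am y‖ := norm_add_le _ _
            _ ≤ ((4 / d.τ) * d.C2 * ε) * (Real.exp (-1 * y ^ 2 / 2) * (3 + |y|) ^ (2 * d.m)) +
                ((4 / d.τ) * d.C2 * ε) * (Real.exp (-1 * y ^ 2 / 2) * (3 + |y|) ^ (2 * d.m)) :=
                add_le_add b1 b2
            _ = _ := by ring
      _ ≤ ∫ y, (2 * ((4 / d.τ) * d.C2 * ε)) *
          (Real.exp (-1 * y ^ 2 / 2) * (3 + |y|) ^ (2 * d.m)) :=
          setIntegral_le_integral hgi (Eventually.of_forall fun y => by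
            simp only [Pi.zero_apply]; positivity)
      _ = (2 * ((4 / d.τ) * d.C2 * ε)) *
          ∫ y, (Real.exp (-1 * y ^ 2 / 2) * (3 + |y|) ^ (2 * d.m)) := integral_const_mul _ _
      _ ≤ (2 * ((4 / d.τ) * d.C2 * ε)) * (4 * ((2 * d.m).factorial * Real.exp 4) * (1 / 1) ^ (d.m + 1)) := by
          refine mul_le_mul_of_nonneg_left (gm (s := 1) one_pos le_rfl d.m) (by positivity)
      _ = _ := by
          rw [div_one, one_pow]; ring
  -- inner part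
  set e : ℝ → ℂ := fun y => q d.τ r (((-x : ℝ) : ℂ) + y * I) *
      (cexp ((((-x : ℝ) : ℂ) + y * I) * V) * d.A (((-x : ℝ) : ℂ) + y * I) *
        cexp (θ * (((-x : ℝ) : ℂ) + y * I) ^ 2 / 2)) / d.D (((-x : ℝ) : ℂ) + y * I) with he
  have hinn : ‖∫ y in Ioc (-d.δ) d.δ, (ap y + am y)‖ ≤
      (2 * d.τ) * ((4 / d.τ) * (d.C1 * (3 + d.δ) ^ d.m * d.K)) * ε +
        (2 * d.δ) * ((4 / d.τ) * (d.K * (3 + d.δ) ^ d.m * d.K)) * ε := by
    have hc1 : ∀ y : ℝ, |y| ≤ d.δ → ap y = d.Ps θ r V ((x:ℂ) + y * I) := by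
      intro y hy
      have hne : d.D ((x:ℂ) + y * I) ≠ 0 :=
        D_ne (by rw [line_re, abs_of_pos hx0]) (by rw [line_im]; exact hy)
      unfold Ps
      rw [d.H_eq θ V (z := (x:ℂ) + y * I) (by rw [line_re, hx]; linarith)
        (by rw [line_re, hx]; linarith)]
      rw [hap]
      field_simp
    have hc2 : ∀ y : ℝ, |y| ≤ d.δ → am y = e y - d.Ps θ r V (((-x : ℝ) : ℂ) + y * I) := by
      intro y hy
      have hne : d.D (((-x : ℝ) : ℂ) + y * I) ≠ 0 :=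
        D_ne (by rw [line_re, abs_neg, abs_of_pos hx0]) (by rw [line_im]; exact hy)
      rw [ham, he]
      unfold Ps H
      field_simp
      ring
    have hle : -d.δ ≤ d.δ := by linarith
    rw [← intervalIntegral.integral_of_le hle]
    have hcontP : ∀ x' : ℝ, |x'| ≤ x → ContinuousOn (fun y : ℝ => d.Ps θ r V ((x':ℂ) + y * I))
        (uIcc (-d.δ) d.δ) := by
      intro x' hx' y hy
      rw [uIcc_of_le hle, mem_Icc, ← abs_le] at hy
      have h1 : ContinuousAt (d.Ps θ r V) ((x':ℂ) + y * I) :=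
        (Ps_diffAt (d := d) (by rw [line_re]; exact hx') (by rw [line_im]; exact hy)).continuousAt
      exact (ContinuousAt.comp (f := fun y : ℝ => (x':ℂ) + y * I) h1 (by fun_prop)).continuousWithinAt
    have hP1 : IntervalIntegrable (fun y : ℝ => d.Ps θ r V ((x:ℂ) + y * I)) volume (-d.δ) d.δ :=
      (hcontP x (by rw [abs_of_pos hx0])).intervalIntegrable
    have hP2 : IntervalIntegrable (fun y : ℝ => d.Ps θ r V (((-x : ℝ) : ℂ) + y * I)) volume
        (-d.δ) d.δ := (hcontP (-x) (by rw [abs_neg, abs_of_pos hx0])).intervalIntegrable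
    have hei : IntervalIntegrable e volume (-d.δ) d.δ := by
      have h1 : IntervalIntegrable am volume (-d.δ) d.δ := im.intervalIntegrable
      refine (h1.add hP2).congr (fun y hy => ?_)
      rw [uIoc_of_le hle, mem_Ioc] at hy
      rw [hc2 y (abs_le.2 ⟨hy.1.le, hy.2⟩)]
      ring
    have heq : ∫ y in (-d.δ)..d.δ, (ap y + am y) =
        ((∫ y in (-d.δ)..d.δ, d.Ps θ r V ((x:ℂ) + y * I)) -
          ∫ y in (-d.δ)..d.δ, d.Ps θ r V (((-x : ℝ) : ℂ) + y * I)) + ∫ y in (-d.δ)..d.δ, e y := by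
      rw [← intervalIntegral.integral_sub hP1 hP2, ← intervalIntegral.integral_add (hP1.sub hP2) hei]
      refine intervalIntegral.integral_congr fun y hy => ?_
      rw [uIcc_of_le hle, mem_Icc, ← abs_le] at hy
      rw [hc1 y hy, hc2 y hy]
      ring
    have hcau := Complex.integral_boundary_rect_eq_zero_of_differentiableOn (d.Ps θ r V)
      (((-x : ℝ) : ℂ) + ((-d.δ : ℝ) : ℂ) * I) ((x:ℂ) + (d.δ:ℂ) * I) (by
        intro z hz
        rw [Complex.mem_reProdIm, line_re, line_re, line_im, line_im,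
          uIcc_of_le (by linarith : -x ≤ x), uIcc_of_le hle, mem_Icc, mem_Icc, ← abs_le,
          ← abs_le] at hz
        exact (Ps_diffAt (d := d) hz.1 hz.2).differentiableWithinAt)
    rw [line_re, line_re, line_im, line_im] at hcau
    have hI : (∫ y in (-d.δ)..d.δ, d.Ps θ r V ((x:ℂ) + y * I)) -
          ∫ y in (-d.δ)..d.δ, d.Ps θ r V (((-x : ℝ) : ℂ) + y * I) =
        I * ((∫ u in (-x)..x, d.Ps θ r V (u + ((-d.δ : ℝ) : ℂ) * I)) -
          ∫ u in (-x)..x, d.Ps θ r V (u + (d.δ:ℂ) * I)) := by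
      simp only [smul_eq_mul] at hcau
      have hI2 : (I:ℂ) * I = -1 := I_mul_I
      linear_combination (-I) * hcau - ((∫ y in (-d.δ)..d.δ, d.Ps θ r V ((x:ℂ) + y * I)) -
          ∫ y in (-d.δ)..d.δ, d.Ps θ r V (((-x : ℝ) : ℂ) + y * I)) * hI2 * (-1)
    have hb1 : ∀ s' : ℝ, |s'| = d.δ → ‖∫ u in (-x)..x, d.Ps θ r V (u + (s':ℂ) * I)‖ ≤
        d.τ * ((4 / d.τ) * (d.C1 * (3 + d.δ) ^ d.m * d.K)) * ε := by
      intro s' hs'
      have hC1 := d.C1_nonneg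
      have h1 := intervalIntegral.norm_integral_le_of_norm_le_const (a := -x) (b := x)
        (f := fun u : ℝ => d.Ps θ r V (u + (s':ℂ) * I))
        (C := (4 / d.τ) * (d.C1 * (3 + d.δ) ^ d.m * d.K) * ε) (fun u hu => by
          rw [uIoc_of_le (by linarith : -x ≤ x), mem_Ioc] at hu
          exact Ps_norm (d := d) hθ hV hJ (by rw [line_re]; exact abs_le.2 ⟨hu.1.le, hu.2⟩)
            (by rw [line_im]; exact hs'))
      refine h1.trans ?_
      have e3 : |x - -x| ≤ d.τ := by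
        rw [abs_of_pos (by linarith)]; rw [hx]; linarith
      calc (4 / d.τ) * (d.C1 * (3 + d.δ) ^ d.m * d.K) * ε * |x - -x|
          ≤ (4 / d.τ) * (d.C1 * (3 + d.δ) ^ d.m * d.K) * ε * d.τ :=
            mul_le_mul_of_nonneg_left e3 (by positivity)
        _ = _ := by ring
    have hb2 : ‖∫ y in (-d.δ)..d.δ, e y‖ ≤
        (2 * d.δ) * ((4 / d.τ) * (d.K * (3 + d.δ) ^ d.m * d.K)) * ε := by
      have h1 := intervalIntegral.norm_integral_le_of_norm_le_const (a := -d.δ) (b := d.δ)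
        (f := e) (C := (4 / d.τ) * (d.K * (3 + d.δ) ^ d.m * d.K) * ε) (fun y hy => by
          rw [uIoc_of_le hle, mem_Ioc] at hy
          exact ez_norm (d := d) hθ (abs_le.2 ⟨hy.1.le, hy.2⟩) hE)
      refine h1.trans ?_
      rw [abs_of_nonneg (by linarith : 0 ≤ d.δ - -d.δ)]
      refine le_of_eq ?_
      ring
    rw [heq, hI]
    refine (norm_add_le _ _).trans (add_le_add ?_ hb2)
    rw [norm_mul, Complex.norm_I, one_mul]
    refine (norm_sub_le _ _).trans ?_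
    have b1 := hb1 (-d.δ) (by rw [abs_neg, abs_of_nonneg hδ0])
    have b2 := hb1 d.δ (abs_of_nonneg hδ0)
    calc _ ≤ d.τ * ((4 / d.τ) * (d.C1 * (3 + d.δ) ^ d.m * d.K)) * ε +
        d.τ * ((4 / d.τ) * (d.C1 * (3 + d.δ) ^ d.m * d.K)) * ε := add_le_add b1 b2
      _ = _ := by ring
  have hfin : ‖((2 * Real.pi : ℝ) : ℂ) * ((∫ t, d.F θ V t * w d.τ r t : ℝ) : ℂ)‖ ≤ d.C5 * ε := by
    rw [hsplit]
    have hio' : (∫ y in Ioc (-d.δ) d.δ, (ap y + am y)) + ∫ y in (Ioc (-d.δ) d.δ)ᶜ, (ap y + am y) =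
      ∫ y, (ap y + am y) := hio
    rw [← hio']
    refine (norm_add_le _ _).trans ((add_le_add hinn hout).trans (le_of_eq ?_))
    unfold C5
    ring
  rw [norm_mul, Complex.norm_real, Complex.norm_real, Real.norm_eq_abs, Real.norm_eq_abs,
    abs_of_pos (by positivity)] at hfin
  have hpi := Real.pi_gt_three
  have h0 := abs_nonneg (∫ t, d.F θ V t * w d.τ r t)
  nlinarith

end Dat

end Pool.Agent.V8H22.OSC
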