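import Pool.Agent.V8H22.OSC.C6

/-!
# The abstract window theorem
-/

set_option autoImplicit false
set_option maxHeartbeats 1000000

open MeasureTheory ProbabilityTheory Complex Set Filter Topology
open scoped NNReal ENNReal

namespace Pool.Agent.V8H22.OSC

namespace Dat

variable {d : Dat} {θ r : ℝ≥0} {V : ℝ}

lemma Fw_abs_int : Integrable (fun t => |d.F θ V t| * w d.τ r t) := by
  have hτ := d.hτ
  refine ((d.J_int θ V).const_mul (2 * Real.exp (r * d.τ ^ 2 / 2))).mono'
    ((d.F_meas θ V).abs.mul (w_meas _ _)).aestronglyMeasurable (Eventually.of_forall fun t => ?_)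
  rw [Real.norm_eq_abs, abs_mul, abs_abs, abs_of_nonneg (w_nonneg _ _ t)]
  calc |d.F θ V t| * w d.τ r t ≤
      |d.F θ V t| * (2 * Real.exp (r * d.τ ^ 2 / 2) * Real.exp (-d.τ * |t|)) :=
        mul_le_mul_of_nonneg_left (w_le hτ r t) (abs_nonneg _)
    _ = _ := by ring

lemma Fw_int : Integrable (fun t => d.F θ V t * w d.τ r t) := by
  refine (Fw_abs_int (d := d) (θ := θ) (V := V) (r := r)).mono'
    ((d.F_meas θ V).mul (w_meas _ _)).aestronglyMeasurable (Eventually.of_forall fun t => ?_)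
  rw [Real.norm_eq_abs, abs_mul, abs_of_nonneg (w_nonneg _ _ t)]

/-- the weighted mean of the local norms -/
lemma Q_low {c V1 : ℝ} (hc : 0 < c) (hb : ∀ V', V1 ≤ V' → c ≤ d.J θ V')
    (hV : 2 * V1 ≤ V) :
    c * (1 - Real.exp (-(V / 2)) * Real.exp (r / 2)) ≤ ∫ t, |d.F θ V t| * w d.τ r t := by
  have hτ := d.hτ
  have hint : Integrable (fun p : ℝ × ℝ => |d.F θ V p.1| * ek d.τ (p.1 - p.2))
      (volume.prod (gs r)) := by
    have h1 : Integrable (fun p : ℝ × ℝ => (|d.F θ V p.1| * Real.exp (-d.τ * |p.1|)) *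
        Real.exp (d.τ * |p.2|)) (volume.prod (gs r)) :=
      (d.J_int θ V).mul_prod (gs_exp_abs_int r d.τ)
    refine h1.mono' ?_ (Eventually.of_forall fun p => ?_)
    · exact (((d.F_meas θ V).abs.comp measurable_fst).mul
        ((ek_meas d.τ).comp (measurable_fst.sub measurable_snd))).aestronglyMeasurable
    · rw [Real.norm_eq_abs, abs_mul, abs_abs, mul_assoc]
      refine mul_le_mul_of_nonneg_left ?_ (abs_nonneg _)
      unfold ek
      rw [abs_of_pos (Real.exp_pos _), ← Real.exp_add]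
      refine Real.exp_le_exp.2 ?_
      have := abs_sub_abs_le_abs_sub p.1 p.2
      nlinarith
  have h1 : ∫ t, |d.F θ V t| * w d.τ r t = ∫ t, ∫ s, |d.F θ V t| * ek d.τ (t - s) ∂gs r := by
    refine integral_congr_ae (Eventually.of_forall fun t => ?_)
    simp only
    unfold w
    rw [integral_const_mul]
  have h2 := integral_integral_swap (f := fun (t s : ℝ) => |d.F θ V t| * ek d.τ (t - s)) hint
  have h3 : ∀ s : ℝ, ∫ t, |d.F θ V t| * ek d.τ (t - s) = d.J θ (V + s) := by
    intro s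
    unfold J
    rw [← integral_sub_right_eq_self (μ := volume)
      (fun t => |d.F θ (V + s) t| * Real.exp (-d.τ * |t|)) s]
    refine integral_congr_ae (Eventually.of_forall fun t => ?_)
    simp only
    unfold F ek
    rw [show V + s + (t - s) = V + t by ring]
  have h4 : Integrable (fun s => d.J θ (V + s)) (gs r) := by
    have := hint.integral_prod_right
    refine this.congr (Eventually.of_forall fun s => ?_)
    exact h3 s
  rw [h1, h2]
  simp_rw [h3]
  have h5 : ∫ s, c * (1 - Real.exp (-(V / 2)) * Real.exp (-1 * s)) ∂gs r ≤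
      ∫ s, d.J θ (V + s) ∂gs r := by
    refine integral_mono (((integrable_const _).sub ((gs_exp_int r (-1)).const_mul _)).const_mul _)
      h4 fun s => ?_
    simp only
    rw [← Real.exp_add]
    rcases le_or_gt (-(V / 2)) s with h | h
    · have := hb (V + s) (by linarith)
      have h6 := Real.exp_pos (-(V / 2) + -1 * s)
      nlinarith
    · have h6 : 1 ≤ Real.exp (-(V / 2) + -1 * s) := Real.one_le_exp (by linarith)
      have h7 := d.J_nonneg θ (V + s)
      nlinarith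
  refine le_trans (le_of_eq ?_) h5
  rw [integral_const_mul, integral_sub (integrable_const _) ((gs_exp_int r (-1)).const_mul _),
    integral_const_mul, gs_exp]
  simp

/-- the sign argument for the smoothed function -/
lemma sign_smooth {c' R : ℝ} (hc' : 0 ≤ c')
    (hR : ∀ t : ℝ, |t| ≤ R → d.F θ V t ≤ c' * Real.exp (d.τ / 2 * |t|))
    (h2 : |∫ t, d.F θ V t * w d.τ r t| ≤ (∫ t, |d.F θ V t| * w d.τ r t) / 4)
    (h4 : ∫ t in {t : ℝ | R < |t|}, |d.F θ V t| * w d.τ r t ≤ (∫ t, |d.F θ V t| * w d.τ r t) / 8) :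
    ∫ t, |d.F θ V t| * w d.τ r t ≤ 16 * c' * (2 * Real.exp (r * d.τ ^ 2 / 2)) / d.τ := by
  have hτ := d.hτ
  set Q := ∫ t, |d.F θ V t| * w d.τ r t with hQ
  set E1 : ℝ := 2 * Real.exp (r * d.τ ^ 2 / 2) with hE1
  have hE1p : 0 < E1 := by positivity
  have hi1 := Fw_abs_int (d := d) (θ := θ) (V := V) (r := r)
  have hi2 := Fw_int (d := d) (θ := θ) (V := V) (r := r)
  have hi3 : Integrable (fun t : ℝ => Real.exp (-(d.τ / 2) * |t|)) := exp_abs_int (by linarith)
  have hmeas := meas_out R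
  have hi4 : Integrable (({t : ℝ | R < |t|}).indicator (fun t => |d.F θ V t| * w d.τ r t)) :=
    hi1.indicator hmeas
  have h5 : ∫ t, (|d.F θ V t| * w d.τ r t + d.F θ V t * w d.τ r t) ≤
      ∫ t, (2 * c' * E1 * Real.exp (-(d.τ / 2) * |t|) +
        2 * ({t : ℝ | R < |t|}).indicator (fun t => |d.F θ V t| * w d.τ r t) t) := by
    refine integral_mono (hi1.add hi2) ((hi3.const_mul _).add (hi4.const_mul _)) fun t => ?_
    simp only
    have hw := w_nonneg d.τ r t
    by_cases ht : R < |t|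
    · have : t ∈ {t : ℝ | R < |t|} := ht
      rw [indicator_of_mem this]
      have h6 : d.F θ V t * w d.τ r t ≤ |d.F θ V t| * w d.τ r t :=
        mul_le_mul_of_nonneg_right (le_abs_self _) hw
      have h7 : 0 ≤ 2 * c' * E1 * Real.exp (-(d.τ / 2) * |t|) := by positivity
      linarith
    · have : t ∉ {t : ℝ | R < |t|} := ht
      rw [indicator_of_notMem this]
      push Not at ht
      have h6 := hR t ht
      have hex : 0 ≤ c' * Real.exp (d.τ / 2 * |t|) := by positivity
      have h7 : |d.F θ V t| + d.F θ V t ≤ 2 * (c' * Real.exp (d.τ / 2 * |t|)) := by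
        rcases abs_cases (d.F θ V t) with ⟨h, _⟩ | ⟨h, _⟩ <;> rw [h] <;> linarith
      have h8 := w_le hτ r t
      calc |d.F θ V t| * w d.τ r t + d.F θ V t * w d.τ r t
          = (|d.F θ V t| + d.F θ V t) * w d.τ r t := by ring
        _ ≤ (2 * (c' * Real.exp (d.τ / 2 * |t|))) * w d.τ r t := mul_le_mul_of_nonneg_right h7 hw
        _ ≤ (2 * (c' * Real.exp (d.τ / 2 * |t|))) * (E1 * Real.exp (-d.τ * |t|)) :=
            mul_le_mul_of_nonneg_left h8 (by positivity)
        _ = 2 * c' * E1 * Real.exp (-(d.τ / 2) * |t|) + 2 * 0 := by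
            rw [show -(d.τ / 2) * |t| = d.τ / 2 * |t| + -d.τ * |t| by ring, Real.exp_add]
            ring
  rw [integral_add hi1 hi2, integral_add (hi3.const_mul _) (hi4.const_mul _), integral_const_mul,
    integral_const_mul, integral_indicator hmeas, exp_abs_integral (by linarith), ← hQ] at h5
  have h6 := (abs_le.1 h2).1
  have h7 : Q / 2 ≤ 2 * c' * E1 * (2 / (d.τ / 2)) := by linarith
  have e : 2 * c' * E1 * (2 / (d.τ / 2)) = (16 * c' * E1 / d.τ) / 2 := by field_simp; ring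
  rw [e] at h7
  linarith

/-- **The abstract window theorem.** -/
theorem main (d : Dat) : ∃ c : ℝ, 0 < c ∧ ∃ R : ℝ, 0 < R ∧ ∃ V0 : ℝ, ∀ V, V0 ≤ V →
    ∃ t : ℝ, |t| ≤ R * Real.log V ∧ c * Real.exp (d.τ / 2 * |t|) ≤ d.f (V + t) := by
  have hτ := d.hτ
  have hτ1 := d.hτ1
  have hδ := d.hτδ
  have hK := d.hK
  obtain ⟨c2, hc2, V1, hV1, hb⟩ := d.base
  obtain ⟨R0, hR0, V2, hpg⟩ := d.pigeon 1
  -- choice of `r`
  obtain ⟨r, hr2, hr⟩ : ∃ r : ℝ≥0, 2 ≤ r ∧
      d.C5 * Real.exp (-(r * d.δ ^ 2 / 8)) * (2 * Real.exp (r * d.τ ^ 2 / 2)) ≤ 1 / 4 := by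
    have hpos : 0 < d.δ ^ 2 / 8 - d.τ ^ 2 / 2 := by nlinarith
    have h1 : Tendsto (fun x : ℝ => (2 * d.C5) * Real.exp (-(x * (d.δ ^ 2 / 8 - d.τ ^ 2 / 2)))) atTop
        (𝓝 ((2 * d.C5) * 0)) := by
      refine Tendsto.const_mul _ (Real.tendsto_exp_neg_atTop_nhds_zero.comp ?_)
      exact tendsto_id.atTop_mul_const hpos
    rw [mul_zero] at h1
    obtain ⟨x0, hx0⟩ := eventually_atTop.1 ((h1.eventually (gt_mem_nhds (show (0:ℝ) < 1 / 4 by
      norm_num))).and (eventually_ge_atTop 2))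
    obtain ⟨g1, g2⟩ := hx0 x0 le_rfl
    refine ⟨⟨x0, by linarith⟩, by exact_mod_cast g2, ?_⟩
    have e : d.C5 * Real.exp (-(x0 * d.δ ^ 2 / 8)) * (2 * Real.exp (x0 * d.τ ^ 2 / 2)) =
        (2 * d.C5) * Real.exp (-(x0 * (d.δ ^ 2 / 8 - d.τ ^ 2 / 2))) := by
      rw [show -(x0 * (d.δ ^ 2 / 8 - d.τ ^ 2 / 2)) = -(x0 * d.δ ^ 2 / 8) + x0 * d.τ ^ 2 / 2 by ring,
        Real.exp_add]
      ring
    have g3 := g1.le
    rw [← e] at g3
    exact g3
  set E1 : ℝ := 2 * Real.exp (r * d.τ ^ 2 / 2) with hE1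
  have hE1p : 0 < E1 := by positivity
  set c' : ℝ := c2 * d.τ / (40 * E1) with hc'
  have hc'0 : 0 < c' := by positivity
  have ev2 : ∀ᶠ V : ℝ in atTop, Real.exp (-(V / 2)) * Real.exp (r / 2) ≤ 1 / 2 := by
    have h1 : Tendsto (fun V : ℝ => Real.exp (-(V / 2)) * Real.exp (r / 2)) atTop
        (𝓝 (0 * Real.exp (r / 2))) := by
      refine Tendsto.mul_const _ (Real.tendsto_exp_neg_atTop_nhds_zero.comp ?_)
      exact tendsto_id.atTop_div_const (by norm_num)
    rw [zero_mul] at h1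
    exact (h1.eventually (gt_mem_nhds (by norm_num))).mono fun _ h => h.le
  have ev4 : ∀ᶠ V : ℝ in atTop, Real.exp (r * (d.τ / 4) ^ 2 / 2) * Real.exp (1 - d.τ / 4 * V) ≤
      Real.exp (-(r * d.δ ^ 2 / 8)) * c2 := by
    have h1 : Tendsto (fun V : ℝ => Real.exp (r * (d.τ / 4) ^ 2 / 2) * Real.exp (1 - d.τ / 4 * V))
        atTop (𝓝 (Real.exp (r * (d.τ / 4) ^ 2 / 2) * 0)) := by
      refine Tendsto.const_mul _ (Real.tendsto_exp_atBot.comp ?_)
      have h2 : Tendsto (fun V : ℝ => d.τ / 4 * V) atTop atTop :=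
        tendsto_id.const_mul_atTop (by linarith)
      exact tendsto_atBot_add_const_left _ _ (tendsto_neg_atTop_atBot.comp h2)
    rw [mul_zero] at h1
    exact (h1.eventually (gt_mem_nhds (by positivity))).mono fun _ h => h.le
  have ev5 : ∀ᶠ V : ℝ in atTop, 2 * d.K * Real.exp (-V) < c' / 2 := by
    have h1 : Tendsto (fun V : ℝ => 2 * d.K * Real.exp (-V)) atTop (𝓝 (2 * d.K * 0)) :=
      Tendsto.const_mul _ Real.tendsto_exp_neg_atTop_nhds_zero
    rw [mul_zero] at h1
    exact h1.eventually (gt_mem_nhds (by positivity))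
  have ev6 : ∀ᶠ V : ℝ in atTop, R0 * Real.log V ≤ V := by
    have h1 := (Real.isLittleO_log_id_atTop).bound (show (0:ℝ) < 1 / R0 by positivity)
    filter_upwards [h1, eventually_ge_atTop 1] with V g1 g2
    rw [Real.norm_eq_abs, Real.norm_eq_abs, abs_of_nonneg (Real.log_nonneg g2), id,
      abs_of_nonneg (by linarith), one_div, ← div_eq_inv_mul, le_div_iff₀ hR0] at g1
    linarith
  have ev7 : ∀ᶠ V : ℝ in atTop, 1 ≤ Real.log V := Real.tendsto_log_atTop.eventually_ge_atTop 1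
  obtain ⟨V0, hV0⟩ := eventually_atTop.1 (ev2.and (ev4.and (ev5.and (ev6.and (ev7.and
    ((eventually_ge_atTop (2 * V1)).and ((eventually_ge_atTop V2).and
      (eventually_ge_atTop (8 * E1 ^ 2)))))))))
  refine ⟨c' / 4, by positivity, R0 + 1, by linarith, V0, fun V hV => ?_⟩
  obtain ⟨g2, g4, g5, g6, g7, g8, g9, g10⟩ := hV0 V hV
  have hV1' : 1 ≤ V := by linarith
  have hVpos : 0 < V := by linarith
  obtain ⟨θ, hθ, hT⟩ := hpg V g9
  rw [pow_one] at hT
  have hθ1 : θ ≤ 1 := by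
    have : (θ:ℝ) ≤ 1 := hθ.trans (by rw [div_le_one (by positivity)]; linarith)
    exact_mod_cast this
  obtain ⟨b1, b2⟩ := hb V (by linarith) θ hθ1
  set Q := ∫ t, |d.F θ V t| * w d.τ r t with hQ
  set R := R0 * Real.log V with hR
  have hR0' : 0 ≤ R := by positivity
  have hQlow : c2 / 2 ≤ Q := by
    have := Q_low (d := d) (θ := θ) (r := r) (V := V) hc2 (fun V' h => (hb V' h θ hθ1).1)
      g8
    nlinarith
  have hQ0 : 0 ≤ Q := by linarith
  have hJQ : d.J θ V ≤ E1 * Q := by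
    unfold J
    rw [hQ, ← integral_const_mul]
    refine integral_mono (d.J_int θ V) ((Fw_abs_int (d := d)).const_mul _) fun t => ?_
    simp only
    calc |d.F θ V t| * Real.exp (-d.τ * |t|) ≤ |d.F θ V t| * (E1 * w d.τ r t) :=
          mul_le_mul_of_nonneg_left (w_ge hτ r t) (abs_nonneg _)
      _ = _ := by ring
  have hG2 : |∫ t, d.F θ V t * w d.τ r t| ≤ Q / 4 := by
    have h1 := pair_small (d := d) (θ := θ) (V := V) hr2 hθ1 hVpos.le b2
      (g4.trans (mul_le_mul_of_nonneg_left b1 (Real.exp_pos _).le))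
    have hC5 : 0 ≤ d.C5 := by
      have := d.C1_nonneg
      have := d.C2_pos
      have : 0 ≤ d.δ := by linarith
      unfold C5
      positivity
    calc _ ≤ d.C5 * (Real.exp (-(r * d.δ ^ 2 / 8)) * d.J θ V) := h1
      _ ≤ d.C5 * (Real.exp (-(r * d.δ ^ 2 / 8)) * (E1 * Q)) := by gcongr
      _ = (d.C5 * Real.exp (-(r * d.δ ^ 2 / 8)) * E1) * Q := by ring
      _ ≤ 1 / 4 * Q := mul_le_mul_of_nonneg_right hr hQ0
      _ = Q / 4 := by ring
  have hG4 : ∫ t in {t : ℝ | R < |t|}, |d.F θ V t| * w d.τ r t ≤ Q / 8 := by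
    calc ∫ t in {t : ℝ | R < |t|}, |d.F θ V t| * w d.τ r t
        ≤ ∫ t in {t : ℝ | R < |t|}, E1 * (|d.F θ V t| * Real.exp (-d.τ * |t|)) := by
          refine setIntegral_mono_on (Fw_abs_int (d := d)).integrableOn
            ((d.J_int θ V).const_mul _).integrableOn (meas_out R) fun t _ => ?_
          calc |d.F θ V t| * w d.τ r t ≤ |d.F θ V t| * (E1 * Real.exp (-d.τ * |t|)) :=
                mul_le_mul_of_nonneg_left (w_le hτ r t) (abs_nonneg _)
            _ = _ := by ring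
      _ = E1 * d.T θ V R := by rw [integral_const_mul]; rfl
      _ ≤ E1 * (1 / V * d.J θ V) := mul_le_mul_of_nonneg_left hT hE1p.le
      _ ≤ E1 * (1 / V * (E1 * Q)) := by gcongr
      _ = (E1 ^ 2 / V) * Q := by ring
      _ ≤ (1 / 8) * Q := by
          refine mul_le_mul_of_nonneg_right ?_ hQ0
          rw [div_le_iff₀ hVpos]
          linarith
      _ = Q / 8 := by ring
  -- the smoothed function takes a large value
  obtain ⟨t0, ht0, hFt0⟩ : ∃ t0 : ℝ, |t0| ≤ R ∧ c' * Real.exp (d.τ / 2 * |t0|) < d.F θ V t0 := by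
    by_contra hcon
    push Not at hcon
    have h1 := sign_smooth (d := d) (θ := θ) (V := V) (r := r) hc'0.le hcon hG2 hG4
    have e : 16 * c' * (2 * Real.exp (r * d.τ ^ 2 / 2)) / d.τ = 2 * c2 / 5 := by
      rw [← hE1, hc']; field_simp; ring
    rw [e] at h1
    linarith
  -- back to `f`
  by_contra hcon
  push Not at hcon
  set G : ℝ := Real.exp (d.τ / 2 * |t0|) with hG
  have hG1 : 1 ≤ G := Real.one_le_exp (by positivity)
  have hbd : ∀ u : ℝ, d.f (V + t0 + u) ≤ c' / 2 * G +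
      (d.K * Real.exp (2 * V * (d.τ / 8) - 4 * V)) * Real.exp ((4 * V + d.τ / 8) * |u|) := by
    intro u
    by_cases hu : |u| ≤ 1
    · have h1 := hcon (t0 + u) (by
        have := abs_add_le t0 u
        nlinarith)
      rw [← add_assoc] at h1
      have : 0 ≤ (d.K * Real.exp (2 * V * (d.τ / 8) - 4 * V)) *
        Real.exp ((4 * V + d.τ / 8) * |u|) := by positivity
      have h8 : Real.exp (d.τ / 2 * |t0 + u|) ≤ 2 * G := by
        have h9 : d.τ / 2 * |t0 + u| ≤ 1 / 8 + d.τ / 2 * |t0| := by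
          have := abs_add_le t0 u
          nlinarith
        have h10 : Real.exp (1 / 8) ≤ 2 := by
          have := Real.exp_one_lt_d9
          have h11 : Real.exp (1 / 8) ^ 8 = Real.exp 1 := by rw [← Real.exp_nat_mul]; norm_num
          by_contra hcc
          push Not at hcc
          have : (2:ℝ) ^ 8 ≤ Real.exp (1 / 8) ^ 8 := pow_le_pow_left₀ (by norm_num) hcc.le 8
          norm_num at this
          linarith
        calc Real.exp (d.τ / 2 * |t0 + u|) ≤ Real.exp (1 / 8 + d.τ / 2 * |t0|) := Real.exp_le_exp.2 h9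
          _ = Real.exp (1 / 8) * G := by rw [Real.exp_add]
          _ ≤ 2 * G := mul_le_mul_of_nonneg_right h10 (by linarith)
      have h12 : c' / 4 * Real.exp (d.τ / 2 * |t0 + u|) ≤ c' / 4 * (2 * G) :=
        mul_le_mul_of_nonneg_left h8 (by positivity)
      linarith
    · push Not at hu
      have h1 := d.fg (d.τ / 8) le_rfl (V + t0 + u)
      have h2 := le_abs_self (d.f (V + t0 + u))
      have h3 : Real.exp (d.τ / 8 * (V + t0 + u)) ≤
          Real.exp (2 * V * (d.τ / 8) - 4 * V) * Real.exp ((4 * V + d.τ / 8) * |u|) := by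
        rw [← Real.exp_add]
        refine Real.exp_le_exp.2 ?_
        have h4 := le_abs_self t0
        have h5 := le_abs_self u
        have h6 : d.τ / 8 * (V + t0 + u) ≤ d.τ / 8 * (2 * V + |u|) :=
          mul_le_mul_of_nonneg_left (by linarith) (by linarith)
        have h7 : 0 ≤ 4 * V * (|u| - 1) := mul_nonneg (by linarith) (by linarith)
        calc d.τ / 8 * (V + t0 + u) ≤ d.τ / 8 * (2 * V + |u|) := h6
          _ ≤ d.τ / 8 * (2 * V + |u|) + 4 * V * (|u| - 1) := by linarith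
          _ = 2 * V * (d.τ / 8) - 4 * V + (4 * V + d.τ / 8) * |u| := by ring
      calc d.f (V + t0 + u) ≤ d.K * Real.exp (d.τ / 8 * (V + t0 + u)) := h2.trans h1
        _ ≤ d.K * (Real.exp (2 * V * (d.τ / 8) - 4 * V) * Real.exp ((4 * V + d.τ / 8) * |u|)) :=
            mul_le_mul_of_nonneg_left h3 (by linarith)
        _ ≤ _ := by
          have : 0 ≤ c' / 2 * G := by positivity
          linarith
  have hle : d.F θ V t0 ≤ c' / 2 * G + (d.K * Real.exp (2 * V * (d.τ / 8) - 4 * V)) *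
      (2 * Real.exp (θ * (4 * V + d.τ / 8) ^ 2 / 2)) := by
    unfold F sm
    calc ∫ u, d.f (V + t0 + u) ∂gs θ ≤ ∫ u, (c' / 2 * G +
        (d.K * Real.exp (2 * V * (d.τ / 8) - 4 * V)) * Real.exp ((4 * V + d.τ / 8) * |u|)) ∂gs θ :=
          integral_mono (sm_int d.fm d.fg _)
            ((integrable_const _).add ((gs_exp_abs_int θ _).const_mul _)) hbd
      _ = c' / 2 * G + (d.K * Real.exp (2 * V * (d.τ / 8) - 4 * V)) *
          ∫ u, Real.exp ((4 * V + d.τ / 8) * |u|) ∂gs θ := by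
          rw [integral_add (integrable_const _) ((gs_exp_abs_int θ _).const_mul _),
            integral_const, integral_const_mul, probReal_univ, one_smul]
      _ ≤ _ := by
          have := gs_exp_abs θ (4 * V + d.τ / 8)
          have h0 : 0 ≤ d.K * Real.exp (2 * V * (d.τ / 8) - 4 * V) := by positivity
          have := mul_le_mul_of_nonneg_left this h0
          linarith
  have hsm : (d.K * Real.exp (2 * V * (d.τ / 8) - 4 * V)) *
      (2 * Real.exp (θ * (4 * V + d.τ / 8) ^ 2 / 2)) ≤ 2 * d.K * Real.exp (-V) := by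
    have h1 : (θ:ℝ) * (4 * V + d.τ / 8) ^ 2 / 2 ≤ 2 * V := by
      have h2 : (4 * V + d.τ / 8) ^ 2 ≤ (5 * V) ^ 2 :=
        pow_le_pow_left₀ (by positivity) (by linarith) 2
      calc (θ:ℝ) * (4 * V + d.τ / 8) ^ 2 / 2 ≤ (1 / (8 * V)) * (5 * V) ^ 2 / 2 := by gcongr
        _ = 25 / 16 * V := by field_simp; ring
        _ ≤ 2 * V := by linarith
    calc (d.K * Real.exp (2 * V * (d.τ / 8) - 4 * V)) *
          (2 * Real.exp (θ * (4 * V + d.τ / 8) ^ 2 / 2))
        = 2 * d.K * Real.exp (2 * V * (d.τ / 8) - 4 * V + θ * (4 * V + d.τ / 8) ^ 2 / 2) := by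
          rw [Real.exp_add]; ring
      _ ≤ 2 * d.K * Real.exp (-V) := by
          refine mul_le_mul_of_nonneg_left (Real.exp_le_exp.2 ?_) (by positivity)
          have h3 : V * d.τ ≤ V * (1 / 4) := mul_le_mul_of_nonneg_left hτ1 hVpos.le
          linarith
  have hfin : c' / 2 ≤ c' / 2 * G := le_mul_of_one_le_right (by positivity) hG1
  linarith

end Dat

end Pool.Agent.V8H22.OSC
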