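import Mathlib

/-!
# Gaussian averages: basic facts
-/

set_option autoImplicit false

open MeasureTheory ProbabilityTheory Complex Set Filter Topology
open scoped NNReal ENNReal

namespace Pool.Agent.V8H22.OSC

/-- the centred Gaussian measure of variance `θ` -/
noncomputable def gs (θ : ℝ≥0) : Measure ℝ := gaussianReal 0 θ

instance (θ : ℝ≥0) : IsProbabilityMeasure (gs θ) := by unfold gs; infer_instance

lemma gs_zero : gs 0 = Measure.dirac 0 := by unfold gs; simp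

lemma gs_exp_int (θ : ℝ≥0) (a : ℝ) : Integrable (fun u : ℝ => Real.exp (a * u)) (gs θ) :=
  integrable_exp_mul_gaussianReal a

lemma gs_cexp_int (θ : ℝ≥0) (z : ℂ) : Integrable (fun u : ℝ => cexp (z * u)) (gs θ) := by
  refine (gs_exp_int θ z.re).mono' (by fun_prop) (Eventually.of_forall fun u => ?_)
  rw [Complex.norm_exp]
  simp

lemma gs_cexp (θ : ℝ≥0) (z : ℂ) : ∫ u : ℝ, cexp (z * u) ∂gs θ = cexp (θ * z ^ 2 / 2) := by
  have h := complexMGF_id_gaussianReal (μ := 0) (v := θ) z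
  simpa [complexMGF, gs] using h

lemma gs_exp (θ : ℝ≥0) (a : ℝ) : ∫ u : ℝ, Real.exp (a * u) ∂gs θ = Real.exp (θ * a ^ 2 / 2) := by
  have h := congrFun (mgf_id_gaussianReal (μ := 0) (v := θ)) a
  simpa [mgf, gs] using h

lemma exp_abs_le (a u : ℝ) : Real.exp (a * |u|) ≤ Real.exp (a * u) + Real.exp (-a * u) := by
  rcases abs_cases u with ⟨h, _⟩ | ⟨h, _⟩
  · rw [h]; linarith [Real.exp_pos (-a * u)]
  · rw [h, show a * -u = -a * u by ring]; linarith [Real.exp_pos (a * u)]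

lemma gs_exp_abs_int (θ : ℝ≥0) (a : ℝ) : Integrable (fun u : ℝ => Real.exp (a * |u|)) (gs θ) := by
  refine ((gs_exp_int θ a).add (gs_exp_int θ (-a))).mono' (by fun_prop)
    (Eventually.of_forall fun u => ?_)
  rw [Real.norm_eq_abs, abs_of_pos (Real.exp_pos _)]
  exact exp_abs_le a u

lemma gs_exp_abs (θ : ℝ≥0) (a : ℝ) :
    ∫ u : ℝ, Real.exp (a * |u|) ∂gs θ ≤ 2 * Real.exp (θ * a ^ 2 / 2) := by
  calc ∫ u : ℝ, Real.exp (a * |u|) ∂gs θ
      ≤ ∫ u : ℝ, (Real.exp (a * u) + Real.exp (-a * u)) ∂gs θ :=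
        integral_mono (gs_exp_abs_int θ a) ((gs_exp_int θ a).add (gs_exp_int θ (-a)))
          fun u => exp_abs_le a u
    _ = 2 * Real.exp (θ * a ^ 2 / 2) := by
        rw [integral_add (gs_exp_int θ a) (gs_exp_int θ (-a)), gs_exp, gs_exp]
        ring_nf

/-- lower bound for `∫ exp(-a|u|)` -/
lemma gs_exp_neg_abs (θ : ℝ≥0) (a : ℝ) :
    1 ≤ 2 * Real.exp (θ * a ^ 2 / 2) * ∫ u : ℝ, Real.exp (-a * |u|) ∂gs θ := by
  set E := 2 * Real.exp (θ * a ^ 2 / 2) with hE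
  have hE0 : 0 < E := by positivity
  have h1 : ∀ u : ℝ, (2:ℝ) ≤ E * Real.exp (-a * |u|) + E⁻¹ * Real.exp (a * |u|) := by
    intro u
    have e1 : Real.exp (-a * |u|) * Real.exp (a * |u|) = 1 := by
      rw [← Real.exp_add]; ring_nf; exact Real.exp_zero
    have e2 : (E * Real.exp (-a * |u|)) * (E⁻¹ * Real.exp (a * |u|)) = 1 := by
      rw [mul_mul_mul_comm, e1, mul_inv_cancel₀ hE0.ne', one_mul]
    have p1 : 0 < E * Real.exp (-a * |u|) := by positivity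
    have p2 : 0 < E⁻¹ * Real.exp (a * |u|) := by positivity
    nlinarith [sq_nonneg (E * Real.exp (-a * |u|) - E⁻¹ * Real.exp (a * |u|))]
  have i1 : Integrable (fun u : ℝ => E * Real.exp (-a * |u|) + E⁻¹ * Real.exp (a * |u|)) (gs θ) :=
    ((gs_exp_abs_int θ (-a)).const_mul E).add ((gs_exp_abs_int θ a).const_mul E⁻¹)
  have h2 := integral_mono (μ := gs θ) (integrable_const (2:ℝ)) i1 h1
  rw [integral_const, probReal_univ, one_smul, integral_add ((gs_exp_abs_int θ (-a)).const_mul E)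
    ((gs_exp_abs_int θ a).const_mul E⁻¹), integral_const_mul, integral_const_mul] at h2
  have h3 : E⁻¹ * ∫ u : ℝ, Real.exp (a * |u|) ∂gs θ ≤ 1 := by
    rw [inv_mul_le_iff₀ hE0, mul_one]
    exact gs_exp_abs θ a
  linarith

/-- density of the Gaussian measure -/
noncomputable def gd (θ : ℝ≥0) (s : ℝ) : ℝ := gaussianPDFReal 0 θ s

lemma gd_nonneg (θ : ℝ≥0) (s : ℝ) : 0 ≤ gd θ s := gaussianPDFReal_nonneg _ _ _

lemma gd_meas (θ : ℝ≥0) : Measurable (gd θ) := measurable_gaussianPDFReal _ _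

lemma gd_neg (θ : ℝ≥0) (s : ℝ) : gd θ (-s) = gd θ s := by
  unfold gd gaussianPDFReal; simp

lemma gs_integral {E : Type*} [NormedAddCommGroup E] [NormedSpace ℝ E] {θ : ℝ≥0} (h : θ ≠ 0)
    (f : ℝ → E) : ∫ u, f u ∂gs θ = ∫ u, gd θ u • f u :=
  integral_gaussianReal_eq_integral_smul h

lemma gd_eq (θ : ℝ≥0) (s : ℝ) : gd θ s = (√(2 * Real.pi * θ))⁻¹ * Real.exp (-s ^ 2 / (2 * θ)) := by
  unfold gd gaussianPDFReal; simp

lemma quad_int {b : ℝ} (hb : 0 < b) (c d : ℂ) :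
    Integrable (fun y : ℝ => cexp (-(b:ℂ) * (y:ℂ) ^ 2 + c * y + d)) := by
  have := integrable_cexp_quadratic' (b := -(b:ℂ)) (by simpa using hb) c d
  exact this

/-- the density as an inverse Laplace transform -/
lemma gd_rep {θ : ℝ≥0} (h : θ ≠ 0) (x s : ℝ) :
    ((gd θ s : ℝ) : ℂ) = (1 / (2 * Real.pi) : ℝ) *
      ∫ y : ℝ, cexp (θ * ((x:ℂ) + y * I) ^ 2 / 2 + ((x:ℂ) + y * I) * s) := by
  have hθ : (0:ℝ) < θ := by positivity
  have hθc : (θ : ℂ) ≠ 0 := by exact_mod_cast hθ.ne'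
  have e : ∀ y : ℝ, cexp (θ * ((x:ℂ) + y * I) ^ 2 / 2 + ((x:ℂ) + y * I) * s) =
      cexp (-(θ / 2 : ℂ) * (y:ℂ) ^ 2 + (I * (θ * x + s)) * y + (θ * x ^ 2 / 2 + x * s)) := by
    intro y
    congr 1
    have : (I:ℂ) ^ 2 = -1 := I_sq
    linear_combination (θ * (y:ℂ) ^ 2 / 2) * this
  simp_rw [e]
  have h0 := integral_cexp_quadratic (b := -(θ / 2 : ℂ)) (by
      have : ((θ : ℂ) / 2).re = (θ : ℝ) / 2 := by
        rw [show ((θ : ℂ) / 2) = (((θ : ℝ) / 2 : ℝ) : ℂ) by push_cast; rfl, ofReal_re]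
      rw [neg_re, this]; linarith) (I * (θ * x + s))
      (θ * x ^ 2 / 2 + x * s)
  rw [h0, gd_eq]
  have e2 : (θ:ℂ) * x ^ 2 / 2 + x * s - (I * (θ * x + s)) ^ 2 / (4 * -(θ / 2 : ℂ)) =
      ((-s ^ 2 / (2 * θ) : ℝ) : ℂ) := by
    push_cast
    rw [mul_pow, I_sq]
    field_simp
    ring
  rw [e2]
  have e3 : ((Real.pi : ℂ) / -(-(θ / 2 : ℂ))) ^ (1 / 2 : ℂ) = ((√(2 * Real.pi / θ) : ℝ) : ℂ) := by
    rw [neg_neg, Real.sqrt_eq_rpow, Complex.ofReal_cpow (by positivity)]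
    push_cast
    congr 1
    field_simp
  rw [e3]
  have e4 : (√(2 * Real.pi * θ))⁻¹ = (1 / (2 * Real.pi)) * √(2 * Real.pi / θ) := by
    have hp : 0 < Real.pi := Real.pi_pos
    rw [Real.sqrt_div' _ hθ.le, Real.sqrt_mul' _ hθ.le]
    have h1 : √(2 * Real.pi) * √(2 * Real.pi) = 2 * Real.pi := Real.mul_self_sqrt (by positivity)
    have h2 : 0 < √(2 * Real.pi) := by positivity
    have h3 : 0 < √(θ : ℝ) := by positivity
    field_simp
    nlinarith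
  rw [← Complex.ofReal_exp]
  push_cast
  rw [← Complex.ofReal_inv, e4]
  push_cast
  ring

lemma rep_int {θ : ℝ≥0} (h : θ ≠ 0) (x : ℝ) (s : ℝ) :
    Integrable (fun y : ℝ => cexp (θ * ((x:ℂ) + y * I) ^ 2 / 2 + ((x:ℂ) + y * I) * s)) := by
  have hθ : (0:ℝ) < θ := by positivity
  have e : ∀ y : ℝ, cexp (θ * ((x:ℂ) + y * I) ^ 2 / 2 + ((x:ℂ) + y * I) * s) =
      cexp (-((θ / 2 : ℝ) : ℂ) * (y:ℂ) ^ 2 + (I * (θ * x + s)) * y + (θ * x ^ 2 / 2 + x * s)) := by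
    intro y
    congr 1
    have : (I:ℂ) ^ 2 = -1 := I_sq
    push_cast
    linear_combination (θ * (y:ℂ) ^ 2 / 2) * this
  simp_rw [e]
  exact quad_int (by positivity) _ _

end Pool.Agent.V8H22.OSC
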