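import Pool.Agent.V8H22.OSC.Gau

/-!
# Laplace transforms over a set
-/

set_option autoImplicit false

open MeasureTheory ProbabilityTheory Complex Set Filter Topology
open scoped NNReal ENNReal

namespace Pool.Agent.V8H22.OSC

/-- the Laplace transform of `F` restricted to `S` -/
noncomputable def Lap (S : Set ℝ) (F : ℝ → ℝ) (z : ℂ) : ℂ :=
  ∫ t in S, ((F t : ℝ) : ℂ) * cexp (-z * t)

/-- weighted integrability on `S` -/
def WI (S : Set ℝ) (F : ℝ → ℝ) (x : ℝ) : Prop :=
  IntegrableOn (fun t => |F t| * Real.exp (-x * t)) S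

lemma norm_kern (F : ℝ → ℝ) (z : ℂ) (t : ℝ) :
    ‖((F t : ℝ) : ℂ) * cexp (-z * t)‖ = |F t| * Real.exp (-z.re * t) := by
  rw [norm_mul, Complex.norm_real, Real.norm_eq_abs, Complex.norm_exp]
  simp

lemma kern_int {S : Set ℝ} {F : ℝ → ℝ} (hF : Measurable F) {z : ℂ} (h : WI S F z.re) :
    IntegrableOn (fun t : ℝ => ((F t : ℝ) : ℂ) * cexp (-z * t)) S := by
  refine Integrable.mono' h ?_ (Eventually.of_forall fun t => (norm_kern F z t).le)
  exact ((Complex.measurable_ofReal.comp hF).mul (by fun_prop)).aestronglyMeasurable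

lemma Lap_norm {S : Set ℝ} {F : ℝ → ℝ} (z : ℂ) :
    ‖Lap S F z‖ ≤ ∫ t in S, |F t| * Real.exp (-z.re * t) := by
  unfold Lap
  refine (norm_integral_le_integral_norm _).trans (le_of_eq ?_)
  exact integral_congr_ae (Eventually.of_forall fun t => norm_kern F z t)

lemma exp_sum_bound {x0 r x t : ℝ} (hr : 0 < r) (hx : |x - x0| ≤ r) :
    |t| * Real.exp (-x * t) ≤
      r⁻¹ * (Real.exp (-(x0 - 2 * r) * t) + Real.exp (-(x0 + 2 * r) * t)) := by
  have h1 : |t| ≤ r⁻¹ * Real.exp (r * |t|) := by
    rw [← div_eq_inv_mul, le_div_iff₀ hr]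
    have := Real.add_one_le_exp (r * |t|)
    linarith [this, mul_comm |t| r]
  have h2 : Real.exp (r * |t|) * Real.exp (-x * t) ≤
      Real.exp (-(x0 - 2 * r) * t) + Real.exp (-(x0 + 2 * r) * t) := by
    have h3 : -x * t ≤ -x0 * t + r * |t| := by
      have : -(x - x0) * t ≤ r * |t| := by
        calc -(x - x0) * t ≤ |-(x - x0) * t| := le_abs_self _
          _ = |x - x0| * |t| := by rw [abs_mul, abs_neg]
          _ ≤ r * |t| := mul_le_mul_of_nonneg_right hx (abs_nonneg _)
      linarith
    have h4 := exp_abs_le (2 * r) t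
    calc Real.exp (r * |t|) * Real.exp (-x * t)
        ≤ Real.exp (r * |t|) * Real.exp (-x0 * t + r * |t|) :=
          mul_le_mul_of_nonneg_left (Real.exp_le_exp.2 h3) (Real.exp_pos _).le
      _ = Real.exp (-x0 * t) * Real.exp (2 * r * |t|) := by
          rw [← Real.exp_add, ← Real.exp_add]; ring_nf
      _ ≤ Real.exp (-x0 * t) * (Real.exp (2 * r * t) + Real.exp (-(2 * r) * t)) :=
          mul_le_mul_of_nonneg_left h4 (Real.exp_pos _).le
      _ = _ := by
          rw [mul_add, ← Real.exp_add, ← Real.exp_add]; ring_nf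
  calc |t| * Real.exp (-x * t) ≤ r⁻¹ * Real.exp (r * |t|) * Real.exp (-x * t) :=
        mul_le_mul_of_nonneg_right h1 (Real.exp_pos _).le
    _ = r⁻¹ * (Real.exp (r * |t|) * Real.exp (-x * t)) := by ring
    _ ≤ _ := mul_le_mul_of_nonneg_left h2 (inv_nonneg.2 hr.le)

/-- differentiability of the Laplace transform -/
lemma Lap_diffAt {S : Set ℝ} {F : ℝ → ℝ} (hF : Measurable F) {a b : ℝ}
    (h : ∀ x, a < x → x < b → WI S F x) {z : ℂ} (ha : a < z.re) (hb : z.re < b) :
    DifferentiableAt ℂ (Lap S F) z := by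
  obtain ⟨r, hr, h1, h2⟩ : ∃ r : ℝ, 0 < r ∧ a < z.re - 2 * r ∧ z.re + 2 * r < b := by
    refine ⟨min (z.re - a) (b - z.re) / 4, by
      have : 0 < min (z.re - a) (b - z.re) := lt_min (by linarith) (by linarith)
      positivity, ?_, ?_⟩
    · have := min_le_left (z.re - a) (b - z.re); linarith
    · have := min_le_right (z.re - a) (b - z.re); linarith
  have hI1 := h (z.re - 2 * r) h1 (by linarith)
  have hI2 := h (z.re + 2 * r) (by linarith) h2
  have hI0 := h z.re ha hb
  have hd := hasDerivAt_integral_of_dominated_loc_of_deriv_le (μ := volume.restrict S)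
    (F := fun (w : ℂ) (t : ℝ) => ((F t : ℝ) : ℂ) * cexp (-w * t))
    (F' := fun (w : ℂ) (t : ℝ) => ((F t : ℝ) : ℂ) * (cexp (-w * t) * (-t)))
    (x₀ := z) (s := Metric.ball z r)
    (bound := fun t => r⁻¹ * (|F t| * Real.exp (-(z.re - 2 * r) * t) +
      |F t| * Real.exp (-(z.re + 2 * r) * t)))
    (Metric.ball_mem_nhds z hr)
    (Eventually.of_forall fun w =>
      ((Complex.measurable_ofReal.comp hF).mul (by fun_prop)).aestronglyMeasurable)
    (kern_int hF hI0)
    ((Complex.measurable_ofReal.comp hF).mul (by fun_prop)).aestronglyMeasurable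
    (Eventually.of_forall fun t w hw => ?_)
    ((hI1.add hI2).const_mul _)
    (Eventually.of_forall fun t w _ => ?_)
  · exact hd.2.differentiableAt
  · have hw' : |w.re - z.re| ≤ r := by
      have : ‖w - z‖ < r := by rwa [← dist_eq_norm]
      have h3 := Complex.abs_re_le_norm (w - z)
      rw [Complex.sub_re] at h3
      linarith
    rw [norm_mul, norm_mul, Complex.norm_real, Real.norm_eq_abs, norm_neg, Complex.norm_real,
      Real.norm_eq_abs, Complex.norm_exp]
    have e : (-w * (t:ℂ)).re = -w.re * t := by simp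
    rw [e]
    have := exp_sum_bound (t := t) hr hw'
    calc |F t| * (Real.exp (-w.re * t) * |t|) = |F t| * (|t| * Real.exp (-w.re * t)) := by ring
      _ ≤ |F t| * (r⁻¹ * (Real.exp (-(z.re - 2 * r) * t) + Real.exp (-(z.re + 2 * r) * t))) :=
        mul_le_mul_of_nonneg_left this (abs_nonneg _)
      _ = _ := by ring
  · have h5 : HasDerivAt (fun w : ℂ => -w * (t:ℂ)) (-(t:ℂ)) w := by
      simpa using (hasDerivAt_id w).neg.mul_const (t:ℂ)
    exact (h5.cexp).const_mul _

/-- Fubini for a superposition of exponentials -/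
lemma Lap_swap {S : Set ℝ} {F : ℝ → ℝ} (hF : Measurable F) {x : ℝ}
    (h : WI S F x) {k : ℝ → ℂ} (hk : Integrable k) :
    Integrable (fun y : ℝ => k y * Lap S F (x + y * I)) ∧
    ∫ t in S, ((F t : ℝ) : ℂ) * (∫ y : ℝ, k y * cexp (-(x + y * I) * t)) =
      ∫ y : ℝ, k y * Lap S F (x + y * I) := by
  have hre : ∀ y : ℝ, ((x:ℂ) + y * I).re = x := by intro y; simp
  have hint : Integrable (fun p : ℝ × ℝ => k p.1 * (((F p.2 : ℝ) : ℂ) *
      cexp (-(x + p.1 * I) * p.2))) (volume.prod (volume.restrict S)) := by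
    have h1 : Integrable (fun p : ℝ × ℝ => k p.1 * ((|F p.2| * Real.exp (-x * p.2) : ℝ) : ℂ))
        (volume.prod (volume.restrict S)) := hk.mul_prod (Integrable.ofReal h)
    refine h1.norm.mono' ?_ (Eventually.of_forall fun p => ?_)
    · refine hk.1.comp_fst.mul (Measurable.aestronglyMeasurable ?_)
      exact (Complex.measurable_ofReal.comp (hF.comp measurable_snd)).mul (by fun_prop)
    · rw [norm_mul, norm_kern, hre, norm_mul, Complex.norm_real, Real.norm_eq_abs,
        abs_of_nonneg (a := |F p.2| * Real.exp (-x * p.2)) (by positivity)]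
  constructor
  · have := hint.integral_prod_left
    refine this.congr (Eventually.of_forall fun y => ?_)
    simp only
    rw [integral_const_mul]
    rfl
  · have h2 := integral_integral_swap (f := fun (y : ℝ) (t : ℝ) => k y * (((F t : ℝ) : ℂ) *
      cexp (-(x + y * I) * t))) (μ := volume) (ν := volume.restrict S) hint
    have h3 : ∀ t : ℝ, ((F t : ℝ) : ℂ) * (∫ y : ℝ, k y * cexp (-(x + y * I) * t)) =
        ∫ y : ℝ, k y * (((F t : ℝ) : ℂ) * cexp (-(x + y * I) * t)) := by
      intro t
      rw [← integral_const_mul]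
      refine integral_congr_ae (Eventually.of_forall fun y => ?_)
      simp only
      ring
    simp_rw [h3]
    rw [← h2]
    refine integral_congr_ae (Eventually.of_forall fun y => ?_)
    simp only
    rw [integral_const_mul]
    rfl

end Pool.Agent.V8H22.OSC
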