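import Pool.Agent.V8H22.OSC.Lap

/-!
# Gaussian smoothing of a function of exponential growth vanishing on the negative axis
-/

set_option autoImplicit false

open MeasureTheory ProbabilityTheory Complex Set Filter Topology
open scoped NNReal ENNReal

namespace Pool.Agent.V8H22.OSC

/-- Gaussian smoothing -/
noncomputable def sm (θ : ℝ≥0) (f : ℝ → ℝ) (v : ℝ) : ℝ := ∫ u, f (v + u) ∂gs θ

/-- growth condition (it forces `f` to vanish on the negative axis) -/
def Gr (f : ℝ → ℝ) (K ε : ℝ) : Prop := ∀ a, ε ≤ a → ∀ v, |f v| ≤ K * Real.exp (a * v)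

variable {f : ℝ → ℝ} {K ε : ℝ} {θ s : ℝ≥0}

lemma sm_meas (hf : Measurable f) : Measurable (sm θ f) := by
  have h : StronglyMeasurable (fun p : ℝ × ℝ => f (p.1 + p.2)) :=
    (hf.comp (measurable_fst.add measurable_snd)).stronglyMeasurable
  exact (h.integral_prod_right (ν := gs θ)).measurable

lemma sm_zero : sm 0 f = f := by
  funext v
  unfold sm
  rw [gs_zero, integral_dirac]
  simp

lemma sm_int (hf : Measurable f) (hg : Gr f K ε) (v : ℝ) :
    Integrable (fun u => f (v + u)) (gs θ) := by
  refine ((gs_exp_int θ ε).const_mul (K * Real.exp (ε * v))).mono'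
    (hf.comp (measurable_const.add measurable_id)).aestronglyMeasurable
    (Eventually.of_forall fun u => ?_)
  rw [Real.norm_eq_abs, mul_assoc, ← Real.exp_add, ← mul_add]
  exact hg ε le_rfl _

lemma sm_bound (hg : Gr f K ε) {a : ℝ} (ha : ε ≤ a) (v : ℝ) :
    |sm θ f v| ≤ K * Real.exp (a * v + θ * a ^ 2 / 2) := by
  unfold sm
  rw [← Real.norm_eq_abs]
  calc ‖∫ u, f (v + u) ∂gs θ‖ ≤ ∫ u, K * Real.exp (a * v) * Real.exp (a * u) ∂gs θ := by
        refine norm_integral_le_of_norm_le ((gs_exp_int θ a).const_mul _)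
          (Eventually.of_forall fun u => ?_)
        rw [Real.norm_eq_abs, mul_assoc, ← Real.exp_add, ← mul_add]
        exact hg a ha _
    _ = K * Real.exp (a * v + θ * a ^ 2 / 2) := by
        rw [integral_const_mul, gs_exp, Real.exp_add]; ring

lemma K_nonneg (hg : Gr f K ε) : 0 ≤ K := by
  have := (abs_nonneg _).trans (hg ε le_rfl 0)
  simpa using this

/-- the semigroup property -/
lemma sm_add (hf : Measurable f) (hg : Gr f K ε) (v : ℝ) :
    sm (θ + s) f v = ∫ u, sm θ f (v + u) ∂gs s := by
  have e : gs (θ + s) = Measure.map (fun p : ℝ × ℝ => p.1 + p.2) ((gs s).prod (gs θ)) := by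
    have := gaussianReal_conv_gaussianReal (m₁ := 0) (m₂ := 0) (v₁ := s) (v₂ := θ)
    unfold gs
    rw [add_comm θ s]
    rw [Measure.conv, add_zero] at this
    exact this.symm
  have hint : Integrable (fun p : ℝ × ℝ => f (v + (p.1 + p.2))) ((gs s).prod (gs θ)) := by
    have h1 : Integrable (fun p : ℝ × ℝ => (K * Real.exp (ε * v)) * (Real.exp (ε * p.1) *
        Real.exp (ε * p.2))) ((gs s).prod (gs θ)) :=
      ((gs_exp_int s ε).mul_prod (gs_exp_int θ ε)).const_mul _
    refine h1.mono' (hf.comp (by fun_prop)).aestronglyMeasurable (Eventually.of_forall fun p => ?_)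
    rw [Real.norm_eq_abs, mul_assoc, ← Real.exp_add, ← Real.exp_add, ← mul_add, ← mul_add]
    exact hg ε le_rfl _
  unfold sm
  have hm : Measurable (fun u => f (v + u)) := hf.comp (measurable_const.add measurable_id)
  rw [e, integral_map (f := fun u => f (v + u)) (by fun_prop) hm.aestronglyMeasurable,
    integral_prod _ hint]
  refine integral_congr_ae (Eventually.of_forall fun u => ?_)
  refine integral_congr_ae (Eventually.of_forall fun w => ?_)
  simp only
  rw [add_assoc]

/-- weighted integrability on the positive axis -/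
lemma WI_pos {F : ℝ → ℝ} (hF : Measurable F) {M a x : ℝ} (hx : a < x)
    (h : ∀ t, |F t| ≤ M * Real.exp (a * t)) : WI (Ioi 0) F x := by
  have h1 : IntegrableOn (fun t => M * Real.exp (-(x - a) * t)) (Ioi 0) :=
    (exp_neg_integrableOn_Ioi 0 (by linarith)).const_mul M
  refine Integrable.mono' h1 ?_ (Eventually.of_forall fun t => ?_)
  · exact (hF.abs.mul (by fun_prop)).aestronglyMeasurable
  · rw [Real.norm_eq_abs, abs_of_nonneg (by positivity)]
    calc |F t| * Real.exp (-x * t) ≤ M * Real.exp (a * t) * Real.exp (-x * t) :=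
          mul_le_mul_of_nonneg_right (h t) (Real.exp_pos _).le
      _ = _ := by rw [mul_assoc, ← Real.exp_add]; ring_nf

lemma exp_integrableOn_Iic {b : ℝ} (hb : 0 < b) : IntegrableOn (fun t : ℝ => Real.exp (b * t)) (Iic 0) := by
  have h := exp_neg_integrableOn_Ioi 0 hb
  rw [← integrableOn_Ici_iff_integrableOn_Ioi] at h
  have h2 := h.comp_neg
  simpa using h2

/-- weighted integrability on the negative axis -/
lemma WI_neg {F : ℝ → ℝ} (hF : Measurable F) {M a x : ℝ} (hx : x < a)
    (h : ∀ t, |F t| ≤ M * Real.exp (a * t)) : WI (Iic 0) F x := by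
  have h1 : IntegrableOn (fun t => M * Real.exp ((a - x) * t)) (Iic 0) :=
    (exp_integrableOn_Iic (by linarith)).const_mul M
  refine Integrable.mono' h1 ?_ (Eventually.of_forall fun t => ?_)
  · exact (hF.abs.mul (by fun_prop)).aestronglyMeasurable
  · rw [Real.norm_eq_abs, abs_of_nonneg (by positivity)]
    calc |F t| * Real.exp (-x * t) ≤ M * Real.exp (a * t) * Real.exp (-x * t) :=
          mul_le_mul_of_nonneg_right (h t) (Real.exp_pos _).le
      _ = _ := by rw [mul_assoc, ← Real.exp_add]; ring_nf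

lemma WI_univ {F : ℝ → ℝ} {x : ℝ} (h1 : WI (Ioi 0) F x) (h2 : WI (Iic 0) F x) : WI univ F x := by
  unfold WI at *
  rw [← Iic_union_Ioi (a := (0:ℝ))]
  exact h2.union h1

lemma Lap_split {F : ℝ → ℝ} (hF : Measurable F) {z : ℂ} (h1 : WI (Ioi 0) F z.re)
    (h2 : WI (Iic 0) F z.re) : Lap univ F z = Lap (Iic 0) F z + Lap (Ioi 0) F z := by
  unfold Lap
  rw [setIntegral_univ]
  exact (intervalIntegral.integral_Iic_add_Ioi (kern_int hF h2) (kern_int hF h1)).symm

lemma Lap_shift (F : ℝ → ℝ) (V : ℝ) (z : ℂ) :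
    Lap univ (fun t => F (V + t)) z = cexp (z * V) * Lap univ F z := by
  unfold Lap
  rw [setIntegral_univ, setIntegral_univ, ← integral_const_mul]
  rw [← integral_add_left_eq_self (μ := volume)
    (fun t => cexp (z * V) * (((F t : ℝ) : ℂ) * cexp (-z * t))) V]
  refine integral_congr_ae (Eventually.of_forall fun t => ?_)
  simp only
  rw [mul_left_comm, ← Complex.exp_add]
  congr 2
  push_cast
  ring

/-- the Laplace transform of the Gaussian smoothing -/
lemma Lap_sm (hf : Measurable f) {z : ℂ} (h : WI univ f z.re) :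
    Lap univ (sm θ f) z = cexp (θ * z ^ 2 / 2) * Lap univ f z := by
  have hT : MeasurePreserving (fun p : ℝ × ℝ => (p.1, p.2 + p.1)) ((gs θ).prod volume)
      ((gs θ).prod volume) := by
    refine (MeasurePreserving.id (gs θ)).skew_product (g := fun u t => t + u) (by fun_prop)
      (Eventually.of_forall fun u => ?_)
    exact map_add_right_eq_self volume u
  have h0 : Integrable (fun t : ℝ => ((f t : ℝ) : ℂ) * cexp (-z * t)) := by
    have := kern_int hf h
    rwa [integrableOn_univ] at this
  have h1 : Integrable (fun p : ℝ × ℝ => cexp (z * p.1) * (((f p.2 : ℝ) : ℂ) * cexp (-z * p.2)))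
      ((gs θ).prod volume) := (gs_cexp_int θ z).mul_prod h0
  have h2 : Integrable (fun p : ℝ × ℝ => cexp (z * p.1) * (((f (p.2 + p.1) : ℝ) : ℂ) *
      cexp (-z * (p.2 + p.1 : ℝ)))) ((gs θ).prod volume) := by
    have := hT.integrable_comp_of_integrable h1
    exact this
  have e1 : ∀ u t : ℝ, cexp (z * u) * (((f (t + u) : ℝ) : ℂ) * cexp (-z * (t + u : ℝ))) =
      ((f (t + u) : ℝ) : ℂ) * cexp (-z * t) := by
    intro u t
    rw [mul_left_comm, ← Complex.exp_add]
    congr 2
    push_cast
    ring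
  have h3 := integral_integral_swap (f := fun (u t : ℝ) => cexp (z * u) *
    (((f (t + u) : ℝ) : ℂ) * cexp (-z * (t + u : ℝ)))) h2
  have e2 : Lap univ (sm θ f) z = ∫ t : ℝ, ∫ u : ℝ, cexp (z * u) *
    (((f (t + u) : ℝ) : ℂ) * cexp (-z * (t + u : ℝ))) ∂gs θ := by
    unfold Lap sm
    rw [setIntegral_univ]
    refine integral_congr_ae (Eventually.of_forall fun t => ?_)
    simp only
    simp_rw [e1]
    rw [integral_mul_const]
    congr 1
    exact integral_ofReal.symm
  rw [e2, ← h3]
  have e3 : ∀ u : ℝ, ∫ t : ℝ, cexp (z * u) * (((f (t + u) : ℝ) : ℂ) * cexp (-z * (t + u : ℝ))) =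
      cexp (z * u) * Lap univ f z := by
    intro u
    rw [integral_const_mul]
    congr 1
    unfold Lap
    rw [setIntegral_univ]
    exact integral_add_right_eq_self (μ := volume)
      (fun t => ((f t : ℝ) : ℂ) * cexp (-z * t)) u
  simp_rw [e3]
  rw [integral_mul_const, gs_cexp]

end Pool.Agent.V8H22.OSC
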