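import Pool.Agent.H353R2.Z1

/-!
# A lower bound for `(s-1)ζ(s)` away from the critical line, under the Riemann hypothesis
-/

set_option autoImplicit false
set_option maxHeartbeats 1000000

open Complex Set Filter Topology Metric
open H353 (FF mu mu_cast zeros_finite quot_bound count_bound FF_bound FF_lower)

namespace Pool.Agent.V8H22.OSC

lemma FF_zero_half (hRH : RiemannHypothesis) {s : ℂ} (h : FF s = 0) (h0 : 0 < s.re) :
    s.re = 1 / 2 := by
  have h1 : s ≠ 1 := by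
    rintro rfl
    rw [show FF 1 = 1 from ZU.J_g2b.FF_one] at h
    exact one_ne_zero h
  rw [show FF s = (s - 1) * riemannZeta s from ZU.J_g2b.FF_ne h1] at h
  have h2 : riemannZeta s = 0 := by
    rcases mul_eq_zero.1 h with h | h
    · exact absurd (sub_eq_zero.1 h) h1
    · exact h
  refine hRH s h2 ?_ h1
  rintro ⟨n, hn⟩
  rw [hn] at h0
  simp at h0
  have : (0:ℝ) ≤ n := Nat.cast_nonneg n
  linarith

lemma sphere_bound (t : ℝ) {w : ℂ} (hw : w ∈ sphere ((2:ℂ) + t * I) (1.8:ℝ)) :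
    ‖FF w‖ ≤ 11 * (5 + |t|) ^ 2 := by
  set c : ℂ := 2 + t * I with hc
  have hcre : c.re = 2 := by simp [hc]
  rw [mem_sphere, dist_eq_norm] at hw
  have h1 := Complex.abs_re_le_norm (w - c)
  rw [hw, Complex.sub_re, hcre, abs_le] at h1
  have h2 := FF_bound 0.1 (by norm_num) w (by linarith)
  refine h2.trans ?_
  have h3 : ‖w‖ ≤ 4 + |t| := by
    have e1 : ‖w‖ ≤ ‖w - c‖ + ‖c‖ := by
      have := norm_add_le (w - c) c
      simpa using this
    have e2 : ‖c‖ ≤ 2 + |t| := by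
      rw [hc]
      refine (norm_add_le _ _).trans ?_
      simp
    linarith
  have h4 : (1 + 1 / (0.1:ℝ)) = 11 := by norm_num
  rw [h4]
  have := norm_nonneg w
  have h5 : (1 + ‖w‖) ^ 2 ≤ (5 + |t|) ^ 2 := pow_le_pow_left₀ (by positivity) (by linarith) 2
  linarith

/-- Under RH, `(s-1)ζ(s)` is at least a negative power of `3 + |Im s|` at a positive distance from the critical
line. -/
theorem FF_low (hRH : RiemannHypothesis) {η : ℝ} (hη : 0 < η) :
    ∃ K : ℝ, 1 ≤ K ∧ ∃ m : ℕ, ∀ v : ℂ, 2 / 5 ≤ v.re → v.re ≤ 2 → η ≤ |v.re - 1 / 2| →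
      1 ≤ K * (3 + |v.im|) ^ m * ‖FF v‖ := by
  classical
  obtain ⟨b, hb⟩ := pow_unbounded_of_one_lt (4 / η) (show (1:ℝ) < 18 / 17 by norm_num)
  refine ⟨2 * 88 ^ (b + 32), ?_, 2 * (b + 32), fun v hv1 hv2 hv3 => ?_⟩
  · have : (1:ℝ) ≤ 88 ^ (b + 32) := one_le_pow₀ (by norm_num)
    linarith
  set t := v.im with ht
  set c : ℂ := 2 + t * I with hc
  have hcre : c.re = 2 := by simp [hc]
  have hcim : c.im = t := by simp [hc]
  set M : ℝ := 11 * (5 + |t|) ^ 2 with hM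
  have hM1 : 1 ≤ M := by
    have := abs_nonneg t
    rw [hM]; nlinarith
  have hfin := zeros_finite (closedBall c (1.7:ℝ)) (isCompact_closedBall _ _)
  set S : Finset ℂ := hfin.toFinset with hS
  have hmem : ∀ ρ, ρ ∈ S ↔ FF ρ = 0 ∧ ρ ∈ closedBall c (1.7:ℝ) := by
    intro ρ
    rw [hS, Set.Finite.mem_toFinset]
    rfl
  have hre : ∀ ρ ∈ S, ρ.re = 1 / 2 := by
    intro ρ hρ
    obtain ⟨h1, h2⟩ := (hmem ρ).1 hρ
    refine FF_zero_half hRH h1 ?_
    rw [mem_closedBall, dist_eq_norm] at h2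
    have h3 := Complex.abs_re_le_norm (ρ - c)
    rw [Complex.sub_re, hcre] at h3
    have := (abs_le.1 (h3.trans h2)).1
    linarith
  have hFc : 1 / 2 ≤ ‖FF c‖ := FF_lower c (by rw [hcre])
  have hFc0 : FF c ≠ 0 := by
    intro h
    rw [h, norm_zero] at hFc
    linarith
  set N := ∑ ρ ∈ S, mu ρ with hN
  -- number of zeros
  have hcount := count_bound univ isOpen_univ FF ZU.J_g2b.FF_diff.differentiableOn c 1.7 1.8 M
    (by norm_num) (by norm_num) (subset_univ _) (fun w hw => sphere_bound t hw) S mu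
    (fun ρ hρ => ((hmem ρ).1 hρ).2) (fun ρ _ => (mu_cast ρ).le)
  have hpow : ((18:ℝ) / 17) ^ N ≤ 2 * M := by
    have e : ((1.8:ℝ) / 1.7) = 18 / 17 := by norm_num
    rw [e] at hcount
    have hp : 0 < ((18:ℝ) / 17) ^ N := by positivity
    nlinarith
  -- the comparison function
  set Kf : ℂ → ℂ := fun w => ∏ ρ ∈ S, ((w - ρ) / 4) ^ mu ρ with hKf
  have hKd : Differentiable ℂ Kf := by
    rw [hKf]
    fun_prop
  have hK1 : ∀ w ∈ sphere c (1.8:ℝ), ‖Kf w‖ ≤ 1 := by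
    intro w hw
    rw [hKf]
    simp only
    rw [norm_prod]
    refine Finset.prod_le_one (fun _ _ => norm_nonneg _) fun ρ hρ => ?_
    rw [norm_pow]
    refine pow_le_one₀ (norm_nonneg _) ?_
    have h2 := ((hmem ρ).1 hρ).2
    rw [mem_closedBall, dist_eq_norm] at h2
    rw [mem_sphere, dist_eq_norm] at hw
    have h3 : ‖w - ρ‖ ≤ ‖w - c‖ + ‖ρ - c‖ := by
      have := norm_sub_le (w - c) (ρ - c)
      simpa using this
    rw [norm_div]
    norm_num
    rw [div_le_one (by norm_num)]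
    norm_num at *
    linarith
  have hn2 : ∀ ρ ∈ S, (mu ρ : ℕ∞) ≤ analyticOrderAt Kf ρ := by
    intro ρ hρ
    rw [natCast_le_analyticOrderAt (hKd.analyticAt ρ)]
    refine ⟨fun w => (1 / 4) ^ mu ρ * ∏ ρ' ∈ S.erase ρ, ((w - ρ') / 4) ^ mu ρ', ?_, ?_⟩
    · have : Differentiable ℂ (fun w : ℂ => (1 / 4 : ℂ) ^ mu ρ * ∏ ρ' ∈ S.erase ρ,
          ((w - ρ') / 4) ^ mu ρ') := by fun_prop
      exact this.analyticAt ρ
    · refine Eventually.of_forall fun w => ?_
      rw [hKf]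
      simp only
      rw [← Finset.mul_prod_erase S _ hρ, smul_eq_mul, ← mul_assoc, ← mul_pow]
      congr 2
      ring
  have hvball : v ∈ closedBall c (1.6:ℝ) := by
    rw [mem_closedBall, dist_eq_norm]
    have e : v - c = ((v.re - 2 : ℝ) : ℂ) := by
      apply Complex.ext
      · rw [Complex.sub_re, hcre, Complex.ofReal_re]
      · rw [Complex.sub_im, hcim, Complex.ofReal_im, ← ht, sub_self]
    rw [e, Complex.norm_real, Real.norm_eq_abs, abs_le]
    constructor <;> linarith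
  have hq := quot_bound univ isOpen_univ FF Kf ZU.J_g2b.FF_diff.differentiableOn
    hKd.differentiableOn c 1.6 1.7 1.8 M (by norm_num) (by norm_num) (by norm_num) (subset_univ _)
    (fun w hw => sphere_bound t hw) hK1 hFc0 S mu (fun ρ hρ => ((hmem ρ).1 hρ).2)
    (fun ρ _ => mu_cast ρ) hn2 (fun w hw hwS h0 => hwS ((hmem w).2 ⟨h0, hw⟩)) v hvball
  -- lower bound for the comparison function
  have hKv : (η / 4) ^ N ≤ ‖Kf v‖ := by
    rw [hKf, hN, ← Finset.prod_pow_eq_pow_sum]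
    simp only
    rw [norm_prod]
    refine Finset.prod_le_prod (fun _ _ => by positivity) fun ρ hρ => ?_
    rw [norm_pow]
    refine pow_le_pow_left₀ (by positivity) ?_ _
    rw [norm_div]
    have h3 := Complex.abs_re_le_norm (v - ρ)
    rw [Complex.sub_re, hre ρ hρ] at h3
    have h4 : ‖(4:ℂ)‖ = 4 := by norm_num
    rw [h4]
    have : η ≤ ‖v - ρ‖ := hv3.trans h3
    linarith
  have hexp : Real.exp (2 * Real.log (M / ‖FF c‖) * 1.6 / (1.7 - 1.6)) ≤ (2 * M) ^ 32 := by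
    have hpos : 0 < M / ‖FF c‖ := by positivity
    have e : 2 * Real.log (M / ‖FF c‖) * 1.6 / (1.7 - 1.6) = (32:ℕ) * Real.log (M / ‖FF c‖) := by
      push_cast
      norm_num
      ring
    rw [e, Real.exp_nat_mul, Real.exp_log hpos]
    refine pow_le_pow_left₀ hpos.le ?_ _
    rw [div_le_iff₀ (by positivity)]
    nlinarith
  have hFv := norm_nonneg (FF v)
  have h1 : (η / 4) ^ N * (1 / 2) ≤ ‖FF v‖ * (2 * M) ^ 32 := by
    calc (η / 4) ^ N * (1 / 2) ≤ ‖Kf v‖ * ‖FF c‖ := mul_le_mul hKv hFc (by norm_num) (norm_nonneg _)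
      _ ≤ _ := hq
      _ ≤ _ := mul_le_mul_of_nonneg_left hexp hFv
  have h2 : (4 / η) ^ N ≤ (2 * M) ^ b := by
    calc (4 / η) ^ N ≤ ((18 / 17) ^ b) ^ N := pow_le_pow_left₀ (by positivity) hb.le _
      _ = ((18 / 17) ^ N) ^ b := by rw [← pow_mul, ← pow_mul, mul_comm]
      _ ≤ (2 * M) ^ b := pow_le_pow_left₀ (by positivity) hpow _
  have h3 : (4 / η) ^ N * (η / 4) ^ N = 1 := by
    rw [← mul_pow, div_mul_div_comm, mul_comm 4 η, div_self (by positivity), one_pow]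
  have h4 : 1 ≤ 2 * (2 * M) ^ (b + 32) * ‖FF v‖ := by
    calc (1:ℝ) = 2 * ((4 / η) ^ N * ((η / 4) ^ N * (1 / 2))) := by
          linear_combination -h3
      _ ≤ 2 * ((4 / η) ^ N * (‖FF v‖ * (2 * M) ^ 32)) := by gcongr
      _ ≤ 2 * ((2 * M) ^ b * (‖FF v‖ * (2 * M) ^ 32)) := by gcongr
      _ = _ := by rw [pow_add]; ring
  have h5 : 2 * M ≤ 88 * (3 + |t|) ^ 2 := by
    rw [hM]
    have := abs_nonneg t
    nlinarith
  calc (1:ℝ) ≤ 2 * (2 * M) ^ (b + 32) * ‖FF v‖ := h4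
    _ ≤ 2 * (88 * (3 + |t|) ^ 2) ^ (b + 32) * ‖FF v‖ := by gcongr
    _ = _ := by rw [mul_pow, ← pow_mul]; ring

end Pool.Agent.V8H22.OSC
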