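import Pool.Agent.V8H22.OSC.C7
import Pool.Agent.V8H22.OSC.Z1
import Pool.Agent.H332R2.FL.ZeroExists

/-!
# The window theorem for functions whose Laplace transform is `A(z) / ((z-1/2) ζ(z+1/2))`
-/

set_option autoImplicit false
set_option maxHeartbeats 1000000

open MeasureTheory Complex Set Filter Topology Metric
open scoped NNReal
open H353 (FF FF_bound FF_real_ne FF_anal)

namespace Pool.Agent.V8H22.OSC

/-- `(s-1)ζ(s)` at `s = z + 1/2` -/
noncomputable def DD (z : ℂ) : ℂ := FF (z + 1 / 2)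

lemma DD_diff : Differentiable ℂ DD := by
  have h := ZU.J_g2b.FF_diff
  unfold DD
  exact h.comp (by fun_prop)

lemma DD_bound {z : ℂ} (hz : |z.re| ≤ 1 / 4) : ‖DD z‖ ≤ 5 * (3 + |z.im|) ^ 2 := by
  have hre : (z + 1 / 2).re = z.re + 1 / 2 := by simp
  have h1 := FF_bound (1 / 4) (by norm_num) (z + 1 / 2) (by
    rw [hre]; have := (abs_le.1 hz).1; linarith)
  unfold DD
  refine h1.trans ?_
  have h2 : ‖z + 1 / 2‖ ≤ 3 / 4 + |z.im| := by
    refine (norm_add_le _ _).trans ?_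
    have h3 := Complex.norm_le_abs_re_add_abs_im z
    have h4 : ‖(1 / 2 : ℂ)‖ = 1 / 2 := by norm_num
    rw [h4]
    linarith
  have h5 : (1 + ‖z + 1 / 2‖) ^ 2 ≤ (3 + |z.im|) ^ 2 :=
    pow_le_pow_left₀ (by positivity) (by linarith) 2
  have h6 : (1:ℝ) + 1 / (1 / 4) = 5 := by norm_num
  rw [h6]
  linarith

/-- a zero -/
lemma exists_gamma (hRH : RiemannHypothesis) : ∃ γ : ℝ, 1 < γ ∧ DD (γ * I) = 0 := by
  obtain ⟨ρ, h1, h2, h3, h4, -⟩ := H332.FL.exists_zero_re_ge_half 0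
  have hne : ρ ≠ 1 := by
    rintro rfl
    simp at h4
    linarith
  have hF : FF ρ = 0 := by
    rw [show FF ρ = (ρ - 1) * riemannZeta ρ from ZU.J_g2b.FF_ne hne, h1, mul_zero]
  have hre := FF_zero_half hRH hF (by linarith)
  refine ⟨ρ.im, h4, ?_⟩
  unfold DD
  have e : ((ρ.im : ℂ) * I + 1 / 2) = ρ := by
    apply Complex.ext
    · rw [hre]; simp
    · simp
  rw [e, hF]

/-- near the centre there are no zeros -/
lemma exists_box : ∃ δ : ℝ, 0 < δ ∧ δ ≤ 1 ∧ ∃ K : ℝ, 1 ≤ K ∧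
    ∀ z : ℂ, |z.re| ≤ δ / 16 → |z.im| ≤ δ → 1 ≤ K * ‖DD z‖ := by
  have h0 : DD 0 ≠ 0 := by
    unfold DD
    have := FF_real_ne (1 / 2) (by norm_num)
    push_cast at this
    rwa [zero_add]
  have hpos : 0 < ‖DD 0‖ := norm_pos_iff.2 h0
  have hc : ContinuousAt (fun z => ‖DD z‖) 0 := (DD_diff.continuous.norm).continuousAt
  have hev : ∀ᶠ z in 𝓝 (0:ℂ), ‖DD 0‖ / 2 < ‖DD z‖ := by
    refine hc.eventually (lt_mem_nhds ?_)
    simp only
    linarith
  obtain ⟨r, hr, hball⟩ := Metric.eventually_nhds_iff_ball.1 hev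
  refine ⟨min (r / 4) 1, lt_min (by linarith) one_pos, min_le_right _ _,
    max 1 (2 / ‖DD 0‖), le_max_left _ _, fun z h1 h2 => ?_⟩
  have h3 : min (r / 4) 1 ≤ r / 4 := min_le_left _ _
  have hz : z ∈ ball (0:ℂ) r := by
    rw [mem_ball_zero_iff]
    have := Complex.norm_le_abs_re_add_abs_im z
    linarith
  have h4 := hball z hz
  have h5 : 2 / ‖DD 0‖ ≤ max 1 (2 / ‖DD 0‖) := le_max_right _ _
  calc (1:ℝ) = 2 / ‖DD 0‖ * (‖DD 0‖ / 2) := by field_simp
    _ ≤ max 1 (2 / ‖DD 0‖) * ‖DD z‖ := by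
        refine mul_le_mul h5 h4.le (by positivity) (by positivity)

/-- **Window theorem** for functions whose Laplace transform is a quotient by `(z-1/2)ζ(z+1/2)`. -/
theorem zeta_window (hRH : RiemannHypothesis) (f : ℝ → ℝ) (hf : Measurable f)
    (hg : ∀ ε : ℝ, 0 < ε → ∃ C : ℝ, Gr f C ε) (A : ℂ → ℂ)
    (hA : ∀ z : ℂ, |z.re| < 1 / 2 → DifferentiableAt ℂ A z)
    (hAb : ∃ K : ℝ, ∃ m : ℕ, ∀ z : ℂ, |z.re| ≤ 1 / 4 → ‖A z‖ ≤ K * (3 + |z.im|) ^ m)
    (hA0 : ∀ γ : ℝ, 1 < γ → DD (γ * I) = 0 → A (γ * I) ≠ 0)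
    (htr : ∀ z : ℂ, 0 < z.re → z.re ≤ 1 / 4 → DD z * Lap univ f z = A z) :
    ∃ δ : ℝ, 0 < δ ∧ ∃ c : ℝ, 0 < c ∧ ∃ R : ℝ, 0 < R ∧ ∃ V0 : ℝ, ∀ V, V0 ≤ V →
      ∃ t : ℝ, |t| ≤ R * Real.log V ∧ c * Real.exp (δ * |t|) ≤ f (V + t) := by
  obtain ⟨γ, hγ1, hγ⟩ := exists_gamma hRH
  obtain ⟨δ, hδ0, hδ1, K1, hK1, hbox⟩ := exists_box
  obtain ⟨K2, m2, hAb⟩ := hAb
  set τ : ℝ := δ / 4 with hτ
  have hτ0 : 0 < τ := by rw [hτ]; linarith
  have hτ1 : τ ≤ 1 / 4 := by rw [hτ]; linarith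
  obtain ⟨K3, hK3, m3, hlow⟩ := FF_low hRH (η := τ / 4) (by linarith)
  obtain ⟨K4, hK4⟩ := hg (τ / 8) (by linarith)
  set K := max (max (max K1 K2) (max K3 K4)) 5 with hK
  have a1 : K1 ≤ K := (le_max_left _ _).trans ((le_max_left _ _).trans (le_max_left _ _))
  have a2 : K2 ≤ K := (le_max_right _ _).trans ((le_max_left _ _).trans (le_max_left _ _))
  have a3 : K3 ≤ K := (le_max_left _ _).trans ((le_max_right _ _).trans (le_max_left _ _))
  have a4 : K4 ≤ K := (le_max_right _ _).trans ((le_max_right _ _).trans (le_max_left _ _))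
  have a5 : 5 ≤ K := le_max_right _ _
  set m := max (max m2 m3) 2 with hm
  have b2 : m2 ≤ m := (le_max_left _ _).trans (le_max_left _ _)
  have b3 : m3 ≤ m := (le_max_right _ _).trans (le_max_left _ _)
  have b4 : 2 ≤ m := le_max_right _ _
  have hpow : ∀ (y : ℝ) {n : ℕ}, n ≤ m → (3 + |y|) ^ n ≤ (3 + |y|) ^ m := by
    intro y n hn
    exact pow_le_pow_right₀ (by have := abs_nonneg y; linarith) hn
  let d : Dat :=
    { f := f, D := DD, A := A, τ := τ, δ := δ, γ := γ, K := K, m := m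
      hτ := hτ0
      hτ1 := hτ1
      hτδ := by rw [hτ]; linarith
      hK := by linarith
      fm := hf
      fg := fun a ha v => (hK4 a ha v).trans (mul_le_mul_of_nonneg_right a4 (Real.exp_pos _).le)
      Dd := fun z _ => DD_diff z
      Ad := fun z hz => hA z (by linarith)
      Db := fun z hz => by
        refine (DD_bound (by linarith)).trans ?_
        exact mul_le_mul a5 (hpow z.im b4) (by positivity) (by linarith)
      Ab := fun z hz => by
        refine (hAb z (by linarith)).trans ?_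
        exact mul_le_mul a2 (hpow z.im b2) (by positivity) (by linarith)
      Dl := fun z hz => by
        have hre : (z + 1 / 2).re = z.re + 1 / 2 := by simp
        have him : (z + 1 / 2).im = z.im := by simp
        have h1 := hlow (z + 1 / 2) (by
          rw [hre]; have := (abs_le.1 hz.le).1; linarith) (by
          rw [hre]; have := (abs_le.1 hz.le).2; linarith) (by
          rw [hre, add_sub_cancel_right, hz])
        rw [him] at h1
        refine h1.trans ?_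
        unfold DD
        refine mul_le_mul_of_nonneg_right ?_ (norm_nonneg _)
        exact mul_le_mul a3 (hpow z.im b3) (by positivity) (by linarith)
      Dbox := fun z h1 h2 => by
        refine (hbox z (by rw [hτ] at h1; linarith) h2).trans ?_
        exact mul_le_mul_of_nonneg_right a1 (norm_nonneg _)
      Dγ := hγ
      Aγ := hA0 γ hγ1 hγ
      tr := fun z h1 h2 => htr z (by linarith) (by linarith) }
  obtain ⟨c, hc, R, hR, V0, hV0⟩ := d.main
  exact ⟨τ / 2, by linarith, c, hc, R, hR, V0, hV0⟩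

end Pool.Agent.V8H22.OSC
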