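import Pool.Agent.V8H22.OSC.Z2
import Pool.Agent.N739.OW.Abs

/-!
# Laplace transforms of summatory functions
-/

set_option autoImplicit false
set_option maxHeartbeats 1000000

open MeasureTheory Complex Set Filter Topology Metric
open scoped NNReal
open H353 (FF)
open Pool.Agent.W190 (SF)

namespace Pool.Agent.V8H22.OSC

/-- the summatory function in the logarithmic scale, divided by `√x` -/
noncomputable def fS (a : ℕ → ℝ) (v : ℝ) : ℝ := SF a (Real.exp v) * Real.exp (-(v / 2))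

lemma fS_meas (a : ℕ → ℝ) : Measurable (fS a) :=
  ((Pool.Agent.N739.OW.SF_meas a).comp Real.measurable_exp).mul (by fun_prop)

lemma fS_neg (a : ℕ → ℝ) {v : ℝ} (hv : v < 0) : fS a v = 0 := by
  unfold fS SF
  have : ⌊Real.exp v⌋₊ = 0 := Nat.floor_eq_zero.2 (Real.exp_lt_one_iff.2 hv)
  rw [this]
  simp

/-- the growth condition -/
lemma gr_of {f : ℝ → ℝ} {C ε : ℝ} (hneg : ∀ v, v < 0 → f v = 0) (hC : 0 ≤ C)
    (h : ∀ v, 0 ≤ v → |f v| ≤ C * Real.exp (ε * v)) : Gr f C ε := by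
  intro a ha v
  rcases lt_or_ge v 0 with hv | hv
  · rw [hneg v hv, abs_zero]
    positivity
  · refine (h v hv).trans (mul_le_mul_of_nonneg_left (Real.exp_le_exp.2 ?_) hC)
    exact mul_le_mul_of_nonneg_right ha hv

lemma fS_bound {a : ℕ → ℝ} {C ε : ℝ} (h : ∀ x : ℝ, 1 ≤ x → |SF a x| ≤ C * x ^ (1 / 2 + ε)) {v : ℝ}
    (hv : 0 ≤ v) : |fS a v| ≤ C * Real.exp (ε * v) := by
  have h1 := h (Real.exp v) (Real.one_le_exp hv)
  unfold fS
  rw [abs_mul, abs_of_pos (Real.exp_pos (-(v / 2)))]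
  calc |SF a (Real.exp v)| * Real.exp (-(v / 2))
      ≤ (C * (Real.exp v) ^ (1 / 2 + ε)) * Real.exp (-(v / 2)) :=
        mul_le_mul_of_nonneg_right h1 (Real.exp_pos _).le
    _ = C * Real.exp (ε * v) := by
        rw [← Real.exp_mul, mul_assoc, ← Real.exp_add]
        ring_nf

lemma fS_Gr {a : ℕ → ℝ} {C ε : ℝ} (h : ∀ x : ℝ, 1 ≤ x → |SF a x| ≤ C * x ^ (1 / 2 + ε)) :
    Gr (fS a) C ε := by
  have hC : 0 ≤ C := by
    have := (abs_nonneg _).trans (h 1 le_rfl)
    simpa using this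
  exact gr_of (fun v hv => fS_neg a hv) hC fun v hv => fS_bound h hv

lemma exp_image_Ioi : Real.exp '' Ioi 0 = Ioi 1 := by
  ext y
  constructor
  · rintro ⟨v, hv, rfl⟩
    exact Real.one_lt_exp_iff.2 hv
  · intro hy
    have hy0 : 0 < y := lt_trans one_pos hy
    exact ⟨Real.log y, Real.log_pos hy, Real.exp_log hy0⟩

lemma exp_cpow (v : ℝ) (w : ℂ) : ((Real.exp v : ℝ) : ℂ) ^ w = cexp (w * v) := by
  rw [Complex.cpow_def_of_ne_zero (by exact_mod_cast (Real.exp_pos v).ne'), ← Complex.ofReal_log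
    (Real.exp_pos v).le, Real.log_exp, mul_comm]

/-- the Laplace transform of a function vanishing on the negative axis -/
lemma Lap_univ_eq {f : ℝ → ℝ} (hf : Measurable f) (hneg : ∀ v, v < 0 → f v = 0) {z : ℂ}
    (h : WI (Ioi 0) f z.re) : Lap univ f z = Lap (Ioi 0) f z := by
  have hz : ∀ t : ℝ, t ∈ Iio (0:ℝ) → f t = 0 := fun t ht => hneg t ht
  have h2 : WI (Iic 0) f z.re := by
    unfold WI
    rw [integrableOn_Iic_iff_integrableOn_Iio]
    have h0 : IntegrableOn (fun _ : ℝ => (0:ℝ)) (Iio (0:ℝ)) := integrableOn_zero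
    refine h0.congr_fun (fun t ht => ?_) measurableSet_Iio
    rw [hz t ht]
    simp
  rw [Lap_split hf h h2]
  have h3 : Lap (Iic 0) f z = 0 := by
    unfold Lap
    rw [integral_Iic_eq_integral_Iio]
    have : ∀ t ∈ Iio (0:ℝ), ((f t : ℝ) : ℂ) * cexp (-z * t) = 0 := fun t ht => by
      rw [hz t ht]; simp
    rw [setIntegral_congr_fun measurableSet_Iio this]
    simp
  rw [h3, zero_add]

/-- the Laplace transform of the summatory function is the Dirichlet series -/
lemma Lap_fS {a : ℕ → ℝ} {C ε : ℝ} (hε0 : 0 ≤ ε) (hε : ε ≤ 1 / 2)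
    (h : ∀ x : ℝ, 1 ≤ x → |SF a x| ≤ C * x ^ (1 / 2 + ε))
    (hs : ∀ s : ℂ, 1 < s.re → LSeriesSummable (fun n => ((a n : ℝ) : ℂ)) s) {z : ℂ}
    (hz : 1 / 2 < z.re) :
    LSeries (fun n => ((a n : ℝ) : ℂ)) (z + 1 / 2) = (z + 1 / 2) * Lap univ (fS a) z := by
  have hre : (z + 1 / 2).re = z.re + 1 / 2 := by simp
  have hO : (fun n : ℕ => ∑ k ∈ Finset.Icc 1 n, ((a k : ℝ) : ℂ)) =O[atTop]
      fun n : ℕ => (n : ℝ) ^ (1 / 2 + ε) := by
    rw [Asymptotics.isBigO_iff]
    refine ⟨C, ?_⟩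
    filter_upwards [eventually_ge_atTop 1] with n hn
    have h1 := h n (by exact_mod_cast hn)
    unfold SF at h1
    rw [Nat.floor_natCast] at h1
    rw [← Complex.ofReal_sum, Complex.norm_real, Real.norm_eq_abs,
      Real.norm_of_nonneg (by positivity)]
    exact h1
  have hWI : WI (Ioi 0) (fS a) z.re :=
    WI_pos (fS_meas a) (M := C) (a := ε) (by linarith) (fS_Gr h ε le_rfl)
  rw [LSeries_eq_mul_integral _ (r := 1 / 2 + ε) (by linarith) (by rw [hre]; linarith)
    (hs _ (by rw [hre]; linarith)) hO, Lap_univ_eq (fS_meas a) (fun v hv => fS_neg a hv) hWI]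
  congr 1
  rw [← exp_image_Ioi, integral_image_eq_integral_abs_deriv_smul measurableSet_Ioi
    (fun x _ => (Real.hasDerivAt_exp x).hasDerivWithinAt) Real.exp_injective.injOn]
  unfold Lap
  refine setIntegral_congr_fun measurableSet_Ioi fun v _ => ?_
  rw [exp_cpow, abs_of_pos (Real.exp_pos v)]
  have e1 : (∑ k ∈ Finset.Icc 1 ⌊Real.exp v⌋₊, ((a k : ℝ) : ℂ)) = ((SF a (Real.exp v) : ℝ) : ℂ) := by
    unfold SF
    push_cast
    rfl
  rw [e1, Complex.real_smul]
  unfold fS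
  push_cast
  have e2 : cexp (v:ℂ) * cexp (-(z + 1 / 2 + 1) * v) = cexp (-((v:ℂ) / 2)) * cexp (-z * v) := by
    rw [← Complex.exp_add, ← Complex.exp_add]
    congr 1
    ring
  linear_combination ((SF a (Real.exp v) : ℝ) : ℂ) * e2

/-- analytic continuation of the transform identity -/
lemma tr_ext {f : ℝ → ℝ} (hf : Measurable f) (hg : ∀ ε : ℝ, 0 < ε → ∃ C : ℝ, Gr f C ε) {A : ℂ → ℂ}
    (hA : ∀ z : ℂ, 0 < z.re → DifferentiableAt ℂ A z)
    (h : ∀ z : ℂ, 1 / 2 < z.re → DD z * Lap univ f z = A z) {z : ℂ} (hz : 0 < z.re) :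
    DD z * Lap univ f z = A z := by
  have hopen : IsOpen {z : ℂ | 0 < z.re} := isOpen_lt continuous_const Complex.continuous_re
  have hWI : ∀ x : ℝ, 0 < x → WI univ f x := by
    intro x hx
    obtain ⟨C, hC⟩ := hg (x / 2) (by linarith)
    exact WI_univ (WI_pos hf (by linarith) (hC (x / 2) le_rfl))
      (WI_neg hf (show x < x + 1 by linarith) (hC (x + 1) (by linarith)))
  have hL : DifferentiableOn ℂ (fun z => DD z * Lap univ f z) {z : ℂ | 0 < z.re} := by
    intro w hw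
    have hw' : 0 < w.re := hw
    have h1 : DifferentiableAt ℂ (Lap univ f) w :=
      Lap_diffAt hf (a := 0) (b := w.re + 1) (fun x h1 _ => hWI x h1) hw' (by linarith)
    exact ((DD_diff w).mul h1).differentiableWithinAt
  have hAo : DifferentiableOn ℂ A {z : ℂ | 0 < z.re} := fun w hw => (hA w hw).differentiableWithinAt
  have hpre : IsPreconnected {z : ℂ | 0 < z.re} := (convex_halfSpace_re_gt 0).isPreconnected
  have h1mem : (1:ℂ) ∈ {z : ℂ | 0 < z.re} := by simp
  have hev : (fun z => DD z * Lap univ f z) =ᶠ[𝓝 1] A := by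
    have : {z : ℂ | 1 / 2 < z.re} ∈ 𝓝 (1:ℂ) := by
      refine (isOpen_lt continuous_const Complex.continuous_re).mem_nhds ?_
      simp
      norm_num
    filter_upwards [this] with w hw using h w hw
  exact (hL.analyticOnNhd hopen).eqOn_of_preconnected_of_eventuallyEq (hAo.analyticOnNhd hopen)
    hpre h1mem hev hz

end Pool.Agent.V8H22.OSC
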