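import Pool.Agent.V8H22.OSC.Z3
import Pool.Agent.W190.A17
import Pool.Agent.R303.SW.Lio
import Pool.Agent.R303.SW.Mo
import Pool.Agent.H353R2.K2

/-!
# The windows for the Mertens function and the Liouville function under the Riemann hypothesis
-/

set_option autoImplicit false
set_option maxHeartbeats 1000000

open MeasureTheory Complex Set Filter Topology Metric
open scoped NNReal
open H353 (FF FF_bound FF_real_ne FF_conj)
open Pool.Agent.W190 (SF rh_free)
open Pool.Agent.R303.SW (muR laR laR_abs LS_la liou_bound)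

namespace Pool.Agent.V8H22.OSC

lemma Lap_smul (S : Set ℝ) (s : ℝ) (f : ℝ → ℝ) (z : ℂ) :
    Lap S (fun v => s * f v) z = s * Lap S f z := by
  unfold Lap
  rw [← integral_const_mul]
  refine integral_congr_ae (Eventually.of_forall fun t => ?_)
  simp only
  push_cast
  ring

lemma Gr_smul {f : ℝ → ℝ} {C ε s : ℝ} (h : Gr f C ε) (hs : |s| ≤ 1) : Gr (fun v => s * f v) C ε := by
  intro a ha v
  simp only
  rw [abs_mul]
  calc |s| * |f v| ≤ 1 * |f v| := mul_le_mul_of_nonneg_right hs (abs_nonneg _)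
    _ ≤ _ := by rw [one_mul]; exact h a ha v

/-- the conclusion in the logarithmic scale -/
def LW (f : ℝ → ℝ) : Prop := ∃ δ : ℝ, 0 < δ ∧ ∃ c : ℝ, 0 < c ∧ ∃ R : ℝ, 0 < R ∧ ∃ V0 : ℝ, ∀ V, V0 ≤ V →
      ∃ t : ℝ, |t| ≤ R * Real.log V ∧ c * Real.exp (δ * |t|) ≤ f (V + t)

/-- both signs -/
theorem zeta_window2 (hRH : RiemannHypothesis) (f : ℝ → ℝ) (hf : Measurable f)
    (hg : ∀ ε : ℝ, 0 < ε → ∃ C : ℝ, Gr f C ε) (A : ℂ → ℂ)
    (hA1 : ∀ z : ℂ, 0 < z.re → DifferentiableAt ℂ A z)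
    (hA : ∀ z : ℂ, |z.re| < 1 / 2 → DifferentiableAt ℂ A z)
    (hAb : ∃ K : ℝ, ∃ m : ℕ, ∀ z : ℂ, |z.re| ≤ 1 / 4 → ‖A z‖ ≤ K * (3 + |z.im|) ^ m)
    (hA0 : ∀ γ : ℝ, 1 < γ → DD (γ * I) = 0 → A (γ * I) ≠ 0)
    (htr : ∀ z : ℂ, 1 / 2 < z.re → DD z * Lap univ f z = A z) {s : ℝ} (hs : s = 1 ∨ s = -1) :
    LW (fun v => s * f v) := by
  have hs1 : |s| ≤ 1 := by rcases hs with rfl | rfl <;> simp
  have hs0 : (s:ℂ) ≠ 0 := by rcases hs with rfl | rfl <;> simp
  refine zeta_window hRH _ (hf.const_mul s) (fun ε hε => ?_) (fun z => s * A z) (fun z hz => ?_) ?_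
    (fun γ h1 h2 => mul_ne_zero hs0 (hA0 γ h1 h2)) (fun z h1 _ => ?_)
  · obtain ⟨C, hC⟩ := hg ε hε
    exact ⟨C, Gr_smul hC hs1⟩
  · exact (hA z hz).const_mul _
  · obtain ⟨K, m, h⟩ := hAb
    refine ⟨K, m, fun z hz => ?_⟩
    rw [norm_mul, Complex.norm_real, Real.norm_eq_abs]
    calc |s| * ‖A z‖ ≤ 1 * ‖A z‖ := mul_le_mul_of_nonneg_right hs1 (norm_nonneg _)
      _ ≤ _ := by rw [one_mul]; exact h z hz
  · rw [Lap_smul]
    have := tr_ext hf hg hA1 htr h1
    linear_combination (s:ℂ) * this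

lemma half_ne {z : ℂ} (h : -(1 / 2) < z.re) : z + 1 / 2 ≠ 0 := by
  intro h0
  have := congrArg Complex.re h0
  simp at this
  linarith

/-- the numerator for the Mertens function -/
noncomputable def A0 (z : ℂ) : ℂ := (z - 1 / 2) / (z + 1 / 2)

lemma A0_diff {z : ℂ} (h : -(1 / 2) < z.re) : DifferentiableAt ℂ A0 z := by
  have := half_ne h
  unfold A0
  exact DifferentiableAt.div (by fun_prop) (by fun_prop) this

lemma A0_bound {z : ℂ} (h : |z.re| ≤ 1 / 4) : ‖A0 z‖ ≤ 4 * (3 + |z.im|) ^ 1 := by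
  have h1 : 1 / 4 ≤ ‖z + 1 / 2‖ := by
    have h2 := Complex.abs_re_le_norm (z + 1 / 2)
    have e : (z + 1 / 2).re = z.re + 1 / 2 := by simp
    rw [e] at h2
    have h3 := (abs_le.1 h).1
    have h4 := le_abs_self (z.re + 1 / 2)
    linarith
  have h2 : ‖z - 1 / 2‖ ≤ 3 + |z.im| := by
    refine (norm_sub_le _ _).trans ?_
    have h3 := Complex.norm_le_abs_re_add_abs_im z
    have h4 : ‖(1 / 2 : ℂ)‖ = 1 / 2 := by norm_num
    rw [h4]
    linarith
  unfold A0
  rw [norm_div, div_le_iff₀ (by linarith), pow_one]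
  have := abs_nonneg z.im
  nlinarith

lemma mu_bound (hRH : RiemannHypothesis) (ε : ℝ) (hε : 0 < ε) : ∃ C : ℝ, ∀ x : ℝ, 1 ≤ x →
    |SF muR x| ≤ C * x ^ (1 / 2 + ε) :=
  H353.mertens_of_free (1 / 2) le_rfl (rh_free.1 hRH) (1 / 2 + ε) (by linarith)

theorem mu_LW (hRH : RiemannHypothesis) {s : ℝ} (hs : s = 1 ∨ s = -1) :
    LW (fun v => s * fS muR v) := by
  refine zeta_window2 hRH (fS muR) (fS_meas _) (fun ε hε => ?_) A0 (fun z hz => A0_diff (by linarith))
    (fun z hz => A0_diff (by have := (abs_lt.1 hz).1; linarith)) ⟨4, 1, fun z hz => A0_bound hz⟩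
    (fun γ h1 _ => ?_) (fun z hz => ?_) hs
  · obtain ⟨C, hC⟩ := mu_bound hRH ε hε
    exact ⟨C, fS_Gr hC⟩
  · unfold A0
    refine div_ne_zero (fun h => ?_) (half_ne (by simp))
    have := congrArg Complex.re h
    simp at this
  · obtain ⟨C, hC⟩ := mu_bound hRH (1 / 2) (by norm_num)
    have h1 := Lap_fS (a := muR) (by norm_num) (by norm_num) hC
      (fun s hs => ArithmeticFunction.LSeriesSummable_moebius_iff.2 hs) hz
    have hre : (z + 1 / 2).re = z.re + 1 / 2 := by simp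
    have h2 := ArithmeticFunction.LSeries_zeta_mul_Lseries_moebius (s := z + 1 / 2)
      (by rw [hre]; linarith)
    rw [ArithmeticFunction.LSeries_zeta_eq_riemannZeta (by rw [hre]; linarith)] at h2
    have h3 : LSeries (fun n => ((muR n : ℝ) : ℂ)) (z + 1 / 2) =
        LSeries (fun n => ((ArithmeticFunction.moebius n : ℤ) : ℂ)) (z + 1 / 2) := by
      refine LSeries_congr (fun {n} _ => ?_) _
      simp [muR]
    rw [h3] at h1
    have hne : z + 1 / 2 ≠ 1 := by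
      intro h
      have := congrArg Complex.re h
      rw [hre] at this
      simp at this
      linarith
    have hne0 := half_ne (z := z) (by linarith)
    unfold DD A0
    rw [show FF (z + 1 / 2) = (z + 1 / 2 - 1) * riemannZeta (z + 1 / 2) from ZU.J_g2b.FF_ne hne,
      eq_div_iff hne0]
    rw [h1] at h2
    linear_combination (z + 1 / 2 - 1) * h2

end Pool.Agent.V8H22.OSC
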