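import Pool.Agent.V8H22.OSC.Z5
import Pool.Agent.N739.OW.Lam
import Pool.Agent.N739.OW.Mu

/-!
# Windows in the variable `x`, unconditionally
-/

set_option autoImplicit false
set_option maxHeartbeats 1000000

open MeasureTheory Complex Set Filter Topology Metric
open Pool.Agent.W190 (SF rh_free)
open Pool.Agent.R303.SW (laR)
open Pool.Agent.N739.OW (Inp hsum re_lt_one pos_int)

namespace Pool.Agent.V8H22.OSC

/-- the weighted window statement -/
def Win (g : ℝ → ℝ) : Prop := ∃ c δ C : ℝ, 0 < c ∧ 0 < δ ∧ 0 < C ∧ ∀ᶠ X : ℝ in atTop, ∃ u : ℝ,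
  X / Real.log X ^ C ≤ u ∧ u ≤ X * Real.log X ^ C ∧ c * √u * (max (u / X) (X / u)) ^ δ ≤ g u

lemma max_exp (t : ℝ) : max (Real.exp t) (Real.exp (-t)) = Real.exp |t| := by
  rcases abs_cases t with ⟨h, h0⟩ | ⟨h, h0⟩
  · rw [h]; exact max_eq_left (Real.exp_le_exp.2 (by linarith))
  · rw [h]; exact max_eq_right (Real.exp_le_exp.2 (by linarith))

lemma win_of_LW {f g : ℝ → ℝ} (h : LW f)
    (hfg : ∀ v, 0 < f v → f v = g (Real.exp v) * Real.exp (-(v / 2))) : Win g := by
  obtain ⟨δ, hδ, c, hc, R, hR, V0, hV0⟩ := h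
  refine ⟨c, δ, R, hc, hδ, hR, ?_⟩
  filter_upwards [Real.tendsto_log_atTop.eventually_ge_atTop (max V0 1), eventually_gt_atTop 1]
    with X hX1 hX2
  have hX : 0 < X := by linarith
  have hlog : 1 ≤ Real.log X := (le_max_right _ _).trans hX1
  obtain ⟨t, ht, hft⟩ := hV0 (Real.log X) ((le_max_left _ _).trans hX1)
  have hfp : 0 < f (Real.log X + t) := lt_of_lt_of_le (by positivity) hft
  rw [hfg _ hfp] at hft
  set u := Real.exp (Real.log X + t) with hu
  have hue : u = X * Real.exp t := by rw [hu, Real.exp_add, Real.exp_log hX]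
  have hpow : Real.log X ^ R = Real.exp (R * Real.log (Real.log X)) := by
    rw [Real.rpow_def_of_pos (by linarith), mul_comm]
  have ht' := abs_le.1 ht
  refine ⟨u, ?_, ?_, ?_⟩
  · rw [hpow, hue, div_le_iff₀ (Real.exp_pos _), mul_assoc, ← Real.exp_add]
    exact le_mul_of_one_le_right hX.le (Real.one_le_exp (by linarith))
  · rw [hpow, hue]
    exact mul_le_mul_of_nonneg_left (Real.exp_le_exp.2 ht'.2) hX.le
  · have e1 : u / X = Real.exp t := by rw [hue]; field_simp
    have e2 : X / u = Real.exp (-t) := by rw [hue, Real.exp_neg]; field_simp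
    rw [e1, e2, max_exp, ← Real.exp_mul, mul_comm |t| δ]
    have e3 : Real.exp (-((Real.log X + t) / 2)) = 1 / √u := by
      have h1 : √u = Real.exp ((Real.log X + t) / 2) := by rw [hu, Real.exp_half]
      rw [h1, Real.exp_neg, one_div]
    rw [e3, mul_one_div, le_div_iff₀ (Real.sqrt_pos.2 (Real.exp_pos _))] at hft
    linarith

/-- if the Riemann hypothesis fails, much more is true -/
lemma win_of_false {a : ℕ → ℝ} (ha : Inp a) (κ : ℝ) (hRH : ¬ RiemannHypothesis) {s : ℝ}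
    (hs : s = 1 ∨ s = -1) : Win (fun u => s * (SF a u - κ * √u)) := by
  rw [rh_free] at hRH
  push Not at hRH
  obtain ⟨ρ, hρ1, hρ⟩ := hRH
  have hρ2 := re_lt_one hρ
  set σ : ℝ := (1 / 2 + ρ.re) / 2 with hσ
  set A : ℝ := Real.exp (Real.pi * hsum σ + 1) with hA
  set ε : ℝ := (ρ.re - 1 / 2) / 2 with hε
  have hH0 : 0 ≤ hsum σ := tsum_nonneg fun ρ => div_nonneg (Nat.cast_nonneg _) ρ.2.2.2.le
  have hA1 : 1 < A := Real.one_lt_exp_iff.2 (by have := mul_nonneg Real.pi_pos.le hH0; linarith)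
  have hA0 : 0 < A := by linarith
  have hε0 : 0 < ε := by rw [hε]; linarith
  have h1 := ha.one (σ := σ) (A := A) (by rw [hσ]; linarith) (by rw [hσ]; linarith) hA0
    (by rw [hA, Real.log_exp]; linarith) hρ (by rw [hσ]; linarith) hε0 hs
  have e1 : 1 + ρ.re - ε = 3 / 2 + ε := by rw [hε]; ring
  rw [e1] at h1
  have h2 : ∀ᶠ X : ℝ in atTop, A * ((|κ| + A) * √A) ≤ X ^ ε :=
    (tendsto_rpow_atTop hε0).eventually_ge_atTop _
  have h3 : ∀ᶠ X : ℝ in atTop, max A 1 ≤ Real.log X := Real.tendsto_log_atTop.eventually_ge_atTop _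
  refine ⟨1, 1, 1, one_pos, one_pos, one_pos, ?_⟩
  filter_upwards [h1, h2, h3, eventually_gt_atTop 1] with X g1 g2 g3 g4
  have hX : 0 < X := by linarith
  have hlA : A ≤ Real.log X := (le_max_left _ _).trans g3
  have hl1 : 1 ≤ Real.log X := (le_max_right _ _).trans g3
  have hle : X ≤ A * X := by nlinarith
  set B : ℝ := X ^ (1 / 2 + ε) / A with hB
  have hB0 : 0 < B := by positivity
  obtain ⟨u, hu1, hu2, hu3⟩ : ∃ u, X ≤ u ∧ u ≤ A * X ∧ B ≤ s * SF a u := by
    by_contra hcon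
    push Not at hcon
    have h4 : ∫ u in X..(A * X), max (s * SF a u) 0 ≤ ∫ u in X..(A * X), B := by
      refine intervalIntegral.integral_mono_on hle (pos_int a s _ _ hs) intervalIntegrable_const
        fun u hu => ?_
      exact max_le (hcon u hu.1 hu.2).le hB0.le
    rw [intervalIntegral.integral_const, smul_eq_mul] at h4
    have h5 : (A * X - X) * B < X ^ (3 / 2 + ε) := by
      have e2 : X ^ (3 / 2 + ε) = X * X ^ (1 / 2 + ε) := by
        rw [show (3:ℝ) / 2 + ε = 1 + (1 / 2 + ε) by ring, Real.rpow_add hX, Real.rpow_one]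
      have hP : 0 < X ^ (1 / 2 + ε) := by positivity
      rw [e2, hB]
      have e3 : (A * X - X) * (X ^ (1 / 2 + ε) / A) = X * X ^ (1 / 2 + ε) * ((A - 1) / A) := by
        field_simp
      rw [e3]
      refine mul_lt_of_lt_one_right (by positivity) ?_
      rw [div_lt_one hA0]
      linarith
    linarith [g1.trans h4]
  have hu0 : 0 < u := by linarith
  refine ⟨u, ?_, ?_, ?_⟩
  · rw [Real.rpow_one]
    exact (div_le_self hX.le hl1).trans hu1
  · rw [Real.rpow_one]
    nlinarith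
  · have hmax : max (u / X) (X / u) ≤ A := by
      refine max_le ?_ ?_
      · rw [div_le_iff₀ hX]; exact hu2
      · rw [div_le_iff₀ hu0]; nlinarith
    have hsq : √u ≤ √A * √X := by
      rw [← Real.sqrt_mul hA0.le]
      exact Real.sqrt_le_sqrt hu2
    have hXX : X ^ (1 / 2 + ε) = √X * X ^ ε := by
      rw [Real.rpow_add hX, Real.sqrt_eq_rpow]
    have h6 : (|κ| + A) * (√A * √X) ≤ B := by
      rw [hB, hXX, le_div_iff₀ hA0]
      have := mul_le_mul_of_nonneg_left g2 (Real.sqrt_nonneg X)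
      nlinarith
    have h7 : s * (κ * √u) ≤ |κ| * √u := by
      have h8 : s * κ ≤ |κ| := by
        rcases hs with rfl | rfl
        · rw [one_mul]; exact le_abs_self _
        · rw [neg_one_mul]; exact neg_le_abs _
      nlinarith [mul_le_mul_of_nonneg_right h8 (Real.sqrt_nonneg u)]
    have hsu := Real.sqrt_nonneg u
    rw [Real.rpow_one, one_mul]
    calc √u * max (u / X) (X / u) ≤ √u * A := mul_le_mul_of_nonneg_left hmax hsu
      _ = (|κ| + A) * √u - |κ| * √u := by ring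
      _ ≤ (|κ| + A) * (√A * √X) - |κ| * √u := by gcongr
      _ ≤ B - |κ| * √u := by linarith
      _ ≤ s * SF a u - s * (κ * √u) := by linarith
      _ = s * (SF a u - κ * √u) := by ring

/-- `M` -/
theorem mu_Win {s : ℝ} (hs : s = 1 ∨ s = -1) :
    Win (fun u => s * SF Pool.Agent.R303.SW.muR u) := by
  by_cases hRH : RiemannHypothesis
  · refine win_of_LW (mu_LW hRH hs) fun v _ => ?_
    unfold fS
    ring
  · have h := win_of_false Pool.Agent.N739.OW.inp_mu 0 hRH hs
    simp only [zero_mul, sub_zero] at h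
    exact h

/-- `L` -/
theorem la_Win {s : ℝ} (hs : s = 1 ∨ s = -1) :
    Win (fun u => s * (SF laR u - zh⁻¹ * √u)) := by
  by_cases hRH : RiemannHypothesis
  · refine win_of_LW (la_LW hRH hs) fun v hv => ?_
    have hv0 : 0 ≤ v := by
      by_contra h
      push Not at h
      rw [fL_neg h, mul_zero] at hv
      exact lt_irrefl _ hv
    rw [fL_pos hv0]
    unfold fS
    have e1 : √(Real.exp v) = Real.exp (v / 2) := by rw [Real.exp_half]
    rw [e1]
    have e2 : Real.exp (v / 2) * Real.exp (-(v / 2)) = 1 := by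
      rw [← Real.exp_add]; ring_nf; exact Real.exp_zero
    linear_combination (s * zh⁻¹) * e2
  · exact win_of_false Pool.Agent.N739.OW.inp_la zh⁻¹ hRH hs

/-- moving the window to the right -/
lemma recentre {P : ℝ → Prop} {L : ℝ → ℝ} {C : ℝ} (hC : 0 < C) (hL : Tendsto L atTop atTop)
    (hmono : ∀ᶠ X : ℝ in atTop, ∀ Y, X ≤ Y → Y ≤ X ^ 2 → L Y ≤ 2 * L X)
    (hmono2 : ∀ᶠ X : ℝ in atTop, ∀ Y, X ≤ Y → Y ≤ X ^ 2 → L X ≤ L Y)
    (hsmall : ∀ᶠ X : ℝ in atTop, L X ^ (C + 1) ≤ X)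
    (h : ∀ᶠ X : ℝ in atTop, ∃ u : ℝ, X / L X ^ C ≤ u ∧ u ≤ X * L X ^ C ∧ P u) :
    ∀ᶠ X : ℝ in atTop, ∃ u ∈ Icc X (X * L X ^ (2 * C + 2)), P u := by
  obtain ⟨X0, hX0⟩ := eventually_atTop.1 h
  filter_upwards [hmono, hmono2, hsmall, eventually_ge_atTop X0, eventually_ge_atTop 1,
    hL.eventually_ge_atTop (max 1 (2 ^ C))] with X g1 g2 g3 g4 g5 g6
  have hL1 : 1 ≤ L X := (le_max_left _ _).trans g6
  have hL2 : (2:ℝ) ^ C ≤ L X := (le_max_right _ _).trans g6
  have hLp : 1 ≤ L X ^ (C + 1) := Real.one_le_rpow hL1 (by linarith)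
  have hX : 0 < X := by linarith
  set Y := X * L X ^ (C + 1) with hY
  have hXY : X ≤ Y := le_mul_of_one_le_right hX.le hLp
  have hYX : Y ≤ X ^ 2 := by rw [hY, sq]; exact mul_le_mul_of_nonneg_left g3 hX.le
  obtain ⟨u, hu1, hu2, hu3⟩ := hX0 Y (g4.trans hXY)
  have hLY := g1 Y hXY hYX
  have hLY2 := g2 Y hXY hYX
  have hLYC : L Y ^ C ≤ 2 ^ C * L X ^ C := by
    rw [← Real.mul_rpow (by norm_num) (by linarith)]
    exact Real.rpow_le_rpow (by linarith) hLY hC.le
  have hLYC0 : 0 < L Y ^ C := Real.rpow_pos_of_pos (by linarith) _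
  have hLXC0 : 0 < L X ^ C := Real.rpow_pos_of_pos (by linarith) _
  refine ⟨u, ⟨?_, ?_⟩, hu3⟩
  · refine le_trans ?_ hu1
    rw [le_div_iff₀ hLYC0]
    calc X * L Y ^ C ≤ X * (2 ^ C * L X ^ C) := mul_le_mul_of_nonneg_left hLYC hX.le
      _ ≤ X * (L X * L X ^ C) := by gcongr
      _ = Y := by rw [hY, Real.rpow_add (by linarith), Real.rpow_one]; ring
  · refine hu2.trans ?_
    calc Y * L Y ^ C ≤ Y * (2 ^ C * L X ^ C) := mul_le_mul_of_nonneg_left hLYC (by linarith)
      _ ≤ Y * (L X * L X ^ C) := by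
          refine mul_le_mul_of_nonneg_left ?_ (by linarith)
          exact mul_le_mul_of_nonneg_right hL2 hLXC0.le
      _ = X * L X ^ (2 * C + 2) := by
          rw [hY, show 2 * C + 2 = (C + 1) + (1 + C) by ring, Real.rpow_add (by linarith) (C + 1),
            Real.rpow_add (by linarith) 1 C, Real.rpow_one]
          ring

lemma log_small (C : ℝ) : ∀ᶠ X : ℝ in atTop, Real.log X ^ C ≤ X := by
  have h := (isLittleO_log_rpow_rpow_atTop C one_pos).bound one_pos
  filter_upwards [h, eventually_ge_atTop 1] with X h1 h2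
  rw [Real.rpow_one, one_mul, Real.norm_eq_abs, Real.norm_eq_abs,
    abs_of_nonneg (Real.rpow_nonneg (Real.log_nonneg h2) _), abs_of_nonneg (by linarith)] at h1
  exact h1

/-- the plain windows -/
lemma Win.right {g : ℝ → ℝ} (h : Win g) : ∃ c C : ℝ, 0 < c ∧ 0 < C ∧ ∀ᶠ X : ℝ in atTop,
    ∃ u ∈ Icc X (X * Real.log X ^ C), c * √u ≤ g u := by
  obtain ⟨c, δ, C, hc, hδ, hC, h⟩ := h
  refine ⟨c, 2 * C + 2, hc, by linarith, ?_⟩
  refine recentre (P := fun u => c * √u ≤ g u) hC Real.tendsto_log_atTop ?_ ?_ (log_small _) ?_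
  · filter_upwards [eventually_ge_atTop 1] with X hX Y h1 h2
    calc Real.log Y ≤ Real.log (X ^ 2) := Real.log_le_log (by linarith) h2
      _ = 2 * Real.log X := by rw [Real.log_pow]; norm_num
  · filter_upwards [eventually_ge_atTop 1] with X hX Y h1 _
    exact Real.log_le_log (by linarith) h1
  · filter_upwards [h, eventually_gt_atTop 1, Real.tendsto_log_atTop.eventually_gt_atTop 0]
      with X hX hX1 hX2
    obtain ⟨u, hu1, hu2, hu3⟩ := hX
    refine ⟨u, hu1, hu2, le_trans ?_ hu3⟩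
    have hu0 : 0 < u := lt_of_lt_of_le (by positivity) hu1
    have hm : 1 ≤ max (u / X) (X / u) := by
      rcases le_total u X with h | h
      · exact le_max_of_le_right ((one_le_div hu0).2 h)
      · exact le_max_of_le_left ((one_le_div (by linarith)).2 h)
    exact le_mul_of_one_le_right (by positivity) (Real.one_le_rpow hm hδ.le)

end Pool.Agent.V8H22.OSC
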