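import Pool.Agent.V8H22.OSC.Z6

/-!
# Shorter windows under the upper bound of the conjecture
-/

set_option autoImplicit false
set_option maxHeartbeats 1000000

open Set Filter Topology

namespace Pool.Agent.V8H22.OSC

/-- `log log log x` -/
noncomputable def l3 (x : ℝ) : ℝ := Real.log (Real.log (Real.log x))

lemma l3_tendsto : Tendsto l3 atTop atTop :=
  Real.tendsto_log_atTop.comp (Real.tendsto_log_atTop.comp Real.tendsto_log_atTop)

lemma l3_mono : ∃ U : ℝ, 1 < U ∧ ∀ x y : ℝ, U ≤ x → x ≤ y → 0 ≤ l3 x ∧ l3 x ≤ l3 y := by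
  refine ⟨Real.exp (Real.exp 1), Real.one_lt_exp_iff.2 (Real.exp_pos _), fun x y hx hxy => ?_⟩
  have hx0 : 0 < x := (Real.exp_pos _).trans_le hx
  have h1 : Real.exp 1 ≤ Real.log x := (Real.le_log_iff_exp_le hx0).2 hx
  have h2 : 0 < Real.log x := (Real.exp_pos _).trans_le h1
  have h3 : 1 ≤ Real.log (Real.log x) := (Real.le_log_iff_exp_le h2).2 h1
  have h4 : Real.log x ≤ Real.log y := Real.log_le_log hx0 hxy
  have h5 : Real.log (Real.log x) ≤ Real.log (Real.log y) := Real.log_le_log h2 h4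
  exact ⟨Real.log_nonneg h3, Real.log_le_log (by linarith) h5⟩

lemma l3_sq : ∀ᶠ X : ℝ in atTop, ∀ Y, X ≤ Y → Y ≤ X ^ 2 → l3 Y ≤ 2 * l3 X := by
  filter_upwards [l3_tendsto.eventually_ge_atTop 1, eventually_gt_atTop 1,
    Real.tendsto_log_atTop.eventually_ge_atTop 1,
    (Real.tendsto_log_atTop.comp Real.tendsto_log_atTop).eventually_ge_atTop 1]
    with X g1 g2 g3 g4 Y h1 h2
  have g4' : 1 ≤ Real.log (Real.log X) := g4
  have k1 : Real.log Y ≤ 2 * Real.log X := by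
    calc Real.log Y ≤ Real.log (X ^ 2) := Real.log_le_log (by linarith) h2
      _ = 2 * Real.log X := by rw [Real.log_pow]; norm_num
  have hl2 : Real.log 2 ≤ 1 := by
    have := Real.log_two_lt_d9
    linarith
  have k0 : Real.log X ≤ Real.log Y := Real.log_le_log (by linarith) h1
  have k2 : Real.log (Real.log Y) ≤ 2 * Real.log (Real.log X) := by
    calc Real.log (Real.log Y) ≤ Real.log (2 * Real.log X) := Real.log_le_log (by linarith) k1
      _ = Real.log 2 + Real.log (Real.log X) := Real.log_mul (by norm_num) (by linarith)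
      _ ≤ _ := by linarith
  have k3 : Real.log (Real.log X) ≤ Real.log (Real.log Y) := Real.log_le_log (by linarith) k0
  unfold l3 at g1 ⊢
  calc Real.log (Real.log (Real.log Y)) ≤ Real.log (2 * Real.log (Real.log X)) :=
        Real.log_le_log (by linarith) k2
    _ = Real.log 2 + Real.log (Real.log (Real.log X)) := Real.log_mul (by norm_num) (by linarith)
    _ ≤ _ := by linarith

/-- If `g` satisfies the upper bound of the conjecture, the windows are much shorter. -/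
lemma Win.cond {g : ℝ → ℝ} (h : Win g) {K : ℝ}
    (hub : ∀ᶠ u : ℝ in atTop, g u ≤ K * (u ^ (1 / 2 : ℝ) * l3 u ^ (5 / 4 : ℝ))) :
    ∃ c C : ℝ, 0 < c ∧ 0 < C ∧ ∀ᶠ X : ℝ in atTop, ∃ u ∈ Icc X (X * l3 X ^ C), c * √u ≤ g u := by
  obtain ⟨c, δ, C, hc, hδ, hC, h⟩ := h
  obtain ⟨U1, hU1, hmono⟩ := l3_mono
  obtain ⟨U2, hU2⟩ := eventually_atTop.1 hub
  refine ⟨c, 2 * (2 / δ) + 2, hc, by positivity, ?_⟩
  refine recentre (P := fun u => c * √u ≤ g u) (C := 2 / δ) (by positivity) l3_tendsto l3_sq ?_ ?_ ?_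
  · filter_upwards [eventually_ge_atTop U1] with X hX Y h1 _
    exact (hmono X Y hX h1).2
  · filter_upwards [log_small (2 / δ + 1), l3_tendsto.eventually_ge_atTop 1,
      Real.tendsto_log_atTop.eventually_ge_atTop 1,
      (Real.tendsto_log_atTop.comp Real.tendsto_log_atTop).eventually_ge_atTop 1] with X g1 g2 g3 g4
    have g4' : 1 ≤ Real.log (Real.log X) := g4
    refine le_trans (Real.rpow_le_rpow (by linarith) ?_ (by positivity)) g1
    unfold l3
    have k1 := Real.log_le_sub_one_of_pos (show 0 < Real.log (Real.log X) by linarith)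
    have k2 := Real.log_le_sub_one_of_pos (show 0 < Real.log X by linarith)
    linarith
  · have ev : ∀ᶠ X : ℝ in atTop, |K| / c * 2 ^ (5 / 4 : ℝ) ≤ l3 X ^ (3 / 4 : ℝ) :=
      ((tendsto_rpow_atTop (show (0:ℝ) < 3 / 4 by norm_num)).comp l3_tendsto).eventually_ge_atTop _
    filter_upwards [h, log_small (2 * C), l3_sq, ev, l3_tendsto.eventually_ge_atTop 1,
      eventually_ge_atTop (max 1 (max U1 U2) ^ 2), eventually_gt_atTop 1,
      Real.tendsto_log_atTop.eventually_ge_atTop 1] with X g1 g2 g3 g4 g5 g6 g7 g8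
    have hX : 0 < X := by linarith
    obtain ⟨u, hu1, hu2, hu3⟩ := g1
    set Λ := Real.log X ^ C with hΛ
    have hΛ1 : 1 ≤ Λ := Real.one_le_rpow g8 hC.le
    have hΛ2 : Λ ^ 2 ≤ X := by
      have : Λ ^ 2 = Real.log X ^ (2 * C) := by
        rw [hΛ, ← Real.rpow_natCast, ← Real.rpow_mul (by linarith)]
        congr 1
        push_cast
        ring
      rw [this]
      exact g2
    have hsX : √X ≤ u := by
      refine le_trans ?_ hu1
      rw [le_div_iff₀ (by linarith)]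
      have h1 : Λ ≤ √X := Real.le_sqrt_of_sq_le hΛ2
      calc √X * Λ ≤ √X * √X := mul_le_mul_of_nonneg_left h1 (Real.sqrt_nonneg _)
        _ = X := Real.mul_self_sqrt hX.le
    have hbig : max 1 (max U1 U2) ≤ u := by
      refine le_trans ?_ hsX
      exact Real.le_sqrt_of_sq_le g6
    have hu0 : 0 < u := lt_of_lt_of_le one_pos ((le_max_left _ _).trans hbig)
    have huU1 : U1 ≤ u := (le_max_left _ _).trans ((le_max_right _ _).trans hbig)
    have huU2 : U2 ≤ u := (le_max_right _ _).trans ((le_max_right _ _).trans hbig)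
    have huX2 : u ≤ X ^ 2 := by
      refine hu2.trans ?_
      rw [sq]
      refine mul_le_mul_of_nonneg_left ?_ hX.le
      nlinarith
    obtain ⟨h0, h1⟩ := hmono u (X ^ 2) huU1 huX2
    have hl3u : l3 u ≤ 2 * l3 X := h1.trans (g3 (X ^ 2) (by nlinarith) le_rfl)
    have hg := hU2 u huU2
    set mx := max (u / X) (X / u) with hmx
    have hmx1 : 1 ≤ mx := by
      rcases le_total u X with h | h
      · exact le_max_of_le_right ((one_le_div hu0).2 h)
      · exact le_max_of_le_left ((one_le_div hX).2 h)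
    have hmx0 : 0 ≤ mx := by linarith
    have hy0 : 0 < l3 X := by linarith
    have hsu : 0 < √u := Real.sqrt_pos.2 hu0
    -- the bound for the ratio
    have hkey : mx ^ δ ≤ l3 X ^ (2:ℝ) := by
      have h2 : c * √u * mx ^ δ ≤ |K| * (√u * (2 * l3 X) ^ (5 / 4 : ℝ)) := by
        refine hu3.trans (hg.trans ?_)
        rw [← Real.sqrt_eq_rpow]
        have h3 : l3 u ^ (5 / 4 : ℝ) ≤ (2 * l3 X) ^ (5 / 4 : ℝ) :=
          Real.rpow_le_rpow h0 hl3u (by norm_num)
        have h4 : 0 ≤ √u * l3 u ^ (5 / 4 : ℝ) := by positivity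
        calc K * (√u * l3 u ^ (5 / 4 : ℝ)) ≤ |K| * (√u * l3 u ^ (5 / 4 : ℝ)) :=
              mul_le_mul_of_nonneg_right (le_abs_self K) h4
          _ ≤ _ := by gcongr
      have h3 : mx ^ δ ≤ |K| / c * (2 * l3 X) ^ (5 / 4 : ℝ) := by
        rw [div_mul_eq_mul_div, le_div_iff₀ hc]
        have h4 : √u * (mx ^ δ * c) ≤ √u * (|K| * (2 * l3 X) ^ (5 / 4 : ℝ)) := by linarith
        exact le_of_mul_le_mul_left h4 hsu
      refine h3.trans ?_
      rw [Real.mul_rpow (by norm_num) hy0.le, ← mul_assoc]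
      calc |K| / c * 2 ^ (5 / 4 : ℝ) * l3 X ^ (5 / 4 : ℝ) ≤ l3 X ^ (3 / 4 : ℝ) * l3 X ^ (5 / 4 : ℝ) :=
            mul_le_mul_of_nonneg_right g4 (by positivity)
        _ = l3 X ^ (2:ℝ) := by rw [← Real.rpow_add hy0]; norm_num
    have hmxle : mx ≤ l3 X ^ (2 / δ) := by
      calc mx = (mx ^ δ) ^ (1 / δ) := by
            rw [← Real.rpow_mul hmx0, mul_one_div_cancel hδ.ne', Real.rpow_one]
        _ ≤ (l3 X ^ (2:ℝ)) ^ (1 / δ) := Real.rpow_le_rpow (by positivity) hkey (by positivity)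
        _ = l3 X ^ (2 / δ) := by rw [← Real.rpow_mul hy0.le]; ring_nf
    have hp : 0 < l3 X ^ (2 / δ) := by positivity
    refine ⟨u, ?_, ?_, le_trans ?_ hu3⟩
    · rw [div_le_iff₀ hp]
      have h5 : X / u ≤ l3 X ^ (2 / δ) := (le_max_right _ _).trans hmxle
      rw [div_le_iff₀ hu0] at h5
      linarith
    · have h5 : u / X ≤ l3 X ^ (2 / δ) := (le_max_left _ _).trans hmxle
      rw [div_le_iff₀ hX] at h5
      linarith
    · exact le_mul_of_one_le_right (by positivity) (Real.one_le_rpow hmx1 hδ.le)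

/-- a common constant for the two signs -/
lemma two_signs {g h : ℝ → ℝ} {L : ℝ → ℝ} (hL : Tendsto L atTop atTop)
    (h1 : ∃ c C : ℝ, 0 < c ∧ 0 < C ∧ ∀ᶠ X : ℝ in atTop, ∃ u ∈ Icc X (X * L X ^ C), c * √u ≤ g u)
    (h2 : ∃ c C : ℝ, 0 < c ∧ 0 < C ∧ ∀ᶠ X : ℝ in atTop, ∃ u ∈ Icc X (X * L X ^ C), c * √u ≤ h u) :
    ∃ c C : ℝ, 0 < c ∧ 0 < C ∧ ∀ᶠ X : ℝ in atTop,
      (∃ u ∈ Icc X (X * L X ^ C), c * √u ≤ g u) ∧ (∃ u ∈ Icc X (X * L X ^ C), c * √u ≤ h u) := by
  obtain ⟨c1, C1, a1, a2, a3⟩ := h1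
  obtain ⟨c2, C2, b1, b2, b3⟩ := h2
  refine ⟨min c1 c2, max C1 C2, lt_min a1 b1, lt_max_of_lt_left a2, ?_⟩
  filter_upwards [a3, b3, hL.eventually_ge_atTop 1, eventually_ge_atTop 0] with X g1 g2 g3 g4
  obtain ⟨u1, ⟨p1, p2⟩, p3⟩ := g1
  obtain ⟨u2, ⟨q1, q2⟩, q3⟩ := g2
  refine ⟨⟨u1, ⟨p1, p2.trans ?_⟩, le_trans ?_ p3⟩, ⟨u2, ⟨q1, q2.trans ?_⟩, le_trans ?_ q3⟩⟩
  · exact mul_le_mul_of_nonneg_left (Real.rpow_le_rpow_of_exponent_le g3 (le_max_left _ _)) g4
  · exact mul_le_mul_of_nonneg_right (min_le_left _ _) (Real.sqrt_nonneg _)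
  · exact mul_le_mul_of_nonneg_left (Real.rpow_le_rpow_of_exponent_le g3 (le_max_right _ _)) g4
  · exact mul_le_mul_of_nonneg_right (min_le_right _ _) (Real.sqrt_nonneg _)

end Pool.Agent.V8H22.OSC
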